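import Mathlib

/-!
# Noetherianity of the tensor powers: families of subspaces stable under insertions

Let `P n` be subspaces of the spaces of functions on the words of length `n` in a finite alphabet,
stable under the insertions of letters. Then for large `n` the space `P (n + 1)` is spanned by the
insertions of the elements of `P n` (Higman's lemma, applied to the leading words).
-/

namespace Pool.Agent.K4H35.ST

open Finset

noncomputable section

section words

variable {C : Type}

/-- A set of words which is stable under the insertion of letters is stable for the order. -/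
theorem up_of_sublist {L : Set (List C)}
    (hL : ∀ (p q : List C) (a : C), p ++ q ∈ L → p ++ a :: q ∈ L) {l l' : List C}
    (h : List.Sublist l l') : ∀ p : List C, p ++ l ∈ L → p ++ l' ∈ L := by
  induction h with
  | slnil => exact fun p hp => hp
  | cons a _ ih => exact fun p hp => hL _ _ _ (ih p hp)
  | cons_cons a _ ih =>
    intro p hp
    have h1 := ih (p ++ [a]) (by rwa [List.append_assoc, List.singleton_append])
    rwa [List.append_assoc, List.singleton_append] at h1

theorem exists_remove {l l' : List C} (h : List.Sublist l l') (hlt : l.length < l'.length) :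
    ∃ (p q : List C) (a : C), l' = p ++ a :: q ∧ List.Sublist l (p ++ q) := by
  induction h with
  | slnil => exact absurd hlt (lt_irrefl _)
  | @cons l1 l2 a h _ => exact ⟨[], l2, a, rfl, h⟩
  | @cons_cons l1 l2 a h ih =>
    obtain ⟨p, q, b, h1, h2⟩ := ih (by simpa using hlt)
    exact ⟨a :: p, q, b, by rw [h1]; rfl, h2.cons_cons a⟩

theorem exists_len [Finite C] {L : Set (List C)}
    (hL : ∀ (p q : List C) (a : C), p ++ q ∈ L → p ++ a :: q ∈ L) :
    ∃ K0 : ℕ, ∀ l ∈ L, K0 < l.length → ∃ (p q : List C) (a : C), l = p ++ a :: q ∧ p ++ q ∈ L := by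
  let bad : Set (List C) := {l | l ∈ L ∧ ∀ (p q : List C) (a : C), l = p ++ a :: q → p ++ q ∉ L}
  have h1 : (Set.univ : Set C).PartiallyWellOrderedOn (· = ·) :=
    (Set.finite_univ (α := C)).partiallyWellOrderedOn
  have h2 := Set.PartiallyWellOrderedOn.partiallyWellOrderedOn_sublistForall₂ (· = ·) h1
  have h3 : bad.PartiallyWellOrderedOn (List.SublistForall₂ (· = ·)) :=
    h2.mono fun l _ x _ => Set.mem_univ x
  have h4 : IsAntichain (List.SublistForall₂ (· = ·)) bad := by
    intro l hl l' hl' hne h
    rw [List.sublistForall₂_iff] at h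
    obtain ⟨l'', h5, h6⟩ := h
    rw [List.forall₂_eq_eq_eq] at h5
    subst h5
    have h7 : l.length < l'.length := by
      refine lt_of_le_of_ne h6.length_le fun h => hne ?_
      exact h6.eq_of_length h
    obtain ⟨p, q, a, h8, h9⟩ := exists_remove h6 h7
    exact hl'.2 p q a h8 (up_of_sublist hL h9 [] hl.1)
  have h5 : bad.Finite := h4.finite_of_partiallyWellOrderedOn h3
  obtain ⟨K0, hK0⟩ := (h5.image List.length).bddAbove
  refine ⟨K0, fun l hl hlen => ?_⟩
  by_contra hcon
  push Not at hcon
  have h6 : l ∈ bad := ⟨hl, hcon⟩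
  exact absurd (hK0 ⟨l, h6, rfl⟩) (not_le.2 hlen)

end words

section ins

variable {C : Type} [DecidableEq C] {K : Type} [Field K] {n : ℕ}

/-- The insertion of a letter in a tensor. -/
def ins (i : Fin (n + 1)) (c : C) (x : (Fin n → C) → K) : (Fin (n + 1) → C) → K :=
  fun w => if w i = c then x (i.removeNth w) else 0

theorem ins_insertNth (i : Fin (n + 1)) (c : C) (x : (Fin n → C) → K) (w : Fin n → C) :
    ins i c x (i.insertNth c w) = x w := by
  unfold ins
  rw [Fin.insertNth_apply_same, if_pos rfl, Fin.removeNth_insertNth]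

/-- The key of a word. -/
def key (r : C → ℕ) (w : Fin n → C) : Lex (Fin n → ℕ) := toLex fun i => r (w i)

theorem key_inj {r : C → ℕ} (hr : Function.Injective r) {u w : Fin n → C}
    (h : key r u = key r w) : u = w :=
  funext fun i => hr (congrFun (toLex.injective h) i)

theorem key_insertNth {r : C → ℕ} (i : Fin (n + 1)) (c : C) {u w : Fin n → C}
    (h : key r u < key r w) :
    key r (i.insertNth c u : Fin (n + 1) → C) < key r (i.insertNth c w : Fin (n + 1) → C) := by
  obtain ⟨j, h1, h2⟩ := h
  refine ⟨i.succAbove j, fun k hk => ?_, ?_⟩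
  · change r ((i.insertNth c u : Fin (n + 1) → C) k) = r ((i.insertNth c w : Fin (n + 1) → C) k)
    rcases eq_or_ne k i with hki | hki
    · rw [hki, Fin.insertNth_apply_same, Fin.insertNth_apply_same]
    · obtain ⟨k', rfl⟩ := Fin.exists_succAbove_eq hki
      rw [Fin.insertNth_apply_succAbove, Fin.insertNth_apply_succAbove]
      exact h1 k' ((Fin.strictMono_succAbove i).lt_iff_lt.1 hk)
  · change r ((i.insertNth c u : Fin (n + 1) → C) (i.succAbove j)) <
      r ((i.insertNth c w : Fin (n + 1) → C) (i.succAbove j))
    rw [Fin.insertNth_apply_succAbove, Fin.insertNth_apply_succAbove]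
    exact h2

theorem key_insertNth_iff {r : C → ℕ} (hr : Function.Injective r) (i : Fin (n + 1)) (c : C)
    {u w : Fin n → C}
    (h : key r (i.insertNth c u : Fin (n + 1) → C) < key r (i.insertNth c w : Fin (n + 1) → C)) :
    key r u < key r w := by
  rcases lt_trichotomy (key r u) (key r w) with h1 | h1 | h1
  · exact h1
  · rw [key_inj hr h1] at h
    exact absurd h (lt_irrefl _)
  · exact absurd (h.trans (key_insertNth i c h1)) (lt_irrefl _)

/-- The word `w` is the leading word of an element of the subspace. -/
def Lead (r : C → ℕ) (P : Submodule K ((Fin n → C) → K)) (w : Fin n → C) : Prop :=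
  ∃ x ∈ P, x w ≠ 0 ∧ ∀ u, key r w < key r u → x u = 0

theorem ofFn_insertNth {n : ℕ} (p q : List C) (a : C) (w : Fin n → C)
    (h : List.ofFn w = p ++ q) (i : Fin (n + 1)) (hi : i.val = p.length) :
    List.ofFn (i.insertNth a w : Fin (n + 1) → C) = p ++ a :: q := by
  induction p generalizing n with
  | nil =>
    have h1 : i = 0 := Fin.ext hi
    subst h1
    rw [Fin.insertNth_zero', List.ofFn_cons, h, List.nil_append, List.nil_append]
  | cons b p ih =>
    obtain _ | m := n
    · rw [List.ofFn_zero] at h
      exact absurd h (by simp)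
    · obtain ⟨j, rfl⟩ : ∃ j : Fin (m + 1), i = j.succ := by
        refine ⟨⟨p.length, ?_⟩, Fin.ext ?_⟩
        · have h2 := i.isLt
          rw [hi, List.length_cons] at h2
          omega
        · exact hi.trans List.length_cons
      have h1 : w = Fin.cons (w 0) (Fin.tail w) := (Fin.cons_self_tail w).symm
      have h2 : List.ofFn w = w 0 :: List.ofFn (Fin.tail w) := by
        conv_lhs => rw [h1]
        rw [List.ofFn_cons]
      rw [h2, List.cons_append, List.cons.injEq] at h
      have h3 : (j.succ.insertNth a w : Fin (m + 1 + 1) → C) =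
          Fin.cons (w 0) (j.insertNth a (Fin.tail w) : Fin (m + 1) → C) := by
        funext k
        rcases eq_or_ne k j.succ with hk | hk
        · rw [hk, Fin.insertNth_apply_same, Fin.cons_succ, Fin.insertNth_apply_same]
        · obtain ⟨k', rfl⟩ := Fin.exists_succAbove_eq hk
          rw [Fin.insertNth_apply_succAbove]
          refine Fin.cases ?_ (fun k'' => ?_) k'
          · rw [Fin.succ_succAbove_zero, Fin.cons_zero]
          · rw [Fin.succ_succAbove_succ, Fin.cons_succ, Fin.insertNth_apply_succAbove]
            rfl
      rw [h3, List.ofFn_cons, ih _ h.2 j (by simpa using hi), h.1, List.cons_append]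

/-- **Noetherianity.** -/
theorem exists_bound [Fintype C] (P : ∀ n, Submodule K ((Fin n → C) → K))
    (hP : ∀ n (i : Fin (n + 1)) (c : C), ∀ x ∈ P n, ins i c x ∈ P (n + 1)) :
    ∃ K0 : ℕ, ∀ n, K0 ≤ n → P (n + 1) ≤ Submodule.span K
      {y | ∃ (i : Fin (n + 1)) (c : C), ∃ x ∈ P n, y = ins i c x} := by
  classical
  obtain ⟨r, hr⟩ : ∃ r : C → ℕ, Function.Injective r :=
    ⟨fun c => (Fintype.equivFin C c).val, fun a b h => (Fintype.equivFin C).injective (Fin.ext h)⟩
  let L : Set (List C) := {l | ∃ (n : ℕ) (w : Fin n → C), l = List.ofFn w ∧ Lead r (P n) w}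
  have hL : ∀ (p q : List C) (a : C), p ++ q ∈ L → p ++ a :: q ∈ L := by
    rintro p q a ⟨n, w, h1, x, hx, h2, h3⟩
    have hlen : p.length < n + 1 := by
      have h4 := congrArg List.length h1
      rw [List.length_append, List.length_ofFn] at h4
      omega
    refine ⟨n + 1, (⟨p.length, hlen⟩ : Fin (n + 1)).insertNth a w,
      (ofFn_insertNth p q a w h1.symm _ rfl).symm, ins ⟨p.length, hlen⟩ a x, hP _ _ _ _ hx, ?_,
      fun u hu => ?_⟩
    · rw [ins_insertNth]
      exact h2
    · unfold ins
      split_ifs with hc
      · apply h3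
        have h5 : u = (⟨p.length, hlen⟩ : Fin (n + 1)).insertNth a
            ((⟨p.length, hlen⟩ : Fin (n + 1)).removeNth u) := by
          rw [← hc, Fin.insertNth_self_removeNth]
        rw [h5] at hu
        exact key_insertNth_iff hr _ _ hu
      · rfl
  obtain ⟨K0, hK0⟩ := exists_len hL
  refine ⟨K0, fun n hn => ?_⟩
  let S := Submodule.span K {y | ∃ (i : Fin (n + 1)) (c : C), ∃ x ∈ P n, y = ins i c x}
  have main : ∀ (k : Lex (Fin (n + 1) → ℕ)) (w : Fin (n + 1) → C), key r w = k → ∀ x ∈ P (n + 1),
      x w ≠ 0 → (∀ u, key r w < key r u → x u = 0) → x ∈ S := by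
    have hfin : ({k | ∃ w : Fin (n + 1) → C, key r w = k} : Set (Lex (Fin (n + 1) → ℕ))).Finite :=
      Set.finite_range (key r)
    intro k
    induction k using WellFoundedLT.induction with
    | ind k ih =>
      intro w hwk x hx h1 h2
      have h3 : List.ofFn w ∈ L := ⟨n + 1, w, rfl, x, hx, h1, h2⟩
      obtain ⟨p, q, a, h4, n', w', h5, y, hy, h6, h7⟩ := hK0 _ h3 (by
        rw [List.length_ofFn]
        omega)
      obtain rfl : n' = n := by
        have h8 := congrArg List.length h4
        have h9 := congrArg List.length h5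
        simp only [List.length_ofFn, List.length_append, List.length_cons] at h8 h9
        omega
      have hlen : p.length < n' + 1 := by
        have h8 := congrArg List.length h5
        rw [List.length_append, List.length_ofFn] at h8
        omega
      obtain ⟨i, hi⟩ : ∃ i : Fin (n' + 1), i = ⟨p.length, hlen⟩ := ⟨_, rfl⟩
      have h8 : w = (i.insertNth a w' : Fin (n' + 1) → C) := by
        apply List.ofFn_injective
        rw [h4, ofFn_insertNth p q a w' h5.symm i (by rw [hi])]
      have hyz : ins i a y w ≠ 0 := by
        rw [h8, ins_insertNth]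
        exact h6
      have hyu : ∀ u, key r w < key r u → ins i a y u = 0 := by
        intro u hu
        unfold ins
        split_ifs with hc
        · apply h7
          have h5 : u = (i.insertNth a (i.removeNth u) : Fin (n' + 1) → C) := by
            rw [← hc, Fin.insertNth_self_removeNth]
          rw [h5, h8] at hu
          exact key_insertNth_iff hr _ _ hu
        · rfl
      have hyS : ins i a y ∈ S := Submodule.subset_span ⟨i, a, y, hy, rfl⟩
      have hsm : (x w / ins i a y w) • ins i a y ∈ S := S.smul_mem _ hyS
      have hz : x - (x w / ins i a y w) • ins i a y ∈ S := by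
        obtain ⟨z, hz⟩ : ∃ z, z = x - (x w / ins i a y w) • ins i a y := ⟨_, rfl⟩
        rw [← hz]
        by_cases hz0 : z = 0
        · rw [hz0]
          exact S.zero_mem
        · obtain ⟨w1, hw1⟩ : ∃ w1, z w1 ≠ 0 := by
            by_contra hcon
            push Not at hcon
            exact hz0 (funext hcon)
          obtain ⟨w2, hw2, hw3⟩ := Finset.exists_max_image (univ.filter fun u => z u ≠ 0) (key r)
            ⟨w1, by rw [mem_filter]; exact ⟨mem_univ _, hw1⟩⟩
          rw [mem_filter] at hw2
          have hzmax : ∀ u, key r w2 < key r u → z u = 0 := by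
            intro u hu
            by_contra hcon
            exact absurd (hw3 u (by rw [mem_filter]; exact ⟨mem_univ _, hcon⟩)) (not_le.2 hu)
          have hzP : z ∈ P (n' + 1) := by
            rw [hz]
            exact (P (n' + 1)).sub_mem hx ((P (n' + 1)).smul_mem _ (hP _ _ _ _ hy))
          have hlt : key r w2 < k := by
            rw [← hwk]
            rcases lt_trichotomy (key r w2) (key r w) with h | h | h
            · exact h
            · exfalso
              apply hw2.2
              rw [key_inj hr h, hz, Pi.sub_apply, Pi.smul_apply, smul_eq_mul,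
                div_mul_cancel₀ _ hyz, sub_self]
            · exfalso
              apply hw2.2
              rw [hz, Pi.sub_apply, Pi.smul_apply, smul_eq_mul, h2 _ h, hyu _ h, mul_zero,
                sub_zero]
          exact ih _ hlt w2 rfl z hzP hw2.2 hzmax
      have h9 := S.add_mem hz hsm
      rwa [sub_add_cancel] at h9
  intro x hx
  by_cases hx0 : x = 0
  · rw [hx0]
    exact Submodule.zero_mem _
  · obtain ⟨w1, hw1⟩ : ∃ w1, x w1 ≠ 0 := by
      by_contra hcon
      push Not at hcon
      exact hx0 (funext hcon)
    obtain ⟨w2, hw2, hw3⟩ := Finset.exists_max_image (univ.filter fun u => x u ≠ 0) (key r)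
      ⟨w1, by rw [mem_filter]; exact ⟨mem_univ _, hw1⟩⟩
    rw [mem_filter] at hw2
    refine main _ w2 rfl x hx hw2.2 fun u hu => ?_
    by_contra hcon
    exact absurd (hw3 u (by rw [mem_filter]; exact ⟨mem_univ _, hcon⟩)) (not_le.2 hu)

end ins

end

end Pool.Agent.K4H35.ST
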