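import Mathlib
import Pool.Agent.K4H35.ST.Hig

/-!
# Finite generation of the invariant tensors

Abstract form: `B n` are subspaces of the tensor powers, stable under the products, with
complements `N n` which are stable under the products with the elements of the `B k`. Then the
`B n` are generated by finitely many of them.
-/

namespace Pool.Agent.K4H35.ST

open Finset

noncomputable section

section gen

variable {C : Type} [DecidableEq C] {K : Type} [Field K]

/-- The product of two tensors on complementary sets of places. -/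
def pr {k l n : ℕ} (e : Fin k ⊕ Fin l ≃ Fin n) (b : (Fin k → C) → K) :
    ((Fin l → C) → K) →ₗ[K] ((Fin n → C) → K) where
  toFun r w := b (fun a => w (e (Sum.inl a))) * r (fun a => w (e (Sum.inr a)))
  map_add' r r' := by
    funext w
    exact mul_add _ _ _
  map_smul' c r := by
    funext w
    exact mul_left_comm _ _ _

theorem pr_apply {k l n : ℕ} (e : Fin k ⊕ Fin l ≃ Fin n) (b : (Fin k → C) → K)
    (r : (Fin l → C) → K) (w : Fin n → C) :
    pr e b r w = b (fun a => w (e (Sum.inl a))) * r (fun a => w (e (Sum.inr a))) := rfl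

theorem ins_add {n : ℕ} (i : Fin (n + 1)) (c : C) (x y : (Fin n → C) → K) :
    ins i c (x + y) = ins i c x + ins i c y := by
  funext w
  change (if w i = c then x (i.removeNth w) + y (i.removeNth w) else 0) =
    (if w i = c then x (i.removeNth w) else 0) + if w i = c then y (i.removeNth w) else 0
  split_ifs
  · rfl
  · exact (add_zero 0).symm

theorem ins_smul {n : ℕ} (i : Fin (n + 1)) (c : C) (r : K) (x : (Fin n → C) → K) :
    ins i c (r • x) = r • ins i c x := by
  funext w
  change (if w i = c then r * x (i.removeNth w) else 0) =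
    r * if w i = c then x (i.removeNth w) else 0
  split_ifs
  · rfl
  · exact (mul_zero r).symm

theorem ins_zero {n : ℕ} (i : Fin (n + 1)) (c : C) :
    ins i c (0 : (Fin n → C) → K) = 0 := by
  funext w
  unfold ins
  split_ifs <;> rfl

theorem exists_ins_pr {k l n : ℕ} (e : Fin k ⊕ Fin l ≃ Fin n) (i : Fin (n + 1)) :
    ∃ e' : Fin k ⊕ Fin (l + 1) ≃ Fin (n + 1), ∀ (c : C) (b : (Fin k → C) → K)
      (r : (Fin l → C) → K), ins i c (pr e b r) = pr e' b (ins 0 c r) := by
  have hcard : k + l = n := by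
    have h := Fintype.card_congr e
    rwa [Fintype.card_sum, Fintype.card_fin, Fintype.card_fin, Fintype.card_fin] at h
  let f : Fin k ⊕ Fin (l + 1) → Fin (n + 1) := Sum.elim (fun a => i.succAbove (e (Sum.inl a)))
    (Fin.cons i fun a => i.succAbove (e (Sum.inr a)))
  have hf : Function.Bijective f := by
    rw [Fintype.bijective_iff_injective_and_card]
    refine ⟨?_, ?_⟩
    · have h1 : ∀ (a : Fin k) (b : Fin (l + 1)), f (Sum.inl a) ≠ f (Sum.inr b) := by
        intro a b
        refine Fin.cases ?_ (fun b' => ?_) b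
        · exact Fin.succAbove_ne i _
        · intro h
          have h2 := Fin.succAbove_right_injective h
          exact absurd (e.injective h2) (by simp)
      rintro (a | a) (b | b) h
      · have h2 := Fin.succAbove_right_injective (p := i) h
        rw [Sum.inl_injective (e.injective h2)]
      · exact absurd h (h1 a b)
      · exact absurd h.symm (h1 b a)
      · revert h
        refine Fin.cases ?_ (fun a' => ?_) a
        · refine Fin.cases ?_ (fun b' => ?_) b
          · exact fun _ => rfl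
          · intro h
            exact absurd h.symm (Fin.succAbove_ne i _)
        · refine Fin.cases ?_ (fun b' => ?_) b
          · intro h
            exact absurd h (Fin.succAbove_ne i _)
          · intro h
            have h2 : e (Sum.inr a') = e (Sum.inr b') :=
              Fin.succAbove_right_injective (p := i) h
            have h3 := Sum.inr_injective (e.injective h2)
            rw [h3]
    · rw [Fintype.card_sum, Fintype.card_fin, Fintype.card_fin, Fintype.card_fin]
      omega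
  refine ⟨Equiv.ofBijective f hf, fun c b r => ?_⟩
  funext w
  rw [pr_apply]
  unfold ins
  rw [pr_apply]
  change (if w i = c then b (fun a => w (i.succAbove (e (Sum.inl a)))) *
      r (fun a => w (i.succAbove (e (Sum.inr a)))) else 0) =
    b (fun a => w (i.succAbove (e (Sum.inl a)))) *
      if w i = c then r (fun a => w (i.succAbove (e (Sum.inr a)))) else 0
  split_ifs
  · rfl
  · rw [mul_zero]

/-- The tensors generated by the products with the elements of `B k`, `1 ≤ k`, `p k`. -/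
def PG (B : ∀ n, Submodule K ((Fin n → C) → K)) (p : ℕ → Prop) (n : ℕ) :
    Submodule K ((Fin n → C) → K) :=
  Submodule.span K {y | ∃ (k l : ℕ) (e : Fin k ⊕ Fin l ≃ Fin n) (b : (Fin k → C) → K)
    (r : (Fin l → C) → K), 1 ≤ k ∧ p k ∧ b ∈ B k ∧ y = pr e b r}

theorem PG_ins {B : ∀ n, Submodule K ((Fin n → C) → K)} {p : ℕ → Prop} {n : ℕ}
    (i : Fin (n + 1)) (c : C) {x : (Fin n → C) → K} (hx : x ∈ PG B p n) :
    ins i c x ∈ PG B p (n + 1) := by
  refine Submodule.span_induction (p := fun x _ => ins i c x ∈ PG B p (n + 1)) ?_ ?_ ?_ ?_ hx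
  · rintro _ ⟨k, l, e, b, r, h1, h2, h3, rfl⟩
    obtain ⟨e', he'⟩ := exists_ins_pr (C := C) (K := K) e i
    exact Submodule.subset_span ⟨k, l + 1, e', b, ins 0 c r, h1, h2, h3, he' c b r⟩
  · rw [ins_zero]
    exact Submodule.zero_mem _
  · intro x y _ _ h1 h2
    rw [ins_add]
    exact Submodule.add_mem _ h1 h2
  · intro r x _ h1
    rw [ins_smul]
    exact Submodule.smul_mem _ _ h1

theorem exists_PG [Fintype C] (B : ∀ n, Submodule K ((Fin n → C) → K)) :
    ∃ K0 : ℕ, ∀ n, PG B (fun _ => True) n ≤ PG B (fun k => k ≤ K0) n := by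
  obtain ⟨K0, hK0⟩ := exists_bound (PG B fun _ => True) fun n i c x hx => PG_ins i c hx
  refine ⟨K0, fun n => ?_⟩
  induction n with
  | zero =>
    refine Submodule.span_mono ?_
    rintro _ ⟨k, l, e, b, r, h1, _, h3, rfl⟩
    have h := Fintype.card_congr e
    rw [Fintype.card_sum, Fintype.card_fin, Fintype.card_fin, Fintype.card_fin] at h
    omega
  | succ n ih =>
    by_cases hn : K0 ≤ n
    · refine (hK0 n hn).trans (Submodule.span_le.2 ?_)
      rintro _ ⟨i, c, x, hx, rfl⟩
      exact PG_ins i c (ih hx)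
    · refine Submodule.span_mono ?_
      rintro _ ⟨k, l, e, b, r, h1, _, h3, rfl⟩
      have h := Fintype.card_congr e
      rw [Fintype.card_sum, Fintype.card_fin, Fintype.card_fin, Fintype.card_fin] at h
      exact ⟨k, l, e, b, r, h1, by omega, h3, rfl⟩

/-- The products of two elements of the `B k`. -/
def PB (B : ∀ n, Submodule K ((Fin n → C) → K)) (K0 n : ℕ) :
    Submodule K ((Fin n → C) → K) :=
  Submodule.span K {y | ∃ (k l : ℕ) (e : Fin k ⊕ Fin l ≃ Fin n) (b : (Fin k → C) → K)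
    (r : (Fin l → C) → K), 1 ≤ k ∧ k ≤ K0 ∧ b ∈ B k ∧ r ∈ B l ∧ y = pr e b r}

theorem exists_PB [Fintype C] {B N : ∀ n, Submodule K ((Fin n → C) → K)}
    (hB : ∀ {k l n : ℕ} (e : Fin k ⊕ Fin l ≃ Fin n), ∀ b ∈ B k, ∀ r ∈ B l, pr e b r ∈ B n)
    (hN : ∀ {k l n : ℕ} (e : Fin k ⊕ Fin l ≃ Fin n), ∀ b ∈ B k, ∀ r ∈ N l, pr e b r ∈ N n)
    (h0 : ∀ n, ∀ x ∈ B n, x ∈ N n → x = 0)
    (hsup : ∀ n (x : (Fin n → C) → K), ∃ b ∈ B n, ∃ y ∈ N n, x = b + y) :
    ∃ K0 : ℕ, ∀ n, 1 ≤ n → ∀ x ∈ B n, x ∈ PB B K0 n := by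
  obtain ⟨K0, hK0⟩ := exists_PG B
  refine ⟨K0, fun n hn x hx => ?_⟩
  have hPB : PB B K0 n ≤ B n := by
    refine Submodule.span_le.2 ?_
    rintro _ ⟨k, l, e, b, r, _, _, h3, h4, rfl⟩
    exact hB e b h3 r h4
  have h1 : x ∈ PG B (fun k => k ≤ K0) n := by
    apply hK0
    refine Submodule.subset_span ⟨n, 0, Equiv.sumEmpty (Fin n) (Fin 0), x, fun _ => 1, hn, trivial,
      hx, ?_⟩
    funext w
    rw [pr_apply, mul_one]
    rfl
  have h2 : ∀ y ∈ PG B (fun k => k ≤ K0) n, ∃ b ∈ PB B K0 n, ∃ z ∈ N n, y = b + z := by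
    intro y hy
    refine Submodule.span_induction (p := fun y _ => ∃ b ∈ PB B K0 n, ∃ z ∈ N n, y = b + z)
      ?_ ?_ ?_ ?_ hy
    · rintro _ ⟨k, l, e, b, r, h3, h4, h5, rfl⟩
      obtain ⟨r', hr', z, hz, rfl⟩ := hsup l r
      exact ⟨pr e b r', Submodule.subset_span ⟨k, l, e, b, r', h3, h4, h5, hr', rfl⟩, pr e b z,
        hN e b h5 z hz, map_add _ _ _⟩
    · exact ⟨0, Submodule.zero_mem _, 0, Submodule.zero_mem _, (add_zero 0).symm⟩
    · rintro _ _ _ _ ⟨b, hb, z, hz, rfl⟩ ⟨b', hb', z', hz', rfl⟩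
      exact ⟨b + b', Submodule.add_mem _ hb hb', z + z', Submodule.add_mem _ hz hz',
        add_add_add_comm _ _ _ _⟩
    · rintro a _ _ ⟨b, hb, z, hz, rfl⟩
      exact ⟨a • b, Submodule.smul_mem _ _ hb, a • z, Submodule.smul_mem _ _ hz, smul_add _ _ _⟩
  obtain ⟨b, hb, z, hz, hbz⟩ := h2 x h1
  have h3 : z = 0 := by
    apply h0 n z _ hz
    have h4 : z = x - b := by rw [hbz]; abel
    rw [h4]
    exact Submodule.sub_mem _ hx (hPB hb)
  rw [hbz, h3, add_zero]
  exact hb

/-- The products of tensors on the classes of a partition of the places. -/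
def prodT {ι : Type} [Fintype ι] {κ : ι → ℕ} {n : ℕ} (e : (Σ s, Fin (κ s)) ≃ Fin n)
    (b : ∀ s, (Fin (κ s) → C) → K) : (Fin n → C) → K :=
  fun w => ∏ s, b s fun a => w (e ⟨s, a⟩)

/-- The combinations of products of elements of the `B k`, `k ≤ K0`. -/
def GB (B : ∀ n, Submodule K ((Fin n → C) → K)) (K0 n : ℕ) :
    Submodule K ((Fin n → C) → K) :=
  Submodule.span K {y | ∃ (t : ℕ) (κ : Fin t → ℕ) (e : (Σ s, Fin (κ s)) ≃ Fin n)
    (b : ∀ s, (Fin (κ s) → C) → K), (∀ s, κ s ≤ K0 ∧ b s ∈ B (κ s)) ∧ y = prodT e b}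

/-- The division into the first class and the others. -/
def optE {ι : Type} {κ : ι → ℕ} {k l n : ℕ} (e : Fin k ⊕ Fin l ≃ Fin n)
    (e0 : (Σ s, Fin (κ s)) ≃ Fin l) :
    (Σ s : Option ι, Fin (s.elim k κ)) ≃ Fin n where
  toFun
    | ⟨none, a⟩ => e (Sum.inl a)
    | ⟨some s, a⟩ => e (Sum.inr (e0 ⟨s, a⟩))
  invFun i := Sum.elim (fun a => ⟨none, a⟩) (fun j => ⟨some (e0.symm j).1, (e0.symm j).2⟩)
    (e.symm i)
  left_inv := by
    rintro ⟨(_ | s), a⟩
    · change Sum.elim _ _ (e.symm (e (Sum.inl a))) = _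
      rw [Equiv.symm_apply_apply]
      rfl
    · change Sum.elim _ _ (e.symm (e (Sum.inr (e0 ⟨s, a⟩)))) = _
      rw [Equiv.symm_apply_apply]
      change (⟨some (e0.symm (e0 ⟨s, a⟩)).1, (e0.symm (e0 ⟨s, a⟩)).2⟩ :
        Σ s : Option ι, Fin (s.elim k κ)) = _
      rw [Equiv.symm_apply_apply]
  right_inv := by
    intro i
    obtain ⟨j, rfl⟩ := e.surjective i
    dsimp only
    rw [Equiv.symm_apply_apply]
    rcases j with a | a
    · rfl
    · change e (Sum.inr (e0 ⟨(e0.symm a).1, (e0.symm a).2⟩)) = _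
      rw [Sigma.eta, Equiv.apply_symm_apply]

theorem mem_GB {B : ∀ n, Submodule K ((Fin n → C) → K)} {K0 n : ℕ} {ι : Type} [Fintype ι]
    {κ : ι → ℕ} (e : (Σ s, Fin (κ s)) ≃ Fin n) (b : ∀ s, (Fin (κ s) → C) → K)
    (h : ∀ s, κ s ≤ K0 ∧ b s ∈ B (κ s)) : prodT e b ∈ GB B K0 n := by
  classical
  let f := Fintype.equivFin ι
  refine Submodule.subset_span ⟨Fintype.card ι, fun s => κ (f.symm s),
    (Equiv.sigmaCongrLeft (β := fun s => Fin (κ s)) f.symm).trans e, fun s => b (f.symm s),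
    fun s => h _, ?_⟩
  funext w
  exact (Equiv.prod_comp f.symm fun s => b s fun a => w (e ⟨s, a⟩)).symm

theorem pr_GB {B : ∀ n, Submodule K ((Fin n → C) → K)} {K0 k l n : ℕ}
    (e : Fin k ⊕ Fin l ≃ Fin n) {b : (Fin k → C) → K} (hk : k ≤ K0) (hb : b ∈ B k)
    {r : (Fin l → C) → K} (hr : r ∈ GB B K0 l) : pr e b r ∈ GB B K0 n := by
  refine Submodule.span_induction (p := fun r _ => pr e b r ∈ GB B K0 n) ?_ ?_ ?_ ?_ hr
  · rintro _ ⟨t, κ, e0, b0, h1, rfl⟩
    have h2 : pr e b (prodT e0 b0) = prodT (optE e e0)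
        (fun s : Option (Fin t) => match s with
          | none => b
          | some s => b0 s) := by
      funext w
      rw [pr_apply]
      change _ = ∏ s : Option (Fin t), _
      rw [Fintype.prod_option]
      rfl
    rw [h2]
    refine mem_GB _ _ ?_
    rintro (_ | s)
    · exact ⟨hk, hb⟩
    · exact h1 s
  · rw [map_zero]
    exact Submodule.zero_mem _
  · intro x y _ _ h1 h2
    rw [map_add]
    exact Submodule.add_mem _ h1 h2
  · intro r x _ h1
    rw [map_smul]
    exact Submodule.smul_mem _ _ h1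

/-- **Finite generation.** -/
theorem exists_GB [Fintype C] {B N : ∀ n, Submodule K ((Fin n → C) → K)}
    (hB : ∀ {k l n : ℕ} (e : Fin k ⊕ Fin l ≃ Fin n), ∀ b ∈ B k, ∀ r ∈ B l, pr e b r ∈ B n)
    (hN : ∀ {k l n : ℕ} (e : Fin k ⊕ Fin l ≃ Fin n), ∀ b ∈ B k, ∀ r ∈ N l, pr e b r ∈ N n)
    (h0 : ∀ n, ∀ x ∈ B n, x ∈ N n → x = 0)
    (hsup : ∀ n (x : (Fin n → C) → K), ∃ b ∈ B n, ∃ y ∈ N n, x = b + y) :
    ∃ K0 : ℕ, ∀ n, B n ≤ GB B K0 n := by
  obtain ⟨K0, hK0⟩ := exists_PB hB hN h0 hsup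
  refine ⟨K0, fun n => ?_⟩
  induction n using Nat.strong_induction_on with
  | _ n ih =>
    intro x hx
    rcases Nat.eq_zero_or_pos n with rfl | hn
    · have h1 : x = x (fun i => i.elim0) • prodT (ι := Fin 0) (κ := fun s => s.elim0)
          (Equiv.equivOfIsEmpty _ _) (fun s => s.elim0) := by
        funext w
        rw [Pi.smul_apply, smul_eq_mul]
        change x w = x _ * ∏ s : Fin 0, _
        rw [Finset.univ_eq_empty, Finset.prod_empty, mul_one]
        congr 1
        exact Subsingleton.elim _ _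
      rw [h1]
      exact Submodule.smul_mem _ _ (mem_GB _ _ fun s => s.elim0)
    · refine (Submodule.span_le.2 ?_ : PB B K0 n ≤ GB B K0 n) (hK0 n hn x hx)
      rintro _ ⟨k, l, e, b, r, h1, h2, h3, h4, rfl⟩
      have h := Fintype.card_congr e
      rw [Fintype.card_sum, Fintype.card_fin, Fintype.card_fin, Fintype.card_fin] at h
      exact pr_GB e h2 h3 (ih l (by omega) h4)

end gen

end

end Pool.Agent.K4H35.ST
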