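import Mathlib

/-!
# Graded representations of the symplectic Lie algebra with small pieces

A representation of the symplectic Lie algebra of rank `p ≥ 3`, in which the grading element acts
with integral eigenvalues up to a commuting operator, is trivial if all its pieces of degree
different from zero have dimension less than `p`.
-/

set_option linter.unusedSectionVars false

namespace Pool.Agent.K4H35.ST

open Module

noncomputable section

/-- The graded representation: `A` has degree `2`, `B` has degree `-2` and `G` has degree zero. -/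
structure Act (p : ℕ) (U : Type) [AddCommGroup U] [Module ℂ U] where
  A : (Fin p → ℂ) →ₗ[ℂ] (Fin p → ℂ) →ₗ[ℂ] Module.End ℂ U
  B : (Fin p → ℂ) →ₗ[ℂ] (Fin p → ℂ) →ₗ[ℂ] Module.End ℂ U
  G : (Fin p → ℂ) →ₗ[ℂ] (Fin p → ℂ) →ₗ[ℂ] Module.End ℂ U
  T : Module.End ℂ U
  symA : ∀ x y, A x y = A y x
  symB : ∀ x y, B x y = B y x
  TA : ∀ x y u, T (A x y u) = A x y (T u) + (2 : ℂ) • A x y u
  TB : ∀ x y u, T (B x y u) = B x y (T u) - (2 : ℂ) • B x y u
  TG : ∀ x y u, T (G x y u) = G x y (T u)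
  GA : ∀ x f z t u, G x f (A z t u) = A z t (G x f u) - (z ⬝ᵥ f) • A x t u - (t ⬝ᵥ f) • A z x u
  GB : ∀ x f g h u, G x f (B g h u) = B g h (G x f u) + (x ⬝ᵥ g) • B f h u + (x ⬝ᵥ h) • B g f u
  GG : ∀ x f y g u, G x f (G y g u) = G y g (G x f u) - (y ⬝ᵥ f) • G x g u + (x ⬝ᵥ g) • G y f u
  AB : ∀ x y f g u, A x y (B f g u) = B f g (A x y u) + (x ⬝ᵥ f) • G y g u + (y ⬝ᵥ f) • G x g u +
    (x ⬝ᵥ g) • G y f u + (y ⬝ᵥ g) • G x f u
  span : ∀ u, u ∈ Submodule.span ℂ {y | ∃ k : ℤ, T y = (k : ℂ) • y}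

namespace Act

variable {p : ℕ} {U : Type} [AddCommGroup U] [Module ℂ U] (a : Act p U)

/-- The dual representation. -/
def swap : Act p U where
  A := a.B
  B := a.A
  G := -a.G.flip
  T := -a.T
  symA := a.symB
  symB := a.symA
  TA x y u := by
    simp only [LinearMap.neg_apply, a.TB, map_neg]
    abel
  TB x y u := by
    simp only [LinearMap.neg_apply, a.TA, map_neg]
    abel
  TG x y u := by
    simp only [LinearMap.neg_apply, LinearMap.flip_apply, map_neg, a.TG]
  GA x f z t u := by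
    simp only [LinearMap.neg_apply, LinearMap.flip_apply, map_neg, a.GB, dotProduct_comm z f,
      dotProduct_comm t f]
    abel
  GB x f g h u := by
    simp only [LinearMap.neg_apply, LinearMap.flip_apply, map_neg, a.GA, dotProduct_comm x g,
      dotProduct_comm x h]
    abel
  GG x f y g u := by
    simp only [LinearMap.neg_apply, LinearMap.flip_apply, map_neg, neg_neg, smul_neg,
      dotProduct_comm x g, dotProduct_comm y f]
    rw [a.GG]
    abel
  AB x y f g u := by
    simp only [LinearMap.neg_apply, LinearMap.flip_apply, smul_neg, a.AB, dotProduct_comm x f,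
      dotProduct_comm x g, dotProduct_comm y f, dotProduct_comm y g]
    abel
  span u := by
    refine Submodule.span_mono ?_ (a.span u)
    rintro y ⟨k, hk⟩
    refine ⟨-k, ?_⟩
    rw [LinearMap.neg_apply, hk]
    push_cast
    rw [neg_smul]

/-- The piece of degree `k`. -/
def Uk (k : ℤ) : Submodule ℂ U := Module.End.eigenspace a.T (k : ℂ)

theorem mem_Uk {k : ℤ} {u : U} : u ∈ a.Uk k ↔ a.T u = (k : ℂ) • u := Module.End.mem_eigenspace_iff

theorem A_mem {k : ℤ} {u : U} (hu : u ∈ a.Uk k) (x y : Fin p → ℂ) : a.A x y u ∈ a.Uk (k + 2) := by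
  rw [mem_Uk] at hu ⊢
  rw [a.TA, hu, map_smul, ← add_smul]
  push_cast
  rfl

theorem B_mem {k : ℤ} {u : U} (hu : u ∈ a.Uk k) (x y : Fin p → ℂ) : a.B x y u ∈ a.Uk (k - 2) := by
  rw [mem_Uk] at hu ⊢
  rw [a.TB, hu, map_smul, ← sub_smul]
  push_cast
  rfl

theorem G_mem {k : ℤ} {u : U} (hu : u ∈ a.Uk k) (x y : Fin p → ℂ) : a.G x y u ∈ a.Uk k := by
  rw [mem_Uk] at hu ⊢
  rw [a.TG, hu, map_smul]

/-- A vector with given scalar product with a nonzero vector. -/
theorem exists_dot {f : Fin p → ℂ} (hf : f ≠ 0) : ∃ z : Fin p → ℂ, z ⬝ᵥ f = 1 := by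
  obtain ⟨i, hi⟩ := Function.ne_iff.1 hf
  refine ⟨Pi.single i (f i)⁻¹, ?_⟩
  rw [single_dotProduct]
  exact inv_mul_cancel₀ hi

/-- A nonzero vector orthogonal to two given vectors. -/
theorem exists_perp (hp : 3 ≤ p) (x y : Fin p → ℂ) : ∃ f : Fin p → ℂ, f ≠ 0 ∧ x ⬝ᵥ f = 0 ∧
    y ⬝ᵥ f = 0 := by
  let L : (Fin p → ℂ) →ₗ[ℂ] (Fin 2 → ℂ) :=
    { toFun := fun f => ![x ⬝ᵥ f, y ⬝ᵥ f]
      map_add' := fun f g => by
        funext i
        fin_cases i <;> simp [dotProduct_add]
      map_smul' := fun r f => by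
        funext i
        fin_cases i <;> simp [dotProduct_smul] }
  have h1 : ¬Function.Injective L := by
    intro h
    have h2 := LinearMap.finrank_le_finrank_of_injective h
    rw [finrank_fintype_fun_eq_card, finrank_fintype_fun_eq_card, Fintype.card_fin,
      Fintype.card_fin] at h2
    omega
  rw [injective_iff_map_eq_zero] at h1
  push Not at h1
  obtain ⟨f, hf, hf0⟩ := h1
  exact ⟨f, hf0, congrFun hf 0, congrFun hf 1⟩

/-- The operator of degree zero of a matrix. -/
def Gm (c : Matrix (Fin p) (Fin p) ℂ) : Module.End ℂ U :=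
  ∑ i, ∑ j, c i j • a.G (Pi.single i 1) (Pi.single j 1)

theorem eq_sum_single (y : Fin p → ℂ) : y = ∑ i, y i • (Pi.single i 1 : Fin p → ℂ) := by
  funext j
  rw [Finset.sum_apply, Finset.sum_eq_single j]
  · simp
  · intro i _ hi
    simp [Pi.single_eq_of_ne hi.symm]
  · intro h
    exact absurd (Finset.mem_univ _) h

theorem Gm_bracket (c : Matrix (Fin p) (Fin p) ℂ) (y g : Fin p → ℂ) (u : U) :
    a.Gm c (a.G y g u) = a.G y g (a.Gm c u) - a.G (c.mulVec y) g u +
      a.G y (c.transpose.mulVec g) u := by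
  have h1 : c.mulVec y = ∑ i, ∑ j, (c i j * y j) • (Pi.single i 1 : Fin p → ℂ) := by
    rw [eq_sum_single (c.mulVec y)]
    refine Finset.sum_congr rfl fun i _ => ?_
    rw [← Finset.sum_smul]
    rfl
  have h2 : c.transpose.mulVec g = ∑ i, ∑ j, (c i j * g i) • (Pi.single j 1 : Fin p → ℂ) := by
    rw [eq_sum_single (c.transpose.mulVec g), Finset.sum_comm]
    refine Finset.sum_congr rfl fun j _ => ?_
    rw [← Finset.sum_smul]
    rfl
  rw [h1, h2]
  unfold Gm
  simp only [LinearMap.sum_apply, LinearMap.smul_apply, map_sum, map_smul]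
  rw [← Finset.sum_sub_distrib, ← Finset.sum_add_distrib]
  refine Finset.sum_congr rfl fun i _ => ?_
  rw [← Finset.sum_sub_distrib, ← Finset.sum_add_distrib]
  refine Finset.sum_congr rfl fun j _ => ?_
  rw [a.GG]
  have e1 : y ⬝ᵥ (Pi.single j 1 : Fin p → ℂ) = y j := by rw [dotProduct_single, mul_one]
  have e2 : (Pi.single i 1 : Fin p → ℂ) ⬝ᵥ g = g i := by rw [single_dotProduct, one_mul]
  rw [e1, e2, smul_add, smul_sub, smul_smul, smul_smul]

/-- The bracket with a nilpotent matrix, twice. -/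
theorem Gm_bracket2 (c : Matrix (Fin p) (Fin p) ℂ) {y g : Fin p → ℂ} (h : y ⬝ᵥ g = 0) (u : U) :
    a.G y g (a.Gm c (a.G y g u) - a.G y g (a.Gm c u)) -
      (a.Gm c (a.G y g (a.G y g u)) - a.G y g (a.Gm c (a.G y g u))) =
        (2 * (c.mulVec y ⬝ᵥ g)) • a.G y g u := by
  have h1 : ∀ u, a.Gm c (a.G y g u) - a.G y g (a.Gm c u) =
      a.G y (c.transpose.mulVec g) u - a.G (c.mulVec y) g u := by
    intro u
    rw [a.Gm_bracket]
    abel
  have h3 : y ⬝ᵥ c.transpose.mulVec g = c.mulVec y ⬝ᵥ g := by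
    rw [Matrix.mulVec_transpose, dotProduct_comm, ← Matrix.dotProduct_mulVec, dotProduct_comm]
  rw [h1, h1, map_sub, a.GG y g y (c.transpose.mulVec g), a.GG y g (c.mulVec y) g, h, h3]
  rw [zero_smul, zero_smul, mul_smul, two_smul]
  abel

variable {a}

/-- If one nilpotent matrix acts as zero then all do. -/
theorem G_zero_of (hp : 3 ≤ p) {k : ℤ} {y g : Fin p → ℂ} (hy : y ≠ 0) (hg : g ≠ 0)
    (h : ∀ u ∈ a.Uk k, a.G y g u = 0) {x f : Fin p → ℂ} (hxf : x ⬝ᵥ f = 0) :
    ∀ u ∈ a.Uk k, a.G x f u = 0 := by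
  -- the vectors orthogonal to `g`
  have h1 : ∀ v, v ⬝ᵥ g = 0 → ∀ u ∈ a.Uk k, a.G v g u = 0 := by
    intro v hv u hu
    obtain ⟨ψ, hψ⟩ := exists_dot hy
    have h2 := a.GG v ψ y g u
    rw [h u hu, map_zero, h _ (a.G_mem hu v ψ), hv, zero_smul, add_zero, dotProduct_comm y ψ, hψ,
      one_smul, zero_sub, zero_eq_neg] at h2
    exact h2
  have h2 : ∀ v φ, v ⬝ᵥ g = 0 → v ⬝ᵥ φ = 0 → ∀ u ∈ a.Uk k, a.G v φ u = 0 := by
    intro v φ hv hφ u hu
    obtain ⟨z, hz⟩ := exists_dot hg
    have h3 := a.GG v g z φ u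
    rw [h1 v hv _ (a.G_mem hu z φ), h1 v hv u hu, map_zero, hφ, zero_smul, add_zero, hz, one_smul,
      zero_sub, zero_eq_neg] at h3
    exact h3
  intro u hu
  obtain ⟨v, hv0, hv1, hv2⟩ := exists_perp hp g f
  rw [dotProduct_comm] at hv1 hv2
  obtain ⟨ψ, hψ⟩ := exists_dot hv0
  have h3 := a.GG x ψ v f u
  rw [h2 v f hv1 hv2 u hu, map_zero, h2 v f hv1 hv2 _ (a.G_mem hu x ψ), hxf, zero_smul, add_zero,
    dotProduct_comm v ψ, hψ, one_smul, zero_sub, zero_eq_neg] at h3
  exact h3

/-- A matrix which is not scalar moves some vector out of its line. -/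
theorem exists_moved {c : Matrix (Fin p) (Fin p) ℂ}
    (hc : c ∉ Submodule.span ℂ {(1 : Matrix (Fin p) (Fin p) ℂ)}) :
    ∃ y g : Fin p → ℂ, y ⬝ᵥ g = 0 ∧ c.mulVec y ⬝ᵥ g ≠ 0 := by
  by_contra hcon
  push Not at hcon
  apply hc
  have h1 : ∀ i j, i ≠ j → c i j = 0 := by
    intro i j hij
    have h2 := hcon (Pi.single j 1) (Pi.single i 1) (by
      rw [dotProduct_single, mul_one, Pi.single_eq_of_ne hij])
    rw [dotProduct_single, mul_one, Matrix.mulVec_single_one] at h2
    exact h2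
  have h2 : ∀ i j, c i i = c j j := by
    intro i j
    by_cases hij : i = j
    · rw [hij]
    · have h3 := hcon (Pi.single i 1 + Pi.single j 1) (Pi.single i 1 - Pi.single j 1) (by
        rw [dotProduct_sub, dotProduct_single, dotProduct_single]
        simp [Pi.single_eq_of_ne hij, Pi.single_eq_of_ne (Ne.symm hij)])
      rw [dotProduct_sub, dotProduct_single, dotProduct_single, Matrix.mulVec_add,
        Matrix.mulVec_single_one, Matrix.mulVec_single_one] at h3
      simp only [Pi.add_apply, Matrix.col_apply, mul_one] at h3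
      rw [h1 i j hij, h1 j i (Ne.symm hij)] at h3
      linear_combination h3
  rw [Submodule.mem_span_singleton]
  by_cases hp : Nonempty (Fin p)
  · obtain ⟨i0⟩ := hp
    refine ⟨c i0 i0, ?_⟩
    ext i j
    rw [Matrix.smul_apply, Matrix.one_apply, smul_eq_mul]
    split_ifs with h
    · subst h
      rw [mul_one, h2]
    · rw [mul_zero, h1 i j h]
  · refine ⟨0, ?_⟩
    ext i j
    exact absurd ⟨i⟩ hp

/-- The nilpotent matrices act trivially on small pieces. -/
theorem G_zero [FiniteDimensional ℂ U] (hp : 3 ≤ p) {k : ℤ} (hk : finrank ℂ (a.Uk k) < p)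
    {x f : Fin p → ℂ} (hxf : x ⬝ᵥ f = 0) : ∀ u ∈ a.Uk k, a.G x f u = 0 := by
  let L : Matrix (Fin p) (Fin p) ℂ →ₗ[ℂ] (a.Uk k →ₗ[ℂ] U) :=
    { toFun := fun c => (a.Gm c) ∘ₗ (a.Uk k).subtype
      map_add' := fun c c' => by
        refine LinearMap.ext fun u => ?_
        simp only [Gm, LinearMap.comp_apply, LinearMap.sum_apply, LinearMap.smul_apply,
          LinearMap.add_apply, Matrix.add_apply, add_smul, Finset.sum_add_distrib]
      map_smul' := fun r c => by
        refine LinearMap.ext fun u => ?_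
        simp only [Gm, LinearMap.comp_apply, LinearMap.sum_apply, LinearMap.smul_apply,
          Matrix.smul_apply, smul_eq_mul, mul_smul, Finset.smul_sum, RingHom.id_apply] }
  have hmem : ∀ c, ∀ u ∈ a.Uk k, a.Gm c u ∈ a.Uk k := by
    intro c u hu
    unfold Gm
    simp only [LinearMap.sum_apply, LinearMap.smul_apply]
    exact Submodule.sum_mem _ fun i _ => Submodule.sum_mem _ fun j _ =>
      Submodule.smul_mem _ _ (a.G_mem hu _ _)
  let L' : Matrix (Fin p) (Fin p) ℂ →ₗ[ℂ] (a.Uk k →ₗ[ℂ] a.Uk k) :=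
    { toFun := fun c => (a.Gm c).restrict (hmem c)
      map_add' := fun c c' => by
        refine LinearMap.ext fun u => Subtype.ext ?_
        exact congrArg (fun F : a.Uk k →ₗ[ℂ] U => F u) (L.map_add c c')
      map_smul' := fun r c => by
        refine LinearMap.ext fun u => Subtype.ext ?_
        exact congrArg (fun F : a.Uk k →ₗ[ℂ] U => F u) (L.map_smul r c) }
  have h1 := LinearMap.finrank_range_add_finrank_ker L'
  rw [Module.finrank_matrix, finrank_self, mul_one, Fintype.card_fin] at h1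
  have h2 : finrank ℂ (LinearMap.range L') ≤ finrank ℂ (a.Uk k) * finrank ℂ (a.Uk k) := by
    refine (Submodule.finrank_le _).trans ?_
    rw [Module.finrank_linearMap]
  have h3 : ∃ c ∈ LinearMap.ker L', c ∉ Submodule.span ℂ {(1 : Matrix (Fin p) (Fin p) ℂ)} := by
    by_contra hcon
    push Not at hcon
    have h4 := Submodule.finrank_mono hcon
    have h5 := finrank_span_le_card (R := ℂ) ({(1 : Matrix (Fin p) (Fin p) ℂ)} : Set _)
    simp only [Set.toFinset_singleton, Finset.card_singleton] at h5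
    have h6 : finrank ℂ (a.Uk k) * finrank ℂ (a.Uk k) ≤ (p - 1) * (p - 1) :=
      Nat.mul_le_mul (by omega) (by omega)
    have h7 : p * p = (p - 1) * (p - 1) + 2 * p - 1 := by
      obtain ⟨q, rfl⟩ : ∃ q, p = q + 1 := ⟨p - 1, by omega⟩
      simp only [Nat.add_sub_cancel]
      have : (q + 1) * (q + 1) = q * q + 2 * q + 1 := by ring
      omega
    omega
  obtain ⟨c, hc, hc1⟩ := h3
  have hcu : ∀ u ∈ a.Uk k, a.Gm c u = 0 := by
    intro u hu
    have h4 := congrArg (fun F : a.Uk k →ₗ[ℂ] a.Uk k => ((F ⟨u, hu⟩ : a.Uk k) : U))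
      (LinearMap.mem_ker.1 hc)
    exact h4
  obtain ⟨y, g, hyg, hcy⟩ := exists_moved hc1
  have hy : y ≠ 0 := by
    rintro rfl
    apply hcy
    rw [Matrix.mulVec_zero, zero_dotProduct]
  have hg : g ≠ 0 := by
    rintro rfl
    exact hcy (dotProduct_zero _)
  refine G_zero_of hp hy hg ?_ hxf
  intro u hu
  have h4 := a.Gm_bracket2 c hyg u
  rw [hcu u hu, hcu _ (a.G_mem hu y g), hcu _ (a.G_mem (a.G_mem hu y g) y g)] at h4
  simp only [map_zero, sub_zero] at h4
  exact (smul_eq_zero.1 h4.symm).resolve_left (mul_ne_zero two_ne_zero hcy)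

/-- The operators of degree `2` between small pieces are zero. -/
theorem A_zero_of (hp : 3 ≤ p) {k : ℤ}
    (h1 : ∀ x f : Fin p → ℂ, x ⬝ᵥ f = 0 → ∀ u ∈ a.Uk k, a.G x f u = 0)
    (h2 : ∀ x f : Fin p → ℂ, x ⬝ᵥ f = 0 → ∀ u ∈ a.Uk (k + 2), a.G x f u = 0) (x y : Fin p → ℂ) :
    ∀ u ∈ a.Uk k, a.A x y u = 0 := by
  have h3 : ∀ v, ∀ u ∈ a.Uk k, a.A v v u = 0 := by
    intro v u hu
    obtain ⟨f, hf, hvf, -⟩ := exists_perp hp v v
    obtain ⟨z, hz⟩ := exists_dot hf
    have h4 := a.GA v f z v u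
    rw [h2 v f hvf _ (a.A_mem hu z v), h1 v f hvf u hu, map_zero, hvf, zero_smul, sub_zero, hz,
      one_smul, zero_sub, zero_eq_neg] at h4
    exact h4
  intro u hu
  have h4 := h3 (x + y) u hu
  simp only [map_add, LinearMap.add_apply] at h4
  rw [h3 x u hu, h3 y u hu, zero_add, add_zero, a.symA y x, ← two_smul ℂ] at h4
  exact (smul_eq_zero.1 h4).resolve_left two_ne_zero

/-- The products of the operators of degree `2`. -/
theorem AA_zero (hG1 : ∀ x f : Fin p → ℂ, x ⬝ᵥ f = 0 → ∀ u ∈ a.Uk (-2), a.G x f u = 0)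
    (hG2 : ∀ x f : Fin p → ℂ, x ⬝ᵥ f = 0 → ∀ u ∈ a.Uk 2, a.G x f u = 0)
    {v t z' t' f : Fin p → ℂ} (hf : f ≠ 0) (hv : v ⬝ᵥ f = 0) (ht : t ⬝ᵥ f = 0)
    (hz' : z' ⬝ᵥ f = 0) (ht' : t' ⬝ᵥ f = 0) : ∀ u ∈ a.Uk (-2), a.A v t (a.A z' t' u) = 0 := by
  intro u hu
  obtain ⟨z, hz⟩ := exists_dot hf
  have h1 := a.A_mem (a.A_mem hu z' t') z t
  rw [show (-2 : ℤ) + 2 + 2 = 2 by norm_num] at h1
  have h2 := a.GA v f z t (a.A z' t' u)
  rw [hG2 v f hv _ h1, a.GA v f z' t' u, hG1 v f hv u hu, map_zero, hz', ht', ht, hz, zero_smul,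
    zero_smul, zero_smul, sub_zero, sub_zero, sub_zero, map_zero, one_smul, zero_sub,
    zero_eq_neg] at h2
  exact h2

/-- The representations of the Lie algebra of rank one. -/
theorem sl2 {X Y H : Module.End ℂ U} (hXY : ∀ u, X (Y u) = Y (X u) + H u)
    (hHX : ∀ u, H (X u) = X (H u) + (2 : ℂ) • X u) (hHY : ∀ u, H (Y u) = Y (H u) - (2 : ℂ) • Y u)
    {u : U} (hYu : Y u = 0) (hXXu : X (X u) = 0) :
    X (H u + u) = 0 ∧ H (H u + u) = 0 := by
  have h1 : Y (X u) = -H u := by
    have h2 := hXY u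
    rw [hYu, map_zero] at h2
    exact eq_neg_of_add_eq_zero_left h2.symm
  have h2 : X (H u + u) = 0 := by
    have h3 := hXY (X u)
    rw [hXXu, map_zero, zero_add, h1, map_neg, hHX] at h3
    have h4 : (2 : ℂ) • X (H u + u) = 0 := by
      rw [map_add, smul_add, two_smul, two_smul]
      rw [two_smul] at h3
      have h5 : -(X (H u)) - (X (H u) + (X u + X u)) = 0 := sub_eq_zero.2 h3
      have h6 : X (H u) + X (H u) + (X u + X u) = -(-(X (H u)) - (X (H u) + (X u + X u))) := by
        abel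
      rw [h6, h5, neg_zero]
    exact (smul_eq_zero.1 h4).resolve_left two_ne_zero
  refine ⟨h2, ?_⟩
  have h3 : Y (H u + u) = 0 := by
    have h4 := hHY u
    rw [hYu, map_zero, smul_zero, sub_zero] at h4
    rw [map_add, ← h4, hYu, add_zero]
  have h4 := hXY (H u + u)
  rw [h3, map_zero, h2, map_zero, zero_add] at h4
  exact h4.symm

/-- The operators of degree `2` are zero on the piece of degree `-2`. -/
theorem A_zero_two (hp : 3 ≤ p)
    (hG1 : ∀ x f : Fin p → ℂ, x ⬝ᵥ f = 0 → ∀ u ∈ a.Uk (-2), a.G x f u = 0)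
    (hG2 : ∀ x f : Fin p → ℂ, x ⬝ᵥ f = 0 → ∀ u ∈ a.Uk 2, a.G x f u = 0)
    (hB : ∀ x y, ∀ u ∈ a.Uk (-2), a.B x y u = 0) (x y : Fin p → ℂ) :
    ∀ u ∈ a.Uk (-2), a.A x y u = 0 := by
  have key : ∀ i j : Fin p, i ≠ j → ∀ u ∈ a.Uk (-2), a.A (Pi.single i 1) (Pi.single i 1) u = 0 ∧
      a.A (Pi.single i 1) (Pi.single j 1) u = 0 := by
    intro i j hij u hu
    obtain ⟨ei, hei⟩ : ∃ e : Fin p → ℂ, e = Pi.single i 1 := ⟨_, rfl⟩
    obtain ⟨ej, hej⟩ : ∃ e : Fin p → ℂ, e = Pi.single j 1 := ⟨_, rfl⟩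
    have d1 : ei ⬝ᵥ ei = 1 := by rw [hei, dotProduct_single, mul_one, Pi.single_eq_same]
    have d2 : ej ⬝ᵥ ej = 1 := by rw [hej, dotProduct_single, mul_one, Pi.single_eq_same]
    have d3 : ei ⬝ᵥ ej = 0 := by
      rw [hei, hej, dotProduct_single, mul_one, Pi.single_eq_of_ne hij.symm]
    have d4 : ej ⬝ᵥ ei = 0 := by rw [dotProduct_comm, d3]
    rw [← hei, ← hej]
    have hGe : ∀ u ∈ a.Uk (-2), a.G ej ej u = a.G ei ei u := by
      intro u hu
      have h1 := hG1 (ei - ej) (ei + ej) (by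
        rw [sub_dotProduct, dotProduct_add, dotProduct_add, d1, d2, d3, d4]
        ring) u hu
      simp only [map_sub, map_add, LinearMap.sub_apply, LinearMap.add_apply] at h1
      rw [hG1 ei ej d3 u hu, hG1 ej ei d4 u hu, sub_zero, zero_sub, ← sub_eq_add_neg] at h1
      exact (sub_eq_zero.1 h1).symm
    obtain ⟨f, hf, hf1, hf2⟩ := exists_perp hp ei ej
    -- the long roots
    have s1 := sl2 (X := (1 / 2 : ℂ) • a.A ei ei) (Y := -(1 / 2 : ℂ) • a.B ei ei)
      (H := -a.G ei ei) (u := u) (by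
        intro u
        simp only [LinearMap.smul_apply, LinearMap.neg_apply, map_smul, a.AB, d1, one_smul]
        module) (by
        intro u
        simp only [LinearMap.smul_apply, LinearMap.neg_apply, map_smul, map_neg, a.GA, d1,
          one_smul]
        module) (by
        intro u
        simp only [LinearMap.smul_apply, LinearMap.neg_apply, map_smul, map_neg, a.GB, d1,
          one_smul]
        module) (by
        simp only [LinearMap.smul_apply, hB ei ei u hu, smul_zero]) (by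
        simp only [LinearMap.smul_apply, map_smul]
        rw [AA_zero hG1 hG2 hf hf1 hf1 hf1 hf1 u hu, smul_zero, smul_zero])
    -- the short roots
    have s2 := sl2 (X := a.A ei ej) (Y := -a.B ei ej)
      (H := -a.G ei ei - a.G ej ej) (u := u) (by
        intro u
        simp only [LinearMap.neg_apply, LinearMap.sub_apply, map_neg, a.AB, d1, d2, d3, d4,
          one_smul, zero_smul]
        module) (by
        intro u
        simp only [LinearMap.neg_apply, LinearMap.sub_apply, map_neg, map_sub, a.GA, d1, d2, d3,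
          d4, one_smul, zero_smul]
        module) (by
        intro u
        simp only [LinearMap.neg_apply, LinearMap.sub_apply, map_neg, map_sub, a.GB, d1, d2, d3,
          d4, one_smul, zero_smul]
        module) (by
        simp only [LinearMap.neg_apply, hB ei ej u hu, neg_zero]) (
        AA_zero hG1 hG2 hf hf1 hf2 hf1 hf2 u hu)
    obtain ⟨s3, s4⟩ := s1
    obtain ⟨s5, s6⟩ := s2
    have hΘ : a.G ei ei u = 0 := by
      simp only [LinearMap.neg_apply, LinearMap.sub_apply, map_add, map_neg, map_sub, neg_neg,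
        hGe u hu, hGe _ (a.G_mem hu ei ei)] at s4 s6
      have e1 : (2 : ℂ) • a.G ei ei u = (-a.G ei ei u - a.G ei ei u -
          (-a.G ei ei (a.G ei ei u) - a.G ei ei (a.G ei ei u) -
            (a.G ei ei (a.G ei ei u) + a.G ei ei (a.G ei ei u)))) - (4 : ℂ) •
              (a.G ei ei (a.G ei ei u) + -a.G ei ei u) := by
        module
      have e2 : (-a.G ei ei u - a.G ei ei u -
          (-a.G ei ei (a.G ei ei u) - a.G ei ei (a.G ei ei u) -
            (a.G ei ei (a.G ei ei u) + a.G ei ei (a.G ei ei u)))) = 0 := by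
        rw [← s6]
        module
      rw [e2, s4, smul_zero, sub_zero] at e1
      exact (smul_eq_zero.1 e1).resolve_left two_ne_zero
    constructor
    · rw [LinearMap.neg_apply, hΘ, neg_zero, zero_add, LinearMap.smul_apply] at s3
      exact (smul_eq_zero.1 s3).resolve_left (by norm_num)
    · rw [LinearMap.sub_apply, LinearMap.neg_apply, hGe u hu, hΘ, neg_zero, sub_zero, zero_add]
        at s5
      exact s5
  intro u hu
  have h1 : ∀ i j : Fin p, a.A (Pi.single i 1) (Pi.single j 1) u = 0 := by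
    intro i j
    by_cases hij : i = j
    · subst hij
      obtain ⟨j, hj⟩ : ∃ j : Fin p, i ≠ j := by
        by_contra hcon
        push Not at hcon
        have h2 : Fintype.card (Fin p) ≤ 1 := Fintype.card_le_one_iff.2 fun x y => by
          rw [← hcon x, ← hcon y]
        rw [Fintype.card_fin] at h2
        omega
      exact (key i j hj u hu).1
    · exact (key i j hij u hu).2
  rw [eq_sum_single x, eq_sum_single y]
  simp only [map_sum, LinearMap.sum_apply, map_smul, LinearMap.smul_apply, h1, smul_zero,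
    Finset.sum_const_zero]

/-- The operators of degree `2` are zero on the pieces of degree different from zero. -/
theorem A_zero_ne [FiniteDimensional ℂ U] (hp : 3 ≤ p)
    (hk : ∀ k : ℤ, k ≠ 0 → finrank ℂ (a.Uk k) < p) {k : ℤ} (hk0 : k ≠ 0) (x y : Fin p → ℂ) :
    ∀ u ∈ a.Uk k, a.A x y u = 0 := by
  by_cases hk2 : k = -2
  · subst hk2
    refine A_zero_two hp (fun x f hxf => G_zero hp (hk _ (by norm_num)) hxf)
      (fun x f hxf => G_zero hp (hk _ (by norm_num)) hxf) (fun x y u hu => ?_) x y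
    -- the operators of degree `-2`
    have hsw : ∀ k : ℤ, a.swap.Uk k = a.Uk (-k) := by
      intro k
      ext u
      rw [mem_Uk, mem_Uk]
      change -a.T u = (k : ℂ) • u ↔ _
      push_cast
      rw [neg_smul, neg_eq_iff_eq_neg]
    have h1 : ∀ k : ℤ, k ≠ 0 → ∀ x f : Fin p → ℂ, x ⬝ᵥ f = 0 → ∀ u ∈ a.swap.Uk k,
        a.swap.G x f u = 0 := by
      intro k hk0 x f hxf
      refine G_zero hp ?_ hxf
      rw [hsw]
      exact hk _ (by omega)
    exact A_zero_of (a := a.swap) hp (h1 2 (by norm_num)) (h1 (2 + 2) (by norm_num)) x y u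
      (by rw [hsw]; exact hu)
  · exact A_zero_of hp (fun x f hxf => G_zero hp (hk _ hk0) hxf)
      (fun x f hxf => G_zero hp (hk _ (by omega)) hxf) x y

/-- **The operators of degree `2` are zero** if the pieces are small. -/
theorem A_eq_zero [FiniteDimensional ℂ U] (hp : 3 ≤ p)
    (hk : ∀ k : ℤ, k ≠ 0 → finrank ℂ (a.Uk k) < p) (x y : Fin p → ℂ) : a.A x y = 0 := by
  have hsw : ∀ k : ℤ, a.swap.Uk k = a.Uk (-k) := by
    intro k
    ext u
    rw [mem_Uk, mem_Uk]
    change -a.T u = (k : ℂ) • u ↔ _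
    push_cast
    rw [neg_smul, neg_eq_iff_eq_neg]
  have hA : ∀ k : ℤ, k ≠ 0 → ∀ x y, ∀ u ∈ a.Uk k, a.A x y u = 0 :=
    fun k hk0 x y => A_zero_ne hp hk hk0 x y
  have hB : ∀ k : ℤ, k ≠ 0 → ∀ x y, ∀ u ∈ a.Uk k, a.B x y u = 0 := by
    intro k hk0 x y u hu
    refine A_zero_ne (a := a.swap) hp (fun k hk0 => ?_) (k := -k) (by omega) x y u ?_
    · rw [hsw]
      exact hk _ (by omega)
    · rw [hsw, neg_neg]
      exact hu
  have h1 : ∀ x y f g u, a.A x y (a.B f g u) = a.B f g (a.A x y u) := by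
    intro x y f g u
    have h2 := a.span u
    induction h2 using Submodule.span_induction with
    | mem u hu =>
      obtain ⟨k, hk'⟩ := hu
      have hu : u ∈ a.Uk k := a.mem_Uk.2 hk'
      by_cases hk0 : k = 0
      · subst hk0
        rw [hA (0 - 2) (by norm_num) x y _ (a.B_mem hu f g),
          hB (0 + 2) (by norm_num) f g _ (a.A_mem hu x y)]
      · rw [hA k hk0 x y u hu, hB k hk0 f g u hu, map_zero, map_zero]
    | zero => simp
    | add u u' _ _ h h' => simp only [map_add, h, h']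
    | smul r u _ h => simp only [map_smul, h]
  have h2 : ∀ i : Fin p, ∀ u, a.G (Pi.single i 1) (Pi.single i 1) u = 0 := by
    intro i u
    have h3 := a.AB (Pi.single i 1) (Pi.single i 1) (Pi.single i 1) (Pi.single i 1) u
    have d1 : (Pi.single i 1 : Fin p → ℂ) ⬝ᵥ Pi.single i 1 = 1 := by
      rw [dotProduct_single, mul_one, Pi.single_eq_same]
    rw [h1, d1, one_smul] at h3
    have h4 : (4 : ℂ) • a.G (Pi.single i 1) (Pi.single i 1) u = 0 := by
      have h5 := sub_eq_zero.2 h3.symm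
      rw [← h5]
      module
    exact (smul_eq_zero.1 h4).resolve_left (by norm_num)
  have h3 : ∀ i : Fin p, ∀ t, a.A (Pi.single i 1) t = 0 := by
    intro i t
    have d1 : (Pi.single i 1 : Fin p → ℂ) ⬝ᵥ Pi.single i 1 = 1 := by
      rw [dotProduct_single, mul_one, Pi.single_eq_same]
    have h4 : ∀ u, a.A (Pi.single i 1) (Pi.single i 1) u = 0 := by
      intro u
      have h5 := a.GA (Pi.single i 1) (Pi.single i 1) (Pi.single i 1) (Pi.single i 1) u
      rw [h2, h2, map_zero, d1, one_smul] at h5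
      have h6 : (2 : ℂ) • a.A (Pi.single i 1) (Pi.single i 1) u = 0 := by
        have h7 := sub_eq_zero.2 h5
        rw [← h7]
        module
      exact (smul_eq_zero.1 h6).resolve_left two_ne_zero
    refine LinearMap.ext fun u => ?_
    have h5 := a.GA (Pi.single i 1) (Pi.single i 1) (Pi.single i 1) t u
    rw [h2, h2, map_zero, d1, one_smul, h4, smul_zero, sub_zero, zero_sub, zero_eq_neg] at h5
    exact h5
  rw [eq_sum_single x]
  simp only [map_sum, LinearMap.sum_apply, map_smul, LinearMap.smul_apply]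
  exact Finset.sum_eq_zero fun i _ => by rw [h3, smul_zero]

end Act

end

end Pool.Agent.K4H35.ST
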