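import Mathlib
import Pool.Agent.TH131.GHC.Rel6

/-!
# Hodge tensors with values in a Hodge structure of bounded level
-/

set_option linter.unusedSectionVars false

namespace Pool.Agent.K4H35.ST

open Matrix Equiv Pool.Agent.H204R3.SP Pool.Agent.W437.HC Pool.Agent.W437.HD Pool.Agent.W437.HP
  Pool.Agent.TH131.GHC

noncomputable section

section types

variable {B : Type*} [Fintype B] [DecidableEq B] {κ : Type*} [Fintype κ] [DecidableEq κ]
  {K : Type*} [Field K] (u : B → Bool)

/-- The part of a form on the tuples of indices with given classes. -/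
def rs (ε : κ → Bool) : ((κ → B) → K) →ₗ[K] ((κ → B) → K) where
  toFun c := fun I => if (fun k => u (I k)) = ε then c I else 0
  map_add' c d := by
    funext I
    simp only [Pi.add_apply]
    split_ifs
    · rfl
    · rw [add_zero]
  map_smul' r c := by
    funext I
    simp only [Pi.smul_apply, smul_eq_mul, RingHom.id_apply]
    split_ifs
    · rfl
    · rw [mul_zero]

theorem rs_apply (ε : κ → Bool) (c : (κ → B) → K) (I : κ → B) :
    rs u ε c I = if (fun k => u (I k)) = ε then c I else 0 := rfl

theorem rs_act {X : Matrix B B K} (hX : ∀ a b, u a ≠ u b → X a b = 0) (ε : κ → Bool)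
    (c : (κ → B) → K) : act X (rs u ε c) = rs u ε (act X c) := by
  funext I
  rw [rs_apply]
  simp only [act]
  have h : ∀ k j, X j (I k) * rs u ε c (Function.update I k j) =
      if (fun k => u (I k)) = ε then X j (I k) * c (Function.update I k j) else 0 := by
    intro k j
    rw [rs_apply]
    by_cases hj : u j = u (I k)
    · have h2 : (fun l => u (Function.update I k j l)) = fun l => u (I l) := by
        funext l
        by_cases hl : l = k
        · subst hl
          rw [Function.update_self, hj]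
        · rw [Function.update_of_ne hl]
      rw [h2]
      split_ifs
      · rfl
      · rw [mul_zero]
    · rw [hX _ _ hj, zero_mul, zero_mul, ite_self]
  simp only [h]
  split_ifs
  · rfl
  · simp

theorem sum_rs (c : (κ → B) → K) : ∑ ε : κ → Bool, rs u ε c = c := by
  funext I
  rw [Finset.sum_apply, Finset.sum_eq_single (fun k => u (I k))]
  · rw [rs_apply, if_pos rfl]
  · intro ε _ hε
    rw [rs_apply, if_neg (Ne.symm hε)]
  · intro h
    exact absurd (Finset.mem_univ _) h

theorem rs_idem (ε : κ → Bool) (c : (κ → B) → K) : rs u ε (rs u ε c) = rs u ε c := by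
  funext I
  rw [rs_apply]
  split_ifs with h
  · rfl
  · rw [rs_apply, if_neg h]

theorem rs_cst (ε : κ → Bool) (c : (κ → B) → ℚ) : rs u ε (cst ℂ c) = cst ℂ (rs u ε c) := by
  funext I
  rw [rs_apply]
  simp only [cst]
  rw [rs_apply]
  split_ifs
  · rfl
  · rw [Rat.cast_zero]

/-- The part of a vector on the indices of a class. -/
def px (b : Bool) (x : B → K) : B → K := fun i => if u i = b then x i else 0

theorem evalF_px {ε : κ → Bool} {c : (κ → B) → K} (hc : rs u ε c = c) (x : κ → B → K) :
    evalF c (fun k => px u (ε k) (x k)) = evalF c x := by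
  unfold evalF
  refine Finset.sum_congr rfl fun I _ => ?_
  by_cases hI : (fun k => u (I k)) = ε
  · congr 1
    refine Finset.prod_congr rfl fun k _ => ?_
    change (if u (I k) = ε k then x k (I k) else 0) = x k (I k)
    rw [if_pos (congrFun hI k)]
  · have h0 : c I = 0 := by
      rw [← hc, rs_apply, if_neg hI]
    rw [h0, zero_mul, zero_mul]

theorem mulVec_px {X : Matrix B B K} (hX : ∀ a b, u a ≠ u b → X a b = 0) (b : Bool)
    (x : B → K) : X *ᵥ px u b x = px u b (X *ᵥ x) := by
  funext i
  unfold px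
  simp only [mulVec, dotProduct]
  by_cases hi : u i = b
  · rw [if_pos hi]
    refine Finset.sum_congr rfl fun j _ => ?_
    by_cases hj : u j = b
    · rw [if_pos hj]
    · rw [if_neg hj, hX i j (by rw [hi]; exact Ne.symm hj), zero_mul, zero_mul]
  · rw [if_neg hi]
    refine Finset.sum_eq_zero fun j _ => ?_
    by_cases hj : u j = b
    · rw [hX i j (by rw [hj]; exact hi), zero_mul]
    · rw [if_neg hj, mul_zero]

/-- The operator on the indices of the first class. -/
def DU (D : Matrix B B K) : Matrix B B K := Matrix.of fun a b => if u b = true then D a b else 0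

theorem DU_px_true {D : Matrix B B K} (x : B → K) : DU u D *ᵥ px u true x = D *ᵥ px u true x := by
  funext i
  simp only [mulVec, dotProduct, DU, Matrix.of_apply, px]
  refine Finset.sum_congr rfl fun j _ => ?_
  split_ifs
  · rfl
  · rw [mul_zero, mul_zero]

theorem DU_px_false {D : Matrix B B K} (x : B → K) : DU u D *ᵥ px u false x = 0 := by
  funext i
  simp only [mulVec, dotProduct, DU, Matrix.of_apply, px, Pi.zero_apply]
  refine Finset.sum_eq_zero fun j _ => ?_
  by_cases hj : u j = true
  · have hj' : ¬u j = false := by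
      rw [hj]
      decide
    rw [if_neg hj', mul_zero]
  · rw [if_neg hj, zero_mul]

end types

section bound

variable {B : Type*} [Fintype B] [DecidableEq B] {κ : Type*} [Fintype κ] [DecidableEq κ]
  {D : Matrix B B ℂ} (u : B → Bool)

/-- The eigenvalues on the forms killed by the operator of the first class. -/
theorem eig_bound (hD : D * D = 1) (hDu : ∀ a b, u a ≠ u b → D a b = 0) {b : ℤ}
    {z : (κ → B) → ℂ} (hz : act D z = (b : ℂ) • z) {ε : κ → Bool} (hε : rs u ε z = z)
    (hU : act (DU u D) z = 0) (hz0 : z ≠ 0) :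
    |b| ≤ ((Finset.univ.filter fun k => ε k = false).card : ℤ) := by
  by_contra hcon
  apply hz0
  refine eq_of_eig hD fun x s hs hx => ?_
  rw [evalF_zero]
  by_contra h0
  apply hcon
  rw [← evalF_px u hε x] at h0
  obtain ⟨y, hy⟩ : ∃ y : κ → B → ℂ, y = fun k => px u (ε k) (x k) := ⟨_, rfl⟩
  rw [← hy] at h0
  have hDy : ∀ k, D *ᵥ y k = (s k : ℂ) • y k := by
    intro k
    rw [hy]
    change D *ᵥ px u (ε k) (x k) = (s k : ℂ) • px u (ε k) (x k)
    rw [mulVec_px u hDu, hx]
    funext i
    simp only [px, Pi.smul_apply, smul_eq_mul]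
    split_ifs
    · rfl
    · rw [mul_zero]
  have h1 : b = ∑ k, s k := evalF_eig (mem_eigF.2 hz) y s hDy h0
  have h2 : ∑ k, (if ε k = true then s k else 0) = 0 := by
    have h3 : evalF (act (DU u D) z) y = 0 := by rw [hU, evalF_zero]
    rw [evalF_act] at h3
    have h4 : ∀ k, evalF z (Function.update y k (DU u D *ᵥ y k)) =
        ((if ε k = true then s k else 0 : ℤ) : ℂ) * evalF z y := by
      intro k
      have h5 : DU u D *ᵥ y k = ((if ε k = true then s k else 0 : ℤ) : ℂ) • y k := by
        rcases hb : ε k with _ | _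
        · have h6 : y k = px u false (x k) := by rw [hy]; simp only [hb]
          rw [h6, DU_px_false]
          simp
        · have h6 : y k = px u true (x k) := by rw [hy]; simp only [hb]
          have h7 : DU u D *ᵥ y k = D *ᵥ y k := by rw [h6, DU_px_true]
          rw [h7, hDy, if_pos rfl]
      rw [h5, evalF_update_smul, Function.update_eq_self]
    rw [Finset.sum_congr rfl (fun k _ => h4 k), ← Finset.sum_mul] at h3
    have h5 := (mul_eq_zero.1 h3).resolve_right h0
    exact_mod_cast h5
  have h3 : ∑ k, s k = ∑ k, (if ε k = true then s k else 0) +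
      ∑ k ∈ Finset.univ.filter (fun k => ε k = false), s k := by
    rw [Finset.sum_filter, ← Finset.sum_add_distrib]
    refine Finset.sum_congr rfl fun k _ => ?_
    rcases ε k with _ | _ <;> simp
  rw [h1, h3, h2, zero_add]
  refine (Finset.abs_sum_le_sum_abs _ _).trans ?_
  have h4 : ∀ k ∈ Finset.univ.filter (fun k => ε k = false), |s k| ≤ 1 := by
    intro k _
    rcases hs k with h | h <;> rw [h] <;> simp
  refine (Finset.sum_le_sum h4).trans ?_
  simp

end bound

section hodge

variable {B : Type*} [Fintype B] [DecidableEq B] {C : Type*} [Fintype C] [DecidableEq C]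

/-- The Hodge tensors with values: the rational tensors killed by the sum of the Hodge
operators. -/
def HT (D : Matrix B B ℂ) (D' : Matrix C C ℂ) (κ : Type*) [Fintype κ] [DecidableEq κ] :
    Submodule ℚ ((κ → B) × C → ℚ) where
  carrier := {t | opD κ C D (cstX t) + opW κ B D' (cstX t) = 0}
  zero_mem' := by
    change opD κ C D (cstX 0) + opW κ B D' (cstX 0) = 0
    rw [cstX_zero, map_zero, map_zero, add_zero]
  add_mem' := by
    intro x y hx hy
    change opD κ C D (cstX (x + y)) + opW κ B D' (cstX (x + y)) = 0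
    rw [cstX_add, map_add, map_add, add_add_add_comm,
      show opD κ C D (cstX x) + opW κ B D' (cstX x) = 0 from hx,
      show opD κ C D (cstX y) + opW κ B D' (cstX y) = 0 from hy, add_zero]
  smul_mem' := by
    intro r x hx
    change opD κ C D (cstX (r • x)) + opW κ B D' (cstX (r • x)) = 0
    rw [cstX_smul, map_smul, map_smul, ← smul_add,
      show opD κ C D (cstX x) + opW κ B D' (cstX x) = 0 from hx, smul_zero]

variable {D : Matrix B B ℂ} {D' : Matrix C C ℂ} {κ : Type*} [Fintype κ] [DecidableEq κ]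
  {κ' : Type*} [Fintype κ'] [DecidableEq κ']

theorem mem_HT {t : (κ → B) × C → ℚ} :
    t ∈ HT D D' κ ↔ opD κ C D (cstX t) + opW κ B D' (cstX t) = 0 := Iff.rfl

theorem HT_map {f : ((κ → B) → ℚ) →ₗ[ℚ] ((κ' → B) → ℚ)} (hf : IsHM D f)
    {t : (κ → B) × C → ℚ} (ht : t ∈ HT D D' κ) : fW C f t ∈ HT D D' κ' := by
  obtain ⟨fC, h1, h2⟩ := hf
  rw [mem_HT, ← fW_cstX h1]
  have h5 : opD κ' C D (fW C fC (cstX t)) = fW C fC (opD κ C D (cstX t)) := by
    refine ext_sl fun c => ?_
    rw [sl_opD, sl_fW, sl_fW, sl_opD, h2]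
  rw [h5, ← fW_opW, ← map_add, mem_HT.1 ht, map_zero]

/-- The projections to the eigenspaces of the Hodge operator of the values. -/
theorem exists_projs {ℓ : ℕ}
    (hdec : ∀ x : C → ℂ, x ∈ Submodule.span ℂ {y | ∃ k : ℤ, D' *ᵥ y = (k : ℂ) • y})
    (hlev : ∀ (n : ℤ) (y : C → ℂ), y ≠ 0 → D' *ᵥ y = (n : ℂ) • y → |n| ≤ ℓ) :
    ∃ P : ℤ → Matrix C C ℂ, (∀ b, P b * D' = (b : ℂ) • P b) ∧
      ∑ b ∈ Finset.Icc (-(ℓ : ℤ)) ℓ, P b = 1 := by
  choose P hP hP' using exists_projE (D' := D') hdec
  have hext : ∀ M N : Matrix C C ℂ, (∀ (k : ℤ) y, D' *ᵥ y = (k : ℂ) • y → M *ᵥ y = N *ᵥ y) →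
      M = N := by
    intro M N h
    have h1 : ∀ x, M *ᵥ x = N *ᵥ x := by
      intro x
      have h2 := hdec x
      induction h2 using Submodule.span_induction with
      | mem y hy =>
        obtain ⟨k, hk⟩ := hy
        exact h k y hk
      | zero => rw [mulVec_zero, mulVec_zero]
      | add x y _ _ hx hy => rw [mulVec_add, mulVec_add, hx, hy]
      | smul r x _ hx => rw [mulVec_smul, mulVec_smul, hx]
    ext i j
    have h3 := congrFun (h1 (Pi.single j 1)) i
    rw [mulVec_single_one, mulVec_single_one] at h3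
    exact h3
  refine ⟨P, fun b => hext _ _ fun k y hy => ?_, hext _ _ fun k y hy => ?_⟩
  · rw [← mulVec_mulVec, hy, mulVec_smul, smul_mulVec, hP b k y hy]
    by_cases h : k = b
    · rw [h]
    · rw [if_neg h, smul_zero, smul_zero]
  · rw [sum_mulVec, one_mulVec]
    by_cases hy0 : y = 0
    · rw [hy0]
      simp
    · have h1 := hlev k y hy0 hy
      rw [Finset.sum_congr rfl (fun b _ => hP b k y hy), Finset.sum_ite_eq, if_pos]
      rw [Finset.mem_Icc]
      exact abs_le.1 h1

theorem opW_mul (M N : Matrix C C ℂ) (z : (κ → B) × C → ℂ) :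
    opW κ B (M * N) z = opW κ B M (opW κ B N z) := by
  funext p
  simp only [opW_apply, Matrix.mul_apply, Finset.sum_mul, Finset.mul_sum]
  rw [Finset.sum_comm]
  exact Finset.sum_congr rfl fun c _ => Finset.sum_congr rfl fun c' _ => mul_assoc _ _ _

theorem opW_smul (r : ℂ) (M : Matrix C C ℂ) (z : (κ → B) × C → ℂ) :
    opW κ B (r • M) z = r • opW κ B M z := by
  funext p
  simp only [opW_apply, Matrix.smul_apply, Pi.smul_apply, smul_eq_mul, Finset.mul_sum, mul_assoc]

theorem opW_one (z : (κ → B) × C → ℂ) : opW κ B (1 : Matrix C C ℂ) z = z := by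
  funext p
  rw [opW_apply, Finset.sum_eq_single p.2]
  · rw [Matrix.one_apply_eq, one_mul]
  · intro c _ hc
    rw [Matrix.one_apply_ne (Ne.symm hc), zero_mul]
  · intro h
    exact absurd (Finset.mem_univ _) h

theorem opW_sum {ι : Type*} (s : Finset ι) (M : ι → Matrix C C ℂ) (z : (κ → B) × C → ℂ) :
    opW κ B (∑ i ∈ s, M i) z = ∑ i ∈ s, opW κ B (M i) z := by
  funext p
  rw [opW_apply, Finset.sum_apply]
  simp only [opW_apply, Matrix.sum_apply, Finset.sum_mul]
  rw [Finset.sum_comm]

/-- The span of the components. -/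
def slS (t : (κ → B) × C → ℚ) : Submodule ℚ ((κ → B) → ℚ) :=
  Submodule.span ℚ (Set.range fun c => sl c t)

theorem sl_mem_cx (t : (κ → B) × C → ℚ) (M : Matrix C C ℂ) (c : C) :
    sl c (opW κ B M (cstX t)) ∈ cx (slS t) := by
  rw [sl_opW]
  refine Submodule.sum_mem _ fun c' _ => Submodule.smul_mem _ _ ?_
  exact cst_mem_cx (V := slS t) (c := sl c' t) (Submodule.subset_span ⟨c', rfl⟩)

/-- The components of a Hodge tensor span a Hodge structure of small level. -/
theorem HL_slS {ℓ : ℕ}
    (hdec : ∀ x : C → ℂ, x ∈ Submodule.span ℂ {y | ∃ k : ℤ, D' *ᵥ y = (k : ℂ) • y})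
    (hlev : ∀ (n : ℤ) (y : C → ℂ), y ≠ 0 → D' *ᵥ y = (n : ℂ) • y → |n| ≤ ℓ)
    {t : (κ → B) × C → ℚ} (ht : t ∈ HT D D' κ) {L : ℤ}
    (hL : ∀ (b : ℤ) (z : (κ → B) → ℂ), z ∈ cx (slS t) → act D z = (b : ℂ) • z → |b| ≤ ℓ →
      z ≠ 0 → |b| ≤ L) : HL D L (slS t) := by
  obtain ⟨P, hP1, hP2⟩ := exists_projs hdec hlev
  intro c hc
  unfold slS at hc
  induction hc using Submodule.span_induction with
  | zero =>
    rw [cst_zero]
    exact Submodule.zero_mem _
  | add x y _ _ hx hy =>
    rw [cst_add]
    exact Submodule.add_mem _ hx hy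
  | smul r x _ hx =>
    have h1 : cst ℂ (r • x) = (r : ℂ) • cst ℂ x := by
      funext I
      simp [cst]
    rw [h1]
    exact Submodule.smul_mem _ _ hx
  | mem x hx =>
    obtain ⟨c, rfl⟩ := hx
    have h1 : cst ℂ (sl c t) = ∑ b ∈ Finset.Icc (-(ℓ : ℤ)) ℓ, sl c (opW κ B (P b) (cstX t)) := by
      rw [← map_sum, ← opW_sum, hP2, opW_one]
      rfl
    change cst ℂ (sl c t) ∈ _
    rw [h1]
    refine Submodule.sum_mem _ fun b hb => ?_
    have h2 : act D (sl c (opW κ B (P b) (cstX t))) =
        ((-b : ℤ) : ℂ) • sl c (opW κ B (P b) (cstX t)) := by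
      rw [← sl_opD, op_comm]
      have h3 : opD κ C D (cstX t) = -opW κ B D' (cstX t) := eq_neg_of_add_eq_zero_left ht
      rw [h3, map_neg, ← opW_mul, hP1, opW_smul, map_neg, map_smul]
      push_cast
      rw [neg_smul]
    by_cases h0 : sl c (opW κ B (P b) (cstX t)) = 0
    · rw [h0]
      exact Submodule.zero_mem _
    · have h4 := hL (-b) _ (sl_mem_cx t (P b) c) h2 (by
        rw [abs_neg]
        exact abs_le.2 (Finset.mem_Icc.1 hb)) h0
      exact Submodule.mem_iSup_of_mem (⟨-b, h4⟩ : {a : ℤ // |a| ≤ L})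
        ⟨sl_mem_cx t (P b) c, mem_eigF.2 h2⟩

end hodge

section main

variable {B : Type*} [Fintype B] [DecidableEq B] {C : Type*} [Fintype C] [DecidableEq C]

/-- The span of the products of `j` invariant bilinear forms with a Hodge tensor in at most `ℓ`
variables which is zero on the indices in the first class. -/
def HJ (D : Matrix B B ℂ) (D' : Matrix C C ℂ) (u : B → Bool) (ℓ : ℕ) :
    ℕ → (κ : Type) → [Fintype κ] → [DecidableEq κ] → Submodule ℚ ((κ → B) × C → ℚ)
  | 0, κ, _, _ => Submodule.span ℚ {t | t ∈ HT D D' κ ∧ Fintype.card κ ≤ ℓ ∧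
      ∀ p, t p ≠ 0 → ∀ k, u (p.1 k) = false}
  | j + 1, κ, _, _ => Submodule.span ℚ {F | ∃ (a b : κ) (β : Matrix B B ℚ)
      (s : ({l // l ≠ a ∧ l ≠ b} → B) × C → ℚ), a ≠ b ∧ IsH D (bilc β) ∧
        s ∈ HJ D D' u ℓ j {l // l ≠ a ∧ l ≠ b} ∧ F = fW C (mulB a b β) s}

variable {D : Matrix B B ℂ} {D' : Matrix C C ℂ} {u : B → Bool} {ℓ : ℕ}

theorem fW_rs_HT {κ : Type} [Fintype κ] [DecidableEq κ]
    (hDu : ∀ a b, u a ≠ u b → D a b = 0) (ε : κ → Bool)
    {t : (κ → B) × C → ℚ} (ht : t ∈ HT D D' κ) : fW C (rs u ε) t ∈ HT D D' κ :=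
  HT_map ⟨rs u ε, fun c => rs_cst u ε c, fun c => rs_act u hDu ε c⟩ ht

/-- **Hodge tensors with values in a Hodge structure of level at most `ℓ`** are generated by
invariant bilinear forms and by Hodge tensors in at most `ℓ` variables. -/
theorem HT_le (h : PolH D) (hcore : CoreP D)
    (hMS : ∀ (m : ℕ) (c : (Fin m × Fin 2 → B) → ℚ), IsH D c → c ∈ MS D m)
    (hdec : ∀ x : C → ℂ, x ∈ Submodule.span ℂ {y | ∃ k : ℤ, D' *ᵥ y = (k : ℂ) • y})
    (hlev : ∀ (n : ℤ) (y : C → ℂ), y ≠ 0 → D' *ᵥ y = (n : ℂ) • y → |n| ≤ ℓ)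
    (hDu : ∀ a b, u a ≠ u b → D a b = 0)
    (hU : ∀ (κ : Type) [Fintype κ] [DecidableEq κ], ∀ t ∈ HT D D' κ,
      opD κ C (DU u D) (cstX t) = 0) (n : ℕ) :
    ∀ (κ : Type) [Fintype κ] [DecidableEq κ], Fintype.card κ = n →
      HT D D' κ ≤ ⨆ j, HJ D D' u ℓ j κ := by
  induction n using Nat.strong_induction_on with
  | _ n ih =>
    intro κ _ _ hn
    obtain ⟨S, hS1, hS2⟩ := exists_gens D
    -- the Hodge tensors with components in the ideal
    let H : Submodule ℚ ((κ → B) × C → ℚ) :=
      { carrier := {t | t ∈ HT D D' κ ∧ ∀ c, sl c t ∈ IdQ D κ}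
        zero_mem' := ⟨Submodule.zero_mem _, fun c => by
          rw [map_zero]
          exact Submodule.zero_mem _⟩
        add_mem' := fun {x y} hx hy => ⟨Submodule.add_mem _ hx.1 hy.1, fun c => by
          rw [map_add]
          exact Submodule.add_mem _ (hx.2 c) (hy.2 c)⟩
        smul_mem' := fun r x hx => ⟨Submodule.smul_mem _ r hx.1, fun c => by
          rw [map_smul]
          exact Submodule.smul_mem _ r (hx.2 c)⟩ }
    have hId := HL_IdQ (D := D) (κ := κ) h.dd
    have hstab : ∀ t ∈ H, fW C (h.KK κ S) t ∈ H := by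
      intro t ht
      refine ⟨HT_map (h.isHM_KK hS1) ht.1, fun c => ?_⟩
      rw [sl_fW, h.KK_apply]
      exact Submodule.sum_mem _ fun p _ => Submodule.sum_mem _ fun β hβ =>
        Submodule.subset_span ⟨p.1.1, p.1.2, β, _, p.2, hS1 β hβ, rfl⟩
    let Kr : H →ₗ[ℚ] H := (fW C (h.KK κ S)).restrict hstab
    have hinj : Function.Injective Kr := by
      rw [← LinearMap.ker_eq_bot, LinearMap.ker_eq_bot']
      intro t ht
      have h1 : fW C (h.KK κ S) t.1 = 0 := congrArg Subtype.val ht
      apply Subtype.ext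
      refine ext_sl fun c => ?_
      have h2 : h.KK κ S (sl c t.1) = 0 := by
        rw [← sl_fW, h1, map_zero]
      have h3 : ∀ x ∈ IdQ D κ, EB κ h.Om (sl c t.1) x = 0 :=
        h.EB_IdQ fun a b β hab hβ =>
          con_of_gens hS2 (fun β hβ => h.pos_KK hS1 h2 a b hab hβ) hβ
      exact h.nondeg hId (t.2.2 c) h3
    have hsurj : Function.Surjective Kr := LinearMap.injective_iff_surjective.1 hinj
    have hH : H ≤ ⨆ j, HJ D D' u ℓ j κ := by
      intro t ht
      obtain ⟨s, hs⟩ := hsurj ⟨t, ht⟩
      have h1 : t = fW C (h.KK κ S) s.1 := (congrArg Subtype.val hs).symm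
      have h2 : fW C (h.KK κ S) s.1 = ∑ p : {p : κ × κ // p.1 ≠ p.2}, ∑ β ∈ S,
          fW C (mulB p.1.1 p.1.2 β) (fW C (conB p.1.1 p.1.2 (h.Om * β * h.Omᵀ)) s.1) := by
        refine ext_sl fun c => ?_
        rw [sl_fW, h.KK_apply, map_sum]
        refine Finset.sum_congr rfl fun p _ => ?_
        rw [map_sum]
        exact Finset.sum_congr rfl fun β _ => rfl
      rw [h1, h2]
      refine Submodule.sum_mem _ fun p _ => Submodule.sum_mem _ fun β hβ => ?_
      have h3 := card_two p.2
      have h4 := ih (Fintype.card {l // l ≠ p.1.1 ∧ l ≠ p.1.2}) (by omega) _ rfl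
        (HT_map (h.isHM_conB p.2 (hS1 β hβ)) s.2.1)
      have h5 : (⨆ j, HJ D D' u ℓ j {l // l ≠ p.1.1 ∧ l ≠ p.1.2}) ≤
          (⨆ j, HJ D D' u ℓ j κ).comap (fW C (mulB p.1.1 p.1.2 β)) := by
        refine iSup_le fun j x hx => ?_
        rw [Submodule.mem_comap]
        refine Submodule.mem_iSup_of_mem (j + 1) ?_
        exact Submodule.subset_span ⟨p.1.1, p.1.2, β, x, p.2, hS1 β hβ, hx, rfl⟩
      exact h5 h4
    intro t ht
    have h1 : t = ∑ ε : κ → Bool, fW C (rs u ε) t := by
      refine ext_sl fun c => ?_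
      rw [map_sum]
      simp only [sl_fW]
      exact (sum_rs u (sl c t)).symm
    rw [h1]
    refine Submodule.sum_mem _ fun ε _ => ?_
    obtain ⟨s, hs⟩ : ∃ s, s = fW C (rs u ε) t := ⟨_, rfl⟩
    have hsH : s ∈ HT D D' κ := by
      rw [hs]
      exact fW_rs_HT hDu ε ht
    have hsε : ∀ c, rs u ε (sl c s) = sl c s := by
      intro c
      rw [hs, sl_fW, rs_idem]
    rw [← hs]
    by_cases hcase : (∀ k, ε k = false) ∧ Fintype.card κ ≤ ℓ
    · refine Submodule.mem_iSup_of_mem 0 (Submodule.subset_span ⟨hsH, hcase.2, ?_⟩)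
      intro p hp k
      have h2 : sl p.2 s p.1 ≠ 0 := hp
      rw [← hsε, rs_apply] at h2
      have h3 : (fun k => u (p.1 k)) = ε := by
        by_contra h4
        exact h2 (if_neg h4)
      rw [congrFun h3 k, hcase.1]
    · apply hH
      -- the complex components
      have hcx : ∀ z ∈ cx (slS s), rs u ε z = z ∧ act (DU u D) z = 0 := by
        intro z hz
        unfold cx at hz
        induction hz using Submodule.span_induction with
        | zero => exact ⟨map_zero _, act_zero_right _⟩
        | add x y _ _ hx hy =>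
          exact ⟨by rw [map_add, hx.1, hy.1], by rw [act_add_right, hx.2, hy.2, add_zero]⟩
        | smul r x _ hx =>
          exact ⟨by rw [map_smul, hx.1], by rw [act_smul_right, hx.2, smul_zero]⟩
        | mem z hz =>
          obtain ⟨c, hc, rfl⟩ := hz
          change c ∈ slS s at hc
          unfold slS at hc
          induction hc using Submodule.span_induction with
          | zero =>
            rw [cst_zero]
            exact ⟨map_zero _, act_zero_right _⟩
          | add x y _ _ hx hy =>
            rw [cst_add]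
            exact ⟨by rw [map_add, hx.1, hy.1], by rw [act_add_right, hx.2, hy.2, add_zero]⟩
          | smul r x _ hx =>
            have h2 : cst ℂ (r • x) = (r : ℂ) • cst ℂ x := by
              funext I
              simp [cst]
            rw [h2]
            exact ⟨by rw [map_smul, hx.1], by rw [act_smul_right, hx.2, smul_zero]⟩
          | mem c hc =>
            obtain ⟨c, rfl⟩ := hc
            refine ⟨?_, ?_⟩
            · change rs u ε (cst ℂ (sl c s)) = cst ℂ (sl c s)
              rw [rs_cst, hsε]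
            · exact congrArg (sl c) (hU κ s hsH)
      have key : slS s ≤ IdQ D κ := by
        by_cases hall : ∀ k, ε k = false
        · have hlt : ℓ < Fintype.card κ := by
            by_contra h2
            exact hcase ⟨hall, not_lt.1 h2⟩
          refine le_IdQ h hcore hMS (L := ℓ) (HL_slS hdec hlev hsH ?_) (by exact_mod_cast hlt)
          exact fun b z _ _ hb _ => hb
        · push Not at hall
          obtain ⟨k0, hk0⟩ := hall
          refine le_IdQ h hcore hMS (L := ((Finset.univ.filter fun k => ε k = false).card : ℤ))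
            (HL_slS hdec hlev hsH ?_) ?_
          · intro b z hz hzb _ hz0
            exact eig_bound u h.dd hDu hzb (hcx z hz).1 (hcx z hz).2 hz0
          · have h2 : (Finset.univ.filter fun k => ε k = false).card < Fintype.card κ := by
              rw [← Finset.card_univ]
              refine Finset.card_lt_card ?_
              rw [Finset.ssubset_univ_iff]
              intro h3
              have h4 := Finset.mem_univ k0
              rw [← h3, Finset.mem_filter] at h4
              exact hk0 h4.2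
            exact_mod_cast h2
      exact ⟨hsH, fun c => key (Submodule.subset_span ⟨c, rfl⟩)⟩

end main

end

end Pool.Agent.K4H35.ST
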