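import Mathlib
import Pool.Agent.K4H35.ST.Ten
import Pool.Agent.TH131.GHC.Final

/-!
# The factors which are related to the variety
-/

set_option linter.unusedSectionVars false

namespace Pool.Agent.K4H35.ST

open Matrix Equiv Module Pool.Agent.H204R3.SP Pool.Agent.H204R3.CM Pool.Agent.W437.HC
  Pool.Agent.W437.HD Pool.Agent.W437.HP Pool.Agent.W437.HR Pool.Agent.TH131.GHC

noncomputable section

section kk

variable {B : Type} [Fintype B] [DecidableEq B] {C : Type} [Fintype C] [DecidableEq C]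
  {κ : Type} [Fintype κ] [DecidableEq κ]

theorem opW_zeroM (z : (κ → B) × C → ℂ) : opW κ B (0 : Matrix C C ℂ) z = 0 := by
  funext p
  rw [opW_apply]
  simp

theorem opW_addM (M N : Matrix C C ℂ) (z : (κ → B) × C → ℂ) :
    opW κ B (M + N) z = opW κ B M z + opW κ B N z := by
  funext p
  simp only [opW_apply, Pi.add_apply, Matrix.add_apply, add_mul, Finset.sum_add_distrib]

theorem aut_cstX {X : Type} (σ : ℂ ≃+* ℂ) (t : X → ℚ) : (fun x => σ (cstX t x)) = cstX t := by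
  funext x
  exact map_ratCast σ _

/-- The elements of the Hodge Lie algebra which kill the Hodge tensors with values. -/
def kk (D : Matrix B B ℂ) (D' : Matrix C C ℂ) : Submodule ℂ (Matrix B B ℂ) where
  carrier := {X | X ∈ lieM D ℂ ∧ ∀ (κ : Type) [Fintype κ] [DecidableEq κ], ∀ t ∈ HT D D' κ,
    opD κ C X (cstX t) = 0}
  zero_mem' := ⟨Submodule.zero_mem _, fun κ _ _ t _ => opD_zero _⟩
  add_mem' := by
    rintro X Y ⟨h1, h2⟩ ⟨h3, h4⟩
    exact ⟨Submodule.add_mem _ h1 h3, fun κ _ _ t ht => by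
      rw [opD_add, h2 κ t ht, h4 κ t ht, add_zero]⟩
  smul_mem' := by
    rintro r X ⟨h1, h2⟩
    exact ⟨Submodule.smul_mem _ _ h1, fun κ _ _ t ht => by
      rw [opD_smul, h2 κ t ht, smul_zero]⟩

variable {D : Matrix B B ℂ} {D' : Matrix C C ℂ}

theorem kk_galD : GalD D (kk D D') where
  le := fun X hX => hX.1
  gal := by
    intro σ X hX
    refine ⟨map_mem_aut hX.1 (σ : ℂ →+* ℂ), fun κ _ _ t ht => ?_⟩
    have h1 := opD_aut (κ := κ) (C := C) σ X (cstX t)
    rw [hX.2 κ t ht, aut_cstX] at h1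
    rw [← h1]
    funext p
    exact map_zero σ
  dn := by
    intro X hX
    refine ⟨lieM_bracket D (D_mem D) hX.1, fun κ _ _ t ht => ?_⟩
    rw [← opD_br X D (cstX t)]
    have h1 : opD κ C D (cstX t) = -opW κ B D' (cstX t) := eq_neg_of_add_eq_zero_left ht
    rw [h1, map_neg, hX.2 κ t ht, map_zero, op_comm, hX.2 κ t ht, map_zero, neg_zero, sub_zero]

/-- The pairs of operators which kill the Hodge tensors with values. -/
def gg (D : Matrix B B ℂ) (D' : Matrix C C ℂ) : Submodule ℂ (Matrix B B ℂ × Matrix C C ℂ) where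
  carrier := {Y | Y.1 ∈ lieM D ℂ ∧ ∀ (κ : Type) [Fintype κ] [DecidableEq κ], ∀ t ∈ HT D D' κ,
    opD κ C Y.1 (cstX t) + opW κ B Y.2 (cstX t) = 0}
  zero_mem' := ⟨Submodule.zero_mem _, fun κ _ _ t _ => by
    change opD κ C (0 : Matrix B B ℂ) (cstX t) + opW κ B (0 : Matrix C C ℂ) (cstX t) = 0
    rw [opD_zero, opW_zeroM, add_zero]⟩
  add_mem' := by
    rintro X Y ⟨h1, h2⟩ ⟨h3, h4⟩
    refine ⟨Submodule.add_mem _ h1 h3, fun κ _ _ t ht => ?_⟩
    change opD κ C (X.1 + Y.1) (cstX t) + opW κ B (X.2 + Y.2) (cstX t) = 0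
    rw [opD_add, opW_addM, add_add_add_comm, h2 κ t ht, h4 κ t ht, add_zero]
  smul_mem' := by
    rintro r X ⟨h1, h2⟩
    refine ⟨Submodule.smul_mem _ _ h1, fun κ _ _ t ht => ?_⟩
    change opD κ C (r • X.1) (cstX t) + opW κ B (r • X.2) (cstX t) = 0
    rw [opD_smul, opW_smul, ← smul_add, h2 κ t ht, smul_zero]

theorem D_mem_gg : (D, D') ∈ gg D D' := ⟨D_mem D, fun _ _ _ _ ht => ht⟩

theorem kk_of_gg {X : Matrix B B ℂ} (hX : (X, (0 : Matrix C C ℂ)) ∈ gg D D') : X ∈ kk D D' := by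
  refine ⟨hX.1, fun κ _ _ t ht => ?_⟩
  have h1 := hX.2 κ t ht
  change opD κ C X (cstX t) + opW κ B (0 : Matrix C C ℂ) (cstX t) = 0 at h1
  rwa [opW_zeroM, add_zero] at h1

theorem gg_aut (σ : ℂ ≃+* ℂ) {Y : Matrix B B ℂ × Matrix C C ℂ} (hY : Y ∈ gg D D') :
    (Y.1.map σ, Y.2.map σ) ∈ gg D D' := by
  refine ⟨map_mem_aut hY.1 (σ : ℂ →+* ℂ), fun κ _ _ t ht => ?_⟩
  have h1 := opD_aut (κ := κ) (C := C) σ Y.1 (cstX t)
  have h2 := opW_aut (κ := κ) (B := B) σ Y.2 (cstX t)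
  rw [aut_cstX] at h1 h2
  change opD κ C (Y.1.map σ) (cstX t) + opW κ B (Y.2.map σ) (cstX t) = 0
  rw [← h1, ← h2]
  funext p
  have h3 := congrFun (hY.2 κ t ht) p
  rw [Pi.add_apply] at h3 ⊢
  rw [← map_add, h3]
  exact map_zero σ

theorem gg_dn {Y : Matrix B B ℂ × Matrix C C ℂ} (hY : Y ∈ gg D D') :
    (D * Y.1 - Y.1 * D, Y.2 * D' - D' * Y.2) ∈ gg D D' := by
  refine ⟨lieM_bracket D (D_mem D) hY.1, fun κ _ _ t ht => ?_⟩
  change opD κ C (D * Y.1 - Y.1 * D) (cstX t) + opW κ B (Y.2 * D' - D' * Y.2) (cstX t) = 0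
  rw [← opD_br Y.1 D (cstX t), ← opW_br Y.2 D' (cstX t)]
  have h1 : opD κ C D (cstX t) = -opW κ B D' (cstX t) := eq_neg_of_add_eq_zero_left ht
  have h2 : opD κ C Y.1 (cstX t) = -opW κ B Y.2 (cstX t) :=
    eq_neg_of_add_eq_zero_left (hY.2 κ t ht)
  rw [h1, h2, map_neg, map_neg, op_comm, op_comm, h1, h2, map_neg, map_neg]
  abel

/-- Every element of the Hodge Lie algebra is the first component of such a pair. -/
theorem map_fst_gg (h : PolH D) (hS : Simp D) :
    (gg D D').map (LinearMap.fst ℂ (Matrix B B ℂ) (Matrix C C ℂ)) = lieM D ℂ := by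
  set p := (gg D D').map (LinearMap.fst ℂ (Matrix B B ℂ) (Matrix C C ℂ)) with hp
  have hle : p ≤ lieM D ℂ := by
    rintro _ ⟨Y, hY, rfl⟩
    exact hY.1
  have hk : GalD D p :=
    { le := hle
      gal := by
        rintro σ _ ⟨Y, hY, rfl⟩
        exact ⟨_, gg_aut σ hY, rfl⟩
      dn := by
        rintro _ ⟨Y, hY, rfl⟩
        exact ⟨_, gg_dn hY, rfl⟩ }
  refine le_antisymm hle fun W hW => ?_
  obtain ⟨W1, hW1, hW2⟩ := h.cmpl_sum hk hW
  have hc := h.cmpl_galD hk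
  have hDp : D ∈ p := ⟨(D, D'), D_mem_gg, rfl⟩
  have h1 : D * (W - W1) = 0 := hS p (cmpl D p) hk.le hc.le
    (fun X hX Y hY => h.ideal hk hX hY) (fun X hX Y hY => h.ideal hc hX hY)
    (fun X hX Y hY => h.cmpl_bracket hk hX hY) D hDp _ hW2
  have h2 : W - W1 = 0 := by
    rw [← Matrix.one_mul (W - W1), ← h.dd, Matrix.mul_assoc, h1, Matrix.mul_zero]
  rw [sub_eq_zero.1 h2]
  exact hW1

end kk

section blk

variable {ι : Type} [Fintype ι] [DecidableEq ι] {g : ι → ℕ}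

/-- The factor of a coordinate. -/
def blk (g : ι → ℕ) (b : Fin (NB g) ⊕ Fin (NB g)) : ι := ((eB g).symm (Sum.elim id id b)).1

theorem exists_col (b : Fin (NB g) ⊕ Fin (NB g)) :
    ∃ y : Fin (g (blk g b)) ⊕ Fin (g (blk g b)), ∀ (K : Type) [Field K],
      (pm g K (blk g b))ᵀ *ᵥ Pi.single y 1 = (Pi.single b 1 : Fin (NB g) ⊕ Fin (NB g) → K) := by
  have key : ∀ (b0 : Fin (NB g)), eB g ⟨((eB g).symm b0).1, ((eB g).symm b0).2⟩ = b0 :=
    fun b0 => (eB g).apply_symm_apply b0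
  rcases b with b0 | b0
  · refine ⟨Sum.inl ((eB g).symm b0).2, fun K _ => ?_⟩
    funext c
    rw [mulVec_single_one]
    change (pm g K ((eB g).symm b0).1) (Sum.inl ((eB g).symm b0).2) c = _
    rcases c with c | c
    · change qm g K ((eB g).symm b0).1 ((eB g).symm b0).2 c = _
      rw [qm_apply, key]
      by_cases h : b0 = c
      · subst h
        rw [if_pos rfl, Pi.single_eq_same]
      · rw [if_neg h, Pi.single_eq_of_ne]
        intro h'
        exact h (Sum.inl_injective h').symm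
    · change (0 : Matrix (Fin (g ((eB g).symm b0).1)) (Fin (NB g)) K) ((eB g).symm b0).2 c = _
      rw [Pi.single_eq_of_ne (by simp)]
      rfl
  · refine ⟨Sum.inr ((eB g).symm b0).2, fun K _ => ?_⟩
    funext c
    rw [mulVec_single_one]
    change (pm g K ((eB g).symm b0).1) (Sum.inr ((eB g).symm b0).2) c = _
    rcases c with c | c
    · change (0 : Matrix (Fin (g ((eB g).symm b0).1)) (Fin (NB g)) K) ((eB g).symm b0).2 c = _
      rw [Pi.single_eq_of_ne (by simp)]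
      rfl
    · change qm g K ((eB g).symm b0).1 ((eB g).symm b0).2 c = _
      rw [qm_apply, key]
      by_cases h : b0 = c
      · subst h
        rw [if_pos rfl, Pi.single_eq_same]
      · rw [if_neg h, Pi.single_eq_of_ne]
        intro h'
        exact h (Sum.inr_injective h').symm

/-- The entries of the inclusion of a factor outside of the factor are zero. -/
theorem pm_zero (K : Type) [Field K] {i : ι} {b : Fin (NB g) ⊕ Fin (NB g)} (h : blk g b ≠ i)
    (x : Fin (g i) ⊕ Fin (g i)) : pm g K i x b = 0 := by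
  rcases x with x | x <;> rcases b with b | b
  · change qm g K i x b = 0
    rw [qm_apply, if_neg]
    rintro rfl
    apply h
    change ((eB g).symm (eB g ⟨i, x⟩)).1 = i
    rw [Equiv.symm_apply_apply]
  · rfl
  · rfl
  · change qm g K i x b = 0
    rw [qm_apply, if_neg]
    rintro rfl
    apply h
    change ((eB g).symm (eB g ⟨i, x⟩)).1 = i
    rw [Equiv.symm_apply_apply]

/-- A column of a matrix which is zero on a factor. -/
theorem col_zero {X : Matrix (Fin (NB g) ⊕ Fin (NB g)) (Fin (NB g) ⊕ Fin (NB g)) ℂ} {i : ι}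
    (h : X * (cK ℂ (pm g ℚ i))ᵀ = 0) (a : Fin (NB g) ⊕ Fin (NB g))
    {b : Fin (NB g) ⊕ Fin (NB g)} (hb : blk g b = i) : X a b = 0 := by
  subst hb
  obtain ⟨y, hy⟩ := exists_col (g := g) b
  have h1 := hy ℂ
  rw [cK_pm] at h
  have h2 : X *ᵥ ((pm g ℂ (blk g b))ᵀ *ᵥ Pi.single y 1) = 0 := by
    rw [mulVec_mulVec, h, zero_mulVec]
  rw [h1, mulVec_single_one] at h2
  exact congrFun h2 a

variable (Z : ∀ i, Matrix (Fin (g i)) (Fin (g i)) ℂ) {C : Type} [Fintype C] [DecidableEq C]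
  (D' : Matrix C C ℂ)

open Classical in
/-- The factors which are related to the variety: the elements of the Hodge Lie algebra which kill
the Hodge tensors with values vanish on these factors. -/
def RR : Finset ι := Finset.univ.filter fun i =>
  ∀ X ∈ kk (DZ (bigD ℂ Z)) D', X * (cK ℂ (pm g ℚ i))ᵀ = 0

theorem mem_RR {i : ι} : i ∈ RR Z D' ↔
    ∀ X ∈ kk (DZ (bigD ℂ Z)) D', X * (cK ℂ (pm g ℚ i))ᵀ = 0 := by
  classical
  unfold RR
  exact ⟨fun h => (Finset.mem_filter.1 h).2, fun h => Finset.mem_filter.2 ⟨Finset.mem_univ _, h⟩⟩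

open Classical in
/-- The indices of the factors which are not related to the variety. -/
def uu (b : Fin (NB g) ⊕ Fin (NB g)) : Bool := decide (blk g b ∉ RR Z D')

theorem uu_false {b : Fin (NB g) ⊕ Fin (NB g)} : uu Z D' b = false ↔ blk g b ∈ RR Z D' := by
  unfold uu
  rw [decide_eq_false_iff_not, not_not]

theorem uu_true {b : Fin (NB g) ⊕ Fin (NB g)} : uu Z D' b = true ↔ blk g b ∉ RR Z D' := by
  unfold uu
  rw [decide_eq_true_iff]

/-- The Hodge operator preserves the factors. -/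
theorem DZ_blk (hZ : ∀ i, (Z i)ᵀ = Z i) (hpos : ∀ i, (imM (Z i)).PosDef)
    {a b : Fin (NB g) ⊕ Fin (NB g)} (hab : blk g a ≠ blk g b) : DZ (bigD ℂ Z) a b = 0 := by
  obtain ⟨y, hy⟩ := exists_col (g := g) b
  have h1 := pmT_DZ Z hZ hpos (blk g b)
  rw [cK_pm] at h1
  have h2 : DZ (bigD ℂ Z) *ᵥ ((pm g ℂ (blk g b))ᵀ *ᵥ Pi.single y 1) =
      (pm g ℂ (blk g b))ᵀ *ᵥ (DZ (Z (blk g b)) *ᵥ Pi.single y 1) := by
    rw [mulVec_mulVec, h1, mulVec_mulVec]
  rw [hy ℂ, mulVec_single_one] at h2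
  have h3 := congrFun h2 a
  change DZ (bigD ℂ Z) a b = _ at h3
  rw [h3]
  simp only [mulVec, dotProduct, transpose_apply]
  refine Finset.sum_eq_zero fun x _ => ?_
  rw [pm_zero ℂ hab, zero_mul]

/-- The part of the Hodge operator on the factors which are not related kills the Hodge tensors with
values. -/
theorem DU_mem (hZ : ∀ i, (Z i)ᵀ = Z i) (hpos : ∀ i, (imM (Z i)).PosDef)
    (hp : ∀ i, HasPcs (DZ (Z i))) (hs : ∀ i, IsSimpleAV (Z i)) :
    DU (uu Z D') (DZ (bigD ℂ Z)) ∈ kk (DZ (bigD ℂ Z)) D' := by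
  have h : PolH (DZ (bigD ℂ Z)) := polOf (bigD_symm hZ) (imM_bigD_posDef Z hpos)
  have hS : Simp (DZ (bigD ℂ Z)) := simp_prod Z hZ hpos hp
  have hbl := fun i X hX => exists_bl Z hZ hpos i (X := X) hX
  have hpT := pmT_DZ Z hZ hpos
  obtain ⟨D, hDdef⟩ : ∃ D, D = DZ (bigD ℂ Z) := ⟨_, rfl⟩
  have hRR : ∀ i, i ∉ RR Z D' ↔ ∃ X ∈ kk D D', X * (cK ℂ (pm g ℚ i))ᵀ ≠ 0 := by
    intro i
    rw [mem_RR, hDdef]
    push Not
    rfl
  have hRR' : ∀ i, i ∈ RR Z D' ↔ ∀ X ∈ kk D D', X * (cK ℂ (pm g ℚ i))ᵀ = 0 := by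
    intro i
    rw [mem_RR, hDdef]
  rw [← hDdef] at h hS hbl hpT ⊢
  have hk : GalD D (kk D D') := kk_galD
  -- the vectors killed by the algebra
  have hblk : ∀ i, i ∉ RR Z D' → ∀ v : Fin (g i) ⊕ Fin (g i) → ℂ,
      (∀ X ∈ kk D D', X *ᵥ ((cK ℂ (pm g ℚ i))ᵀ *ᵥ v) = 0) → v = 0 := by
    intro i hi
    let Ci : Submodule ℂ (Fin (g i) ⊕ Fin (g i) → ℂ) :=
      { carrier := {v | ∀ X ∈ kk D D', X *ᵥ ((cK ℂ (pm g ℚ i))ᵀ *ᵥ v) = 0}
        zero_mem' := fun X _ => by rw [mulVec_zero, mulVec_zero]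
        add_mem' := fun {x y} hx hy X hX => by
          rw [mulVec_add, mulVec_add, hx X hX, hy X hX, add_zero]
        smul_mem' := fun r x hx X hX => by rw [mulVec_smul, mulVec_smul, hx X hX, smul_zero] }
    have hCi : ∀ v, v ∈ Ci ↔ ∀ X ∈ kk D D', X *ᵥ ((cK ℂ (pm g ℚ i))ᵀ *ᵥ v) = 0 :=
      fun v => Iff.rfl
    have hbot : Ci = ⊥ := by
      by_contra hne
      have htop := stable_eq_top ((hpos i).isUnit.map Matrix.detMonoidHom) (hs i) Ci ?_ ?_ hne
      · obtain ⟨X, hX, hne⟩ := (hRR i).1 hi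
        apply hne
        ext x y
        have h3 : (Pi.single y 1 : Fin (g i) ⊕ Fin (g i) → ℂ) ∈ Ci := by
          rw [htop]
          trivial
        rw [hCi] at h3
        have h4 := congrFun (h3 _ hX) x
        rw [mulVec_mulVec, mulVec_single_one] at h4
        exact h4
      · intro σ v hv
        rw [hCi] at hv ⊢
        intro X hX
        have h1 := hv _ (hk.gal σ.symm X hX)
        funext x
        have h2 := congrArg σ (congrFun h1 x)
        rw [Pi.zero_apply, map_zero] at h2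
        rw [Pi.zero_apply, ← h2]
        simp [mulVec, dotProduct, cK, map_sum]
      · intro v hv
        rw [hCi] at hv ⊢
        intro X hX
        have h1 : (cK ℂ (pm g ℚ i))ᵀ *ᵥ (DZ (Z i) *ᵥ v) = D *ᵥ ((cK ℂ (pm g ℚ i))ᵀ *ᵥ v) := by
          rw [mulVec_mulVec, mulVec_mulVec, hpT]
        rw [h1, mulVec_mulVec]
        have h2 : X * D = D * X + (X * D - D * X) := by abel
        have h3 : X * D - D * X ∈ kk D D' := h.ideal hk hX (D_mem D)
        rw [h2, add_mulVec, ← mulVec_mulVec, hv X hX, mulVec_zero, hv _ h3, add_zero]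
    intro v hv
    have h1 : v ∈ Ci := hv
    rwa [hbot, Submodule.mem_bot] at h1
  obtain ⟨D1, hD1, hD2⟩ := h.cmpl_sum hk (D_mem D)
  have hc := h.cmpl_galD hk
  have hkill : ∀ X ∈ kk D D', X * (D - D1) = 0 := fun X hX =>
    hS (kk D D') (cmpl D (kk D D')) hk.le hc.le
      (fun X hX Y hY => h.ideal hk hX hY) (fun X hX Y hY => h.ideal hc hX hY)
      (fun X hX Y hY => h.cmpl_bracket hk hX hY) X hX _ hD2
  have hU : ∀ i, i ∉ RR Z D' → (D - D1) * (cK ℂ (pm g ℚ i))ᵀ = 0 := by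
    intro i hi
    obtain ⟨Y, -, h2, -⟩ := hbl i _ hD2.1
    have h3 : Y = 0 := by
      ext x y
      have h4 : Y *ᵥ Pi.single y 1 = 0 := by
        refine hblk i hi _ fun X hX => ?_
        rw [mulVec_mulVec (Pi.single y 1) (cK ℂ (pm g ℚ i))ᵀ Y, ← h2, mulVec_mulVec,
          ← Matrix.mul_assoc, hkill X hX, Matrix.zero_mul, zero_mulVec]
      rw [mulVec_single_one] at h4
      exact congrFun h4 x
    rw [h2, h3, Matrix.mul_zero]
  have hDU : DU (uu Z D') D = D1 := by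
    ext a b
    change (if uu Z D' b = true then D a b else 0) = D1 a b
    by_cases hb : uu Z D' b = true
    · rw [if_pos hb]
      have h1 := col_zero (hU _ ((uu_true Z D').1 hb)) a rfl
      rw [Matrix.sub_apply, sub_eq_zero] at h1
      exact h1
    · rw [if_neg hb]
      rw [Bool.not_eq_true] at hb
      exact (col_zero ((hRR' _).1 ((uu_false Z D').1 hb) D1 hD1) a rfl).symm
  rw [hDU]
  exact hD1

end blk

end

end Pool.Agent.K4H35.ST
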