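import Mathlib
import Pool.Agent.K4H35.ST.Blk
import Pool.Agent.W437.HQ.Endo

/-!
# Isogenies of simple abelian varieties
-/

set_option linter.unusedSectionVars false

namespace Pool.Agent.K4H35.ST

open Matrix Equiv Module Pool.Agent.H204R3.SP Pool.Agent.H204R3.CM Pool.Agent.W437.HC
  Pool.Agent.W437.HD Pool.Agent.W437.HP Pool.Agent.W437.HR Pool.Agent.TH131.GHC
  Pool.Agent.W437.HQ

noncomputable section

/-- The abelian varieties `ℂ ^ g / (ℤ ^ g + Z ℤ ^ g)` and `ℂ ^ g' / (ℤ ^ g' + Z' ℤ ^ g')` are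
isogenous: some isomorphism `φ` of the rational homology and its inverse come from complex linear
maps of the tangent spaces. -/
def IsIsogenous {g g' : ℕ} (Z : Matrix (Fin g) (Fin g) ℂ) (Z' : Matrix (Fin g') (Fin g') ℂ) :
    Prop :=
  ∃ (φ : (Fin g ⊕ Fin g → ℚ) ≃ₗ[ℚ] (Fin g' ⊕ Fin g' → ℚ)) (M : Matrix (Fin g') (Fin g) ℂ)
    (N : Matrix (Fin g) (Fin g') ℂ), (∀ w, perOne Z' (φ w) = M.mulVec (perOne Z w)) ∧
      ∀ w, perOne Z (φ.symm w) = N.mulVec (perOne Z' w)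

theorem IsIsogenous.symm {g g' : ℕ} {Z : Matrix (Fin g) (Fin g) ℂ}
    {Z' : Matrix (Fin g') (Fin g') ℂ} (h : IsIsogenous Z Z') : IsIsogenous Z' Z := by
  obtain ⟨φ, M, N, h1, h2⟩ := h
  exact ⟨φ.symm, N, M, h2, h1⟩

theorem aut_mulVec {m n : Type} [Fintype n] (σ : ℂ ≃+* ℂ) (φ : Matrix m n ℚ) (v : n → ℂ) :
    (fun i => σ ((cK ℂ φ *ᵥ v) i)) = cK ℂ φ *ᵥ (fun i => σ (v i)) := by
  funext i
  simp [mulVec, dotProduct, cK, map_sum]

/-- A map which commutes with the Hodge operators comes from a complex linear map. -/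
theorem per_of_comm {g g' : ℕ} {Z : Matrix (Fin g) (Fin g) ℂ} {Z' : Matrix (Fin g') (Fin g') ℂ}
    (hY : IsUnit (imM Z).det) (hY' : IsUnit (imM Z').det)
    {φ : Matrix (Fin g' ⊕ Fin g') (Fin g ⊕ Fin g) ℚ} (hc : cK ℂ φ * DZ Z = DZ Z' * cK ℂ φ) :
    ∃ M : Matrix (Fin g') (Fin g) ℂ, ∀ w, perOne Z' (φ *ᵥ w) = M *ᵥ perOne Z w := by
  have hPZ : PZ Z' * cK ℂ φ = (PZ Z' * cK ℂ φ * r10 g) * PZ Z := by
    have h1 : PZ Z' * cK ℂ φ * LM Z = 0 := by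
      have h2 : PZ Z' * cK ℂ φ * LM Z = -(PZ Z' * cK ℂ φ * LM Z) := by
        conv_lhs => rw [← PZ_DZ hY', Matrix.mul_assoc (PZ Z') (DZ Z'), ← hc, ← Matrix.mul_assoc,
          Matrix.mul_assoc _ (DZ Z), DZ_LM hY, Matrix.mul_neg]
      have h3 : (2 : ℂ) • (PZ Z' * cK ℂ φ * LM Z) = 0 := by
        rw [two_smul]
        nth_rewrite 2 [h2]
        exact add_neg_cancel _
      exact (smul_eq_zero.1 h3).resolve_left two_ne_zero
    conv_lhs => rw [← Matrix.mul_one (PZ Z' * cK ℂ φ), one_eq (Z := Z), Matrix.mul_add,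
      ← Matrix.mul_assoc _ (LM Z), h1, Matrix.zero_mul, add_zero, ← Matrix.mul_assoc]
  refine ⟨PZ Z' * cK ℂ φ * r10 g, fun w => ?_⟩
  rw [perOne_PZ, cast_mulVec, perOne_PZ, mulVec_mulVec, mulVec_mulVec, ← hPZ]

/-- A nonzero map which commutes with the Hodge operators is an isogeny. -/
theorem iso_of_comm {g g' : ℕ} {Z : Matrix (Fin g) (Fin g) ℂ} {Z' : Matrix (Fin g') (Fin g') ℂ}
    (hY : IsUnit (imM Z).det) (hY' : IsUnit (imM Z').det) (hs : IsSimpleAV Z)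
    (hs' : IsSimpleAV Z') {φ : Matrix (Fin g' ⊕ Fin g') (Fin g ⊕ Fin g) ℚ} (h0 : φ ≠ 0)
    (hc : cK ℂ φ * DZ Z = DZ Z' * cK ℂ φ) : IsIsogenous Z Z' := by
  have hφ0 : cK ℂ φ ≠ 0 := by
    intro h
    apply h0
    ext i j
    have h1 := congrFun (congrFun h i) j
    simp only [cK, Matrix.map_apply, Matrix.zero_apply] at h1
    exact_mod_cast h1
  -- the kernel
  have hker : LinearMap.ker (mulVecLin (cK ℂ φ)) = ⊥ := by
    by_contra hne
    have h1 := stable_eq_top hY hs (LinearMap.ker (mulVecLin (cK ℂ φ))) ?_ ?_ hne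
    · apply hφ0
      ext i j
      have h2 : (Pi.single j 1 : Fin g ⊕ Fin g → ℂ) ∈ LinearMap.ker (mulVecLin (cK ℂ φ)) := by
        rw [h1]
        trivial
      rw [LinearMap.mem_ker, mulVecLin_apply, mulVec_single_one] at h2
      exact congrFun h2 i
    · intro σ v hv
      rw [LinearMap.mem_ker, mulVecLin_apply] at hv ⊢
      rw [← aut_mulVec, hv]
      funext i
      exact map_zero σ
    · intro v hv
      rw [LinearMap.mem_ker, mulVecLin_apply] at hv ⊢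
      rw [mulVec_mulVec, hc, ← mulVec_mulVec, hv, mulVec_zero]
  -- the range
  have hran : LinearMap.range (mulVecLin (cK ℂ φ)) = ⊤ := by
    refine stable_eq_top hY' hs' _ ?_ ?_ ?_
    · rintro σ _ ⟨v, rfl⟩
      refine ⟨fun i => σ (v i), ?_⟩
      rw [mulVecLin_apply, mulVecLin_apply, aut_mulVec]
    · rintro _ ⟨v, rfl⟩
      refine ⟨DZ Z *ᵥ v, ?_⟩
      rw [mulVecLin_apply, mulVecLin_apply, mulVec_mulVec, hc, ← mulVec_mulVec]
    · intro h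
      apply hφ0
      ext i j
      have h2 : mulVecLin (cK ℂ φ) (Pi.single j 1) ∈ LinearMap.range (mulVecLin (cK ℂ φ)) :=
        ⟨_, rfl⟩
      rw [h, Submodule.mem_bot, mulVecLin_apply, mulVec_single_one] at h2
      exact congrFun h2 i
  have hdim : finrank ℂ (Fin g ⊕ Fin g → ℂ) = finrank ℂ (Fin g' ⊕ Fin g' → ℂ) :=
    LinearEquiv.finrank_eq (LinearEquiv.ofBijective (mulVecLin (cK ℂ φ))
      ⟨LinearMap.ker_eq_bot.1 hker, LinearMap.range_eq_top.1 hran⟩)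
  rw [finrank_fintype_fun_eq_card, finrank_fintype_fun_eq_card] at hdim
  have hinj : Function.Injective (mulVecLin φ) := by
    rw [← LinearMap.ker_eq_bot, LinearMap.ker_eq_bot']
    intro w hw
    rw [mulVecLin_apply] at hw
    have h1 : (fun i => ((w i : ℚ) : ℂ)) ∈ LinearMap.ker (mulVecLin (cK ℂ φ)) := by
      rw [LinearMap.mem_ker, mulVecLin_apply, ← cast_mulVec, hw]
      funext i
      simp
    rw [hker, Submodule.mem_bot] at h1
    funext i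
    have h2 := congrFun h1 i
    simp only [Pi.zero_apply] at h2
    exact_mod_cast h2
  have hdimQ : finrank ℚ (Fin g ⊕ Fin g → ℚ) = finrank ℚ (Fin g' ⊕ Fin g' → ℚ) := by
    rw [finrank_fintype_fun_eq_card, finrank_fintype_fun_eq_card, hdim]
  let e : (Fin g ⊕ Fin g → ℚ) ≃ₗ[ℚ] (Fin g' ⊕ Fin g' → ℚ) :=
    LinearEquiv.ofInjectiveOfFinrankEq _ hinj hdimQ
  have he : ∀ w, e w = φ *ᵥ w := fun w => rfl
  obtain ⟨ψ, hψ⟩ : ∃ ψ, ψ = LinearMap.toMatrix' e.symm.toLinearMap := ⟨_, rfl⟩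
  have hes : ∀ w, e.symm w = ψ *ᵥ w := by
    intro w
    rw [hψ, LinearMap.toMatrix'_mulVec]
    rfl
  have hψφ : ψ * φ = 1 := by
    have h1 : ∀ w, (ψ * φ) *ᵥ w = w := by
      intro w
      rw [← mulVec_mulVec, ← he, ← hes, LinearEquiv.symm_apply_apply]
    ext x y
    have h2 := congrFun (h1 (Pi.single y 1)) x
    rw [mulVec_single_one] at h2
    change (ψ * φ) x y = _ at h2
    rw [h2, Matrix.one_apply]
    by_cases hxy : x = y
    · rw [hxy, Pi.single_eq_same, if_pos rfl]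
    · rw [Pi.single_eq_of_ne hxy, if_neg hxy]
  have hφψ : φ * ψ = 1 := by
    have h1 : ∀ w, (φ * ψ) *ᵥ w = w := by
      intro w
      rw [← mulVec_mulVec, ← hes, ← he, LinearEquiv.apply_symm_apply]
    ext x y
    have h2 := congrFun (h1 (Pi.single y 1)) x
    rw [mulVec_single_one] at h2
    change (φ * ψ) x y = _ at h2
    rw [h2, Matrix.one_apply]
    by_cases hxy : x = y
    · rw [hxy, Pi.single_eq_same, if_pos rfl]
    · rw [Pi.single_eq_of_ne hxy, if_neg hxy]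
  have hc' : cK ℂ ψ * DZ Z' = DZ Z * cK ℂ ψ := by
    have h1 : cK ℂ ψ * (DZ Z' * cK ℂ φ) * cK ℂ ψ = cK ℂ ψ * (cK ℂ φ * DZ Z) * cK ℂ ψ := by
      rw [hc]
    rw [← Matrix.mul_assoc, Matrix.mul_assoc, ← cK_mul, hφψ, cK_one, Matrix.mul_one,
      ← Matrix.mul_assoc, ← cK_mul, hψφ, cK_one, Matrix.one_mul] at h1
    exact h1
  obtain ⟨M, hM⟩ := per_of_comm hY hY' hc
  obtain ⟨N, hN⟩ := per_of_comm hY' hY hc'
  exact ⟨e, M, N, fun w => by rw [he, hM], fun w => by rw [hes, hN]⟩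

section int

variable {ι : Type} [Fintype ι] [DecidableEq ι] {g : ι → ℕ}
  (Z : ∀ i, Matrix (Fin (g i)) (Fin (g i)) ℂ)

/-- A nonzero complex map of the homology of two factors which commutes with the Hodge Lie algebra
gives an isogeny. -/
theorem iso_of_int (hZ : ∀ i, (Z i)ᵀ = Z i) (hpos : ∀ i, (imM (Z i)).PosDef)
    (hs : ∀ i, IsSimpleAV (Z i)) {i j : ι}
    {T : Matrix (Fin (g j) ⊕ Fin (g j)) (Fin (g i) ⊕ Fin (g i)) ℂ} (hT : T ≠ 0)
    (hc : ∀ X ∈ lieM (DZ (bigD ℂ Z)) ℂ, T * (blocksOf Z hZ hpos).bl ℂ i X =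
      (blocksOf Z hZ hpos).bl ℂ j X * T) : IsIsogenous (Z j) (Z i) := by
  classical
  set D := DZ (bigD ℂ Z) with hDdef
  set b := blocksOf Z hZ hpos with hb
  obtain ⟨M, hM⟩ : ∃ M, M = Tᵀ * Om (g j) ℂ := ⟨_, rfl⟩
  have hOm : ∀ k : ℕ, Om k ℂ * Om k ℂ = -1 := fun k => Om_sq ℂ
  have hM0 : M ≠ 0 := by
    intro h0
    apply hT
    have h1 : M * Om (g j) ℂ = 0 := by rw [h0, Matrix.zero_mul]
    rw [hM, Matrix.mul_assoc, hOm, Matrix.mul_neg, Matrix.mul_one, neg_eq_zero] at h1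
    rw [← transpose_transpose T, h1, transpose_zero]
  have hMX : ∀ X ∈ lieM D ℂ, (b.bl ℂ i X)ᵀ * M + M * b.bl ℂ j X = 0 := by
    intro X hX
    have h1 : (b.bl ℂ j X)ᵀ * Om (g j) ℂ + Om (g j) ℂ * b.bl ℂ j X = 0 :=
      sp_C (hZ j) _ (b.bl_mem hX j)
    have h2 : (b.bl ℂ i X)ᵀ * Tᵀ = Tᵀ * (b.bl ℂ j X)ᵀ := by
      rw [← transpose_mul, hc X hX, transpose_mul]
    rw [hM, ← Matrix.mul_assoc, h2, Matrix.mul_assoc, Matrix.mul_assoc, ← Matrix.mul_add, h1,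
      Matrix.mul_zero]
  -- the bilinear form on the whole space
  obtain ⟨β, hβ⟩ : ∃ β, β = (cK ℂ (b.P i))ᵀ * M * cK ℂ (b.P j) := ⟨_, rfl⟩
  have hHB : HB D β := by
    intro X hX
    have h1 : Xᵀ * (cK ℂ (b.P i))ᵀ = (cK ℂ (b.P i))ᵀ * (b.bl ℂ i X)ᵀ := by
      rw [← transpose_mul, b.prj_mul hX, transpose_mul]
    have h2 : Xᵀ * β = (cK ℂ (b.P i))ᵀ * ((b.bl ℂ i X)ᵀ * M) * cK ℂ (b.P j) := by
      rw [hβ, ← Matrix.mul_assoc, ← Matrix.mul_assoc, h1]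
      simp only [Matrix.mul_assoc]
    have h3 : β * X = (cK ℂ (b.P i))ᵀ * (M * b.bl ℂ j X) * cK ℂ (b.P j) := by
      rw [hβ, Matrix.mul_assoc, b.prj_mul hX]
      simp only [Matrix.mul_assoc]
    rw [h2, h3, ← Matrix.add_mul, ← Matrix.mul_add, hMX X hX, Matrix.mul_zero, Matrix.zero_mul]
  have hspan : bilc β ∈ Submodule.span ℂ {w | ∃ c : (Fin 2 → Fin (NB g) ⊕ Fin (NB g)) → ℚ,
      IsH D c ∧ w = cst ℂ c} := by
    refine mem_span_isH fun X hX => ?_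
    funext I
    rw [act_bilc, hHB _ (cast_mem D hX)]
    rfl
  let Λ : ((Fin 2 → Fin (NB g) ⊕ Fin (NB g)) → ℂ) →ₗ[ℂ]
      Matrix (Fin (g i) ⊕ Fin (g i)) (Fin (g j) ⊕ Fin (g j)) ℂ :=
    { toFun := fun c => cK ℂ (b.P i) * (Matrix.of fun x y => c ![x, y]) * (cK ℂ (b.P j))ᵀ
      map_add' := fun c c' => by
        rw [← Matrix.add_mul, ← Matrix.mul_add]
        rfl
      map_smul' := fun r c => by
        rw [RingHom.id_apply, ← Matrix.smul_mul, ← Matrix.mul_smul]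
        rfl }
  have hΛβ : Λ (bilc β) = M := by
    have h1 : (Matrix.of fun x y => bilc β ![x, y]) = β := rfl
    change cK ℂ (b.P i) * (Matrix.of fun x y => bilc β ![x, y]) * (cK ℂ (b.P j))ᵀ = M
    rw [h1, hβ, ← Matrix.mul_assoc, ← Matrix.mul_assoc, b.sameK, Matrix.one_mul, Matrix.mul_assoc,
      b.sameK, Matrix.mul_one]
  obtain ⟨c, hc', hcΛ⟩ : ∃ c : (Fin 2 → Fin (NB g) ⊕ Fin (NB g)) → ℚ, IsH D c ∧
      Λ (cst ℂ c) ≠ 0 := by
    by_contra hcon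
    push Not at hcon
    apply hM0
    rw [← hΛβ]
    have h1 : Submodule.span ℂ {w | ∃ c : (Fin 2 → Fin (NB g) ⊕ Fin (NB g)) → ℚ,
        IsH D c ∧ w = cst ℂ c} ≤ LinearMap.ker Λ := by
      refine Submodule.span_le.2 ?_
      rintro _ ⟨c, hc, rfl⟩
      exact hcon c hc
    exact h1 hspan
  -- the rational matrix
  obtain ⟨N, hN⟩ : ∃ N : Matrix (Fin (g i) ⊕ Fin (g i)) (Fin (g j) ⊕ Fin (g j)) ℚ,
      N = b.P i * (Matrix.of fun x y => c ![x, y]) * (b.P j)ᵀ := ⟨_, rfl⟩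
  have hNC : cK ℂ N = Λ (cst ℂ c) := by
    rw [hN, cK_mul, cK_mul, cK_transpose]
    rfl
  have hN0 : cK ℂ N ≠ 0 := by
    rw [hNC]
    exact hcΛ
  have hND : (DZ (Z i))ᵀ * cK ℂ N + cK ℂ N * DZ (Z j) = 0 := by
    have h1 : Dᵀ * matF2 c + matF2 c * D = 0 := HB_matF2 hc' D (D_mem D)
    have h2 : Λ (cst ℂ c) = cK ℂ (b.P i) * matF2 c * (cK ℂ (b.P j))ᵀ := rfl
    have h3 : (DZ (Z i))ᵀ * cK ℂ (b.P i) = cK ℂ (b.P i) * Dᵀ := by
      have h4 := b.mul_inc (D_mem D) i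
      rw [b.bl_D i] at h4
      have h5 := congrArg Matrix.transpose h4
      rw [transpose_mul, transpose_mul, transpose_transpose] at h5
      exact h5.symm
    have h4 : (cK ℂ (b.P j))ᵀ * DZ (Z j) = D * (cK ℂ (b.P j))ᵀ := by
      have h5 := b.mul_inc (D_mem D) j
      rw [b.bl_D j] at h5
      exact h5.symm
    have h5 : (DZ (Z i))ᵀ * (cK ℂ (b.P i) * matF2 c * (cK ℂ (b.P j))ᵀ) =
        cK ℂ (b.P i) * (Dᵀ * matF2 c) * (cK ℂ (b.P j))ᵀ := by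
      rw [← Matrix.mul_assoc, ← Matrix.mul_assoc, h3]
      simp only [Matrix.mul_assoc]
    have h6 : (cK ℂ (b.P i) * matF2 c * (cK ℂ (b.P j))ᵀ) * DZ (Z j) =
        cK ℂ (b.P i) * (matF2 c * D) * (cK ℂ (b.P j))ᵀ := by
      rw [Matrix.mul_assoc, h4]
      simp only [Matrix.mul_assoc]
    rw [hNC, h2, h5, h6, ← Matrix.add_mul, ← Matrix.mul_add, h1, Matrix.mul_zero, Matrix.zero_mul]
  have hOi : DZ (Z i) * Om (g i) ℂ = -(Om (g i) ℂ * (DZ (Z i))ᵀ) := by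
    have h1 : (DZ (Z i))ᵀ * Om (g i) ℂ + Om (g i) ℂ * DZ (Z i) = 0 :=
      sp_C (hZ i) _ (D_mem (DZ (Z i)))
    have h2 : Om (g i) ℂ * ((DZ (Z i))ᵀ * Om (g i) ℂ + Om (g i) ℂ * DZ (Z i)) * Om (g i) ℂ = 0 := by
      rw [h1, Matrix.mul_zero, Matrix.zero_mul]
    have h3 : Om (g i) ℂ * ((DZ (Z i))ᵀ * Om (g i) ℂ + Om (g i) ℂ * DZ (Z i)) * Om (g i) ℂ =
        Om (g i) ℂ * (DZ (Z i))ᵀ * (Om (g i) ℂ * Om (g i) ℂ) +
          (Om (g i) ℂ * Om (g i) ℂ) * (DZ (Z i) * Om (g i) ℂ) := by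
      noncomm_ring
    rw [h3, hOm] at h2
    have h4 : Om (g i) ℂ * (DZ (Z i))ᵀ * -1 + -1 * (DZ (Z i) * Om (g i) ℂ) =
        -(DZ (Z i) * Om (g i) ℂ + Om (g i) ℂ * (DZ (Z i))ᵀ) := by noncomm_ring
    rw [h4, neg_eq_zero] at h2
    exact eq_neg_of_add_eq_zero_left h2
  have hOQ : cK ℂ (Om (g i) ℚ) = Om (g i) ℂ := Om_map ℂ
  refine iso_of_comm ((hpos j).isUnit.map Matrix.detMonoidHom)
    ((hpos i).isUnit.map Matrix.detMonoidHom) (hs j) (hs i) (φ := Om (g i) ℚ * N) ?_ ?_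
  · intro h0
    apply hN0
    have h1 : Om (g i) ℚ * (Om (g i) ℚ * N) = 0 := by rw [h0, Matrix.mul_zero]
    rw [← Matrix.mul_assoc, Om_sq, Matrix.neg_mul, Matrix.one_mul, neg_eq_zero] at h1
    rw [h1]
    ext x y
    simp [cK]
  · rw [cK_mul, hOQ, Matrix.mul_assoc, ← Matrix.mul_assoc (DZ (Z i)), hOi, Matrix.neg_mul,
      Matrix.mul_assoc, eq_neg_of_add_eq_zero_left hND, Matrix.mul_neg, neg_neg]

end int

end

end Pool.Agent.K4H35.ST
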