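import Mathlib
import Pool.Agent.K4H35.ST.Iso

/-!
# The number of the isogeny classes of the related factors
-/

set_option linter.unusedSectionVars false

namespace Pool.Agent.K4H35.ST

open Matrix Equiv Module Pool.Agent.H204R3.SP Pool.Agent.H204R3.CM Pool.Agent.W437.HC
  Pool.Agent.W437.HD Pool.Agent.W437.HP Pool.Agent.W437.HR Pool.Agent.TH131.GHC
  Pool.Agent.W437.HQ

noncomputable section

section EE3

variable {S : Type*} [AddCommGroup S] [Module ℂ S] (w : S →ₗ[ℂ] S →ₗ[ℂ] ℂ)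

theorem EE3_zero (halt : ∀ x, w x x = 0) {z z' : S} (hz : w z z' = 1) {α β γ : ℂ}
    (h : α • EE w z z + β • EE w z z' + γ • EE w z' z' = 0) : α = 0 ∧ β = 0 ∧ γ = 0 := by
  have hz' : w z' z = -1 := by
    have h1 := halt (z + z')
    simp only [map_add, LinearMap.add_apply, halt, zero_add, add_zero, hz] at h1
    linear_combination h1
  have h1 := congrArg (fun F : Module.End ℂ S => F z) h
  have h2 := congrArg (fun F : Module.End ℂ S => F z') h
  simp only [LinearMap.add_apply, LinearMap.smul_apply, EE_apply, halt, hz, hz', zero_smul,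
    LinearMap.zero_apply, add_zero, zero_add, one_smul, neg_smul, smul_add, smul_neg, smul_zero]
    at h1 h2
  have h3 := congrArg (fun x => w z x) h1
  have h4 := congrArg (fun x => w x z') h1
  have h5 := congrArg (fun x => w x z') h2
  simp only [map_add, map_neg, map_smul, LinearMap.add_apply, LinearMap.neg_apply,
    LinearMap.smul_apply, halt, hz, smul_eq_mul, map_zero, LinearMap.zero_apply] at h3 h4 h5
  refine ⟨?_, ?_, ?_⟩
  · linear_combination h5 / 2
  · linear_combination -h4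
  · linear_combination -h3 / 2

end EE3

section count

variable {B : Type} [Fintype B] [DecidableEq B] {C : Type} [Fintype C] [DecidableEq C]
  {D : Matrix B B ℂ} {D' : Matrix C C ℂ} {𝒜 : Type} [Fintype 𝒜]
  [DecidableEq 𝒜] {N : 𝒜 → Type} [∀ a, AddCommGroup (N a)] [∀ a, Module ℂ (N a)]
  [∀ a, FiniteDimensional ℂ (N a)] [∀ a, Nontrivial (N a)]

theorem count (h : PolH D) (hS : Simp D) (s : Sys (lieM D ℂ) (brL D) N) {R' : Type} [Fintype R']
    [DecidableEq R'] (a : R' → 𝒜) (ha : ∀ i j, i ≠ j → ¬Lnk s (a i) (a j))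
    (hk : ∀ X : lieM D ℂ, X.1 ∈ kk D D' → ∀ i, s.ρ (a i) X = 0) :
    3 * Fintype.card R' ≤ (Fintype.card C) ^ 2 := by
  classical
  let Fs : gg D D' →ₗ[ℂ] lieM D ℂ :=
    { toFun := fun Y => ⟨Y.1.1, Y.2.1⟩
      map_add' := fun _ _ => rfl
      map_smul' := fun _ _ => rfl }
  let Sn : gg D D' →ₗ[ℂ] Matrix C C ℂ := (LinearMap.snd ℂ _ _) ∘ₗ (gg D D').subtype
  let Φ : gg D D' →ₗ[ℂ] (∀ i, Module.End ℂ (N (a i))) :=
    LinearMap.pi fun i => (s.ρ (a i)) ∘ₗ Fs
  have hFs : ∀ X : lieM D ℂ, ∃ Y, Fs Y = X := by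
    intro X
    have h1 : X.1 ∈ (gg D D').map (LinearMap.fst ℂ (Matrix B B ℂ) (Matrix C C ℂ)) := by
      rw [map_fst_gg h hS]
      exact X.2
    obtain ⟨Y, hY, hYX⟩ := h1
    exact ⟨⟨Y, hY⟩, Subtype.ext hYX⟩
  have hker : LinearMap.ker Sn ≤ LinearMap.ker Φ := by
    intro Y hY
    rw [LinearMap.mem_ker] at hY ⊢
    funext i
    refine hk (Fs Y) (kk_of_gg (C := C) ?_) i
    have h1 : Y.1 = ((Fs Y).1, (0 : Matrix C C ℂ)) := Prod.ext rfl hY
    rw [← h1]
    exact Y.2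
  have hfin : finrank ℂ (LinearMap.range Φ) ≤ finrank ℂ (LinearMap.range Sn) := by
    have h1 := LinearMap.finrank_range_add_finrank_ker Φ
    have h2 := LinearMap.finrank_range_add_finrank_ker Sn
    have h3 := Submodule.finrank_mono hker
    omega
  have hfin2 : finrank ℂ (LinearMap.range Sn) ≤ (Fintype.card C) ^ 2 := by
    refine (Submodule.finrank_le _).trans ?_
    rw [Module.finrank_matrix, finrank_self, mul_one, sq]
  -- the vectors
  have hz : ∀ i, ∃ z z' : N (a i), s.w (a i) z z' = 1 := by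
    intro i
    obtain ⟨z, hz⟩ := exists_ne (0 : N (a i))
    obtain ⟨z', hz'⟩ := exists_pair (s.nd (a i)) hz
    exact ⟨z, z', hz'⟩
  choose z z' hzz using hz
  let v : ∀ i, Fin 3 → Module.End ℂ (N (a i)) := fun i =>
    ![EE (s.w (a i)) (z i) (z i), EE (s.w (a i)) (z i) (z' i), EE (s.w (a i)) (z' i) (z' i)]
  have hv : ∀ i k, ∃ x y, v i k = EE (s.w (a i)) x y := by
    intro i k
    fin_cases k
    exacts [⟨_, _, rfl⟩, ⟨_, _, rfl⟩, ⟨_, _, rfl⟩]
  have hmem : ∀ i k, (Pi.single i (v i k) : ∀ i, Module.End ℂ (N (a i))) ∈ LinearMap.range Φ := by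
    intro i k
    obtain ⟨x, y, hxy⟩ := hv i k
    obtain ⟨X, hX, hX'⟩ := ribet s (a i) ((Finset.univ.erase i).image a) (by
      intro b hb
      obtain ⟨j, hj, rfl⟩ := Finset.mem_image.1 hb
      exact ha i j (Finset.ne_of_mem_erase hj).symm) x y
    obtain ⟨Y, hY⟩ := hFs X
    refine ⟨Y, ?_⟩
    funext j
    change s.ρ (a j) (Fs Y) = _
    rw [hY]
    by_cases hj : j = i
    · subst hj
      rw [hX, Pi.single_eq_same, hxy]
    · rw [Pi.single_eq_of_ne hj]
      exact hX' _ (Finset.mem_image_of_mem _ (Finset.mem_erase.2 ⟨hj, Finset.mem_univ _⟩))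
  let ψ : (R' × Fin 3 → ℂ) →ₗ[ℂ] (∀ i, Module.End ℂ (N (a i))) :=
    { toFun := fun c i => ∑ k, c (i, k) • v i k
      map_add' := fun c c' => by
        funext i
        simp only [Pi.add_apply, add_smul, Finset.sum_add_distrib]
      map_smul' := fun r c => by
        funext i
        simp only [Pi.smul_apply, smul_eq_mul, mul_smul, Finset.smul_sum, RingHom.id_apply] }
  have hψ : ∀ c, ψ c ∈ LinearMap.range Φ := by
    intro c
    have h1 : ψ c = (∑ i : R', ∑ k : Fin 3, (c (i, k) •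
        (Pi.single i (v i k) : ∀ i, Module.End ℂ (N (a i))) : ∀ i, Module.End ℂ (N (a i))) :
          ∀ i, Module.End ℂ (N (a i))) := by
      funext j
      rw [Finset.sum_apply, Finset.sum_eq_single j]
      · rw [Finset.sum_apply]
        change ∑ k, c (j, k) • v j k = _
        refine Finset.sum_congr rfl fun k _ => ?_
        rw [Pi.smul_apply, Pi.single_eq_same]
      · intro i _ hi
        rw [Finset.sum_apply]
        refine Finset.sum_eq_zero fun k _ => ?_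
        rw [Pi.smul_apply, Pi.single_eq_of_ne hi.symm, smul_zero]
      · intro hj
        exact absurd (Finset.mem_univ _) hj
    rw [h1]
    exact Submodule.sum_mem _ fun i _ => Submodule.sum_mem _ fun k _ =>
      Submodule.smul_mem _ _ (hmem i k)
  have hψi : Function.Injective (ψ.codRestrict (LinearMap.range Φ) hψ) := by
    rw [← LinearMap.ker_eq_bot, LinearMap.ker_eq_bot']
    intro c hc
    have h1 : ψ c = 0 := congrArg Subtype.val hc
    have h2 : ∀ i, c (i, 0) = 0 ∧ c (i, 1) = 0 ∧ c (i, 2) = 0 := by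
      intro i
      have h3 := congrFun h1 i
      change ∑ k, c (i, k) • v i k = 0 at h3
      rw [Fin.sum_univ_three] at h3
      exact EE3_zero (s.w (a i)) (s.alt (a i)) (hzz i) h3
    funext ⟨i, k⟩
    obtain ⟨e0, e1, e2⟩ := h2 i
    fin_cases k
    exacts [e0, e1, e2]
  have h1 := LinearMap.finrank_le_finrank_of_injective hψi
  rw [finrank_fintype_fun_eq_card, Fintype.card_prod, Fintype.card_fin] at h1
  omega

end count

section prod

variable {ι : Type} [Fintype ι] [DecidableEq ι] {g : ι → ℕ}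
  (Z : ∀ i, Matrix (Fin (g i)) (Fin (g i)) ℂ) {C : Type} [Fintype C] [DecidableEq C]
  (D' : Matrix C C ℂ)

/-- **The number of related factors**, up to isogeny. -/
theorem card_RR (hZ : ∀ i, (Z i)ᵀ = Z i) (hpos : ∀ i, (imM (Z i)).PosDef)
    (hp : ∀ i, HasPcs (DZ (Z i))) (hs : ∀ i, IsSimpleAV (Z i)) (hg : ∀ i, 0 < g i)
    (R' : Finset ι) (hR : R' ⊆ RR Z D')
    (hni : ∀ i ∈ R', ∀ j ∈ R', i ≠ j → ¬IsIsogenous (Z i) (Z j)) :
    3 * R'.card ≤ (Fintype.card C) ^ 2 := by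
  classical
  have h : PolH (DZ (bigD ℂ Z)) := polOf (bigD_symm hZ) (imM_bigD_posDef Z hpos)
  have hS : Simp (DZ (bigD ℂ Z)) := simp_prod Z hZ hpos hp
  have hint := fun (i j : ι) (T : Matrix (Fin (g j) ⊕ Fin (g j)) (Fin (g i) ⊕ Fin (g i)) ℂ)
    (hT : T ≠ 0) hc => iso_of_int Z hZ hpos hs (i := i) (j := j) (T := T) hT hc
  obtain ⟨b, hb⟩ : ∃ b, b = blocksOf Z hZ hpos := ⟨_, rfl⟩
  have hbP : ∀ i, b.P i = pm g ℚ i := fun i => by rw [hb]; rfl
  have hnd : ∀ i, ∀ X ∈ (lieM (DZ (bigD ℂ Z)) ℚ).map (b.bl ℚ i),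
      (∀ Y ∈ (lieM (DZ (bigD ℂ Z)) ℚ).map (b.bl ℚ i), trace (X * Y) = 0) → X = 0 := by
    rw [hb]
    exact blocksOf_nondeg Z hZ hpos
  have hD2 : ∀ i, DZ (Z i) * DZ (Z i) = 1 :=
    fun i => DZ_sq ((hpos i).isUnit.map Matrix.detMonoidHom)
  rw [← hb] at hint
  choose A hA1 hA2 N w π hst hsum hnt halt hnon hsp hful hπ using hp
  let s : Sys (lieM (DZ (bigD ℂ Z)) ℂ) (brL (DZ (bigD ℂ Z)))
      (N := fun a : (Σ i, A i) => ↥(N a.1 a.2)) :=
    { w := fun a => w a.1 a.2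
      ρ := fun a => (rsN (N a.1 a.2) (hst a.1 a.2)) ∘ₗ b.blL a.1
      alt := fun a x => halt a.1 a.2 x
      nd := fun a x hx => hnon a.1 a.2 x hx
      brk := fun a X Y => by
        rw [LinearMap.comp_apply, b.blL_brL, rsN_brL]
        rfl
      sp := fun a X => hsp a.1 a.2 (b.blL a.1 X)
      full := fun a x y => Blocks.full b a.1 (hnd a.1) (hD2 a.1) (N a.1 a.2) (w a.1 a.2)
        (hst a.1 a.2) (hnt a.1 a.2) (halt a.1 a.2) (hnon a.1 a.2) (hsp a.1 a.2)
        (hful a.1 a.2) x y }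
  have hntn : ∀ a : (Σ i, A i), Nontrivial ↥(N a.1 a.2) := fun a => hnt a.1 a.2
  have hne : ∀ i, ∃ a : A i, ∃ y, π i a y ≠ 0 := by
    intro i
    by_contra hcon
    push Not at hcon
    have h1 := hsum i (Pi.single (Sum.inl ⟨0, hg i⟩) 1)
    have h2 : ∑ a, (π i a (Pi.single (Sum.inl ⟨0, hg i⟩) 1) : Fin (g i) ⊕ Fin (g i) → ℂ) = 0 := by
      refine Finset.sum_eq_zero fun a _ => ?_
      rw [hcon a]
      rfl
    rw [h2] at h1
    have h3 := congrFun h1 (Sum.inl ⟨0, hg i⟩)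
    rw [Pi.single_eq_same] at h3
    exact one_ne_zero h3
  choose a0 y0 hy0 using hne
  have hlnk : ∀ i j, Lnk s ⟨i, a0 i⟩ ⟨j, a0 j⟩ → IsIsogenous (Z j) (Z i) := by
    rintro i j ⟨f, hf, -⟩
    let τ : (Fin (g i) ⊕ Fin (g i) → ℂ) →ₗ[ℂ] (Fin (g j) ⊕ Fin (g j) → ℂ) :=
      (N j (a0 j)).subtype ∘ₗ f.toLinearMap ∘ₗ π i (a0 i)
    have hτ : ∀ y, LinearMap.toMatrix' τ *ᵥ y = (f (π i (a0 i) y) : Fin (g j) ⊕ Fin (g j) → ℂ) := by
      intro y
      rw [LinearMap.toMatrix'_mulVec]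
      rfl
    refine hint i j (LinearMap.toMatrix' τ) ?_ ?_
    · intro h0
      have h1 := hτ (y0 i)
      rw [h0, zero_mulVec] at h1
      have h2 : f (π i (a0 i) (y0 i)) = 0 := Subtype.ext h1.symm
      exact hy0 i ((LinearEquiv.map_eq_zero_iff f).1 h2)
    · intro X hX
      have h1 : ∀ y, (LinearMap.toMatrix' τ * b.bl ℂ i X) *ᵥ y =
          (b.bl ℂ j X * LinearMap.toMatrix' τ) *ᵥ y := by
        intro y
        rw [← mulVec_mulVec, ← mulVec_mulVec, hτ, hτ]
        have h2 : π i (a0 i) (b.bl ℂ i X *ᵥ y) = s.ρ ⟨i, a0 i⟩ ⟨X, hX⟩ (π i (a0 i) y) :=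
          Subtype.ext (hπ i (a0 i) _ (b.bl_mem hX i) y)
        rw [h2, hf]
        rfl
      ext x y
      have h2 := congrFun (h1 (Pi.single y 1)) x
      rw [mulVec_single_one, mulVec_single_one] at h2
      exact h2
  have hcount := count (D' := D') h hS s (R' := R') (fun i => ⟨i.1, a0 i.1⟩) ?_ ?_
  · rwa [Fintype.card_coe] at hcount
  · intro i j hij hl
    exact hni i.1 i.2 j.1 j.2 (fun h' => hij (Subtype.ext h')) (hlnk _ _ hl).symm
  · intro X hX i
    have h1 := (mem_RR Z D').1 (hR i.2) X.1 hX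
    have h2 : b.blL i.1 X = 0 := by
      refine Subtype.ext ?_
      change b.bl ℂ i.1 X.1 = 0
      rw [b.bl_apply, hbP, Matrix.mul_assoc, h1, Matrix.mul_zero]
    change (rsN (N i.1 (a0 i.1)) (hst i.1 (a0 i.1))) (b.blL i.1 X) = 0
    rw [h2, map_zero]

end prod

end

end Pool.Agent.K4H35.ST
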