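import Mathlib
import Pool.Agent.K4H35.ST.Card

/-!
# The related factors of a larger family
-/

set_option linter.unusedSectionVars false

namespace Pool.Agent.K4H35.ST

open Matrix Equiv Module Pool.Agent.H204R3.SP Pool.Agent.H204R3.CM Pool.Agent.W437.HC
  Pool.Agent.W437.HD Pool.Agent.W437.HP Pool.Agent.W437.HR Pool.Agent.TH131.GHC
  Pool.Agent.W437.HQ

noncomputable section

section blk

variable {R : Type} [Fintype R] [DecidableEq R] {B : Type} [Fintype B] [DecidableEq B]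
  {C : Type} [Fintype C] [DecidableEq C] {D : Matrix B B ℂ} {D1 : Matrix R R ℂ}
  {D' : Matrix C C ℂ}

/-- The pullback as a linear map. -/
def pullL {K : Type} [Field K] (κ : Type) [Fintype κ] [DecidableEq κ] (E : Matrix R B K) :
    ((κ → R) → K) →ₗ[K] ((κ → B) → K) where
  toFun := pull E
  map_add' c c' := by
    funext I
    simp only [pull, Pi.add_apply, add_mul, Finset.sum_add_distrib]
  map_smul' r c := by
    funext I
    simp only [pull, Pi.smul_apply, smul_eq_mul, RingHom.id_apply, Finset.mul_sum, mul_assoc]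

/-- The pushforward of a tensor with values. -/
def pushT {κ : Type} [Fintype κ] [DecidableEq κ] (P : Matrix R B ℚ) (t : (κ → R) × C → ℚ) :
    (κ → B) × C → ℚ := fun p => pull P (sl p.2 t) p.1

theorem sl_pushT {κ : Type} [Fintype κ] [DecidableEq κ] (P : Matrix R B ℚ)
    (t : (κ → R) × C → ℚ) (c : C) :
    sl c (cstX (pushT P t)) = pullL κ (cK ℂ P) (sl c (cstX t)) := by
  have h1 : sl c (cstX (pushT P t)) = cst ℂ (pull P (sl c t)) := rfl
  rw [h1, cst_pull]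
  rfl

theorem pushT_HT {κ : Type} [Fintype κ] [DecidableEq κ] {P : Matrix R B ℚ}
    (h : cK ℂ P * D = D1 * cK ℂ P) {t : (κ → R) × C → ℚ} (ht : t ∈ HT D1 D' κ) :
    pushT P t ∈ HT D D' κ := by
  rw [mem_HT] at ht ⊢
  refine ext_sl fun c => ?_
  rw [map_add, sl_opD, sl_opW, sl_pushT]
  have h1 : act D (pullL κ (cK ℂ P) (sl c (cstX t))) =
      pullL κ (cK ℂ P) (act D1 (sl c (cstX t))) := act_pull h _
  have h2 : ∑ c', D' c c' • sl c' (cstX (pushT P t)) =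
      pullL κ (cK ℂ P) (∑ c', D' c c' • sl c' (cstX t)) := by
    rw [map_sum]
    refine Finset.sum_congr rfl fun c' _ => ?_
    rw [map_smul, sl_pushT]
  rw [h1, h2, ← map_add, map_zero]
  have h3 := congrArg (sl c) ht
  rw [map_add, sl_opD, sl_opW, map_zero] at h3
  rw [h3, map_zero]

theorem kk_blk {P : Matrix R B ℚ} {Q : Matrix B R ℚ} (h : cK ℂ P * D = D1 * cK ℂ P)
    (hPQ : P * Q = 1) {X : Matrix B B ℂ} (hX : X ∈ kk D D')
    (hXQ : X * cK ℂ Q = cK ℂ Q * (cK ℂ P * X * cK ℂ Q)) :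
    cK ℂ P * X * cK ℂ Q ∈ kk D1 D' := by
  refine ⟨lieM_blk h hPQ hX.1 hXQ, fun κ _ _ t ht => ?_⟩
  refine ext_sl fun c => ?_
  rw [sl_opD, map_zero]
  have h1 : sl c (cstX t) = pull (cK ℂ Q) (pull (cK ℂ P) (sl c (cstX t))) := by
    rw [pull_pull, ← cK_mul, hPQ, cK_one, pull_one]
  have h2 := congrArg (sl c) (hX.2 κ _ (pushT_HT (C := C) h ht))
  rw [sl_opD, sl_pushT, map_zero] at h2
  have h3 : act X (pull (cK ℂ P) (sl c (cstX t))) = 0 := h2
  rw [h1, act_pull hXQ.symm, h3, pull_zero]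

end blk

section mono

variable {ι : Type} [Fintype ι] [DecidableEq ι] {ι' : Type} [Fintype ι'] [DecidableEq ι']
  {g' : ι' → ℕ} (Z' : ∀ i, Matrix (Fin (g' i)) (Fin (g' i)) ℂ) {C : Type} [Fintype C]
  [DecidableEq C] (D' : Matrix C C ℂ)

theorem mono_RR (hZ : ∀ i, (Z' i)ᵀ = Z' i) (hpos : ∀ i, (imM (Z' i)).PosDef)
    (s : ι → ι') (hs : Function.Injective s) {i : ι}
    (hi : i ∈ RR (fun i => Z' (s i)) D') : s i ∈ RR Z' D' := by
  classical
  rw [mem_RR] at hi ⊢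
  intro X hX
  obtain ⟨b', hb'⟩ : ∃ b, b = blocksOf Z' hZ hpos := ⟨_, rfl⟩
  have hbP' : ∀ i, b'.P i = pm g' ℚ i := fun i => by rw [hb']; rfl
  obtain ⟨b, hb⟩ : ∃ b, b = blocksOf (fun i => Z' (s i)) (fun i => hZ (s i))
    (fun i => hpos (s i)) := ⟨_, rfl⟩
  have hbP : ∀ i, b.P i = pm (fun i => g' (s i)) ℚ i := fun i => by rw [hb]; rfl
  rw [← hbP] at hi
  rw [← hbP']
  -- the maps
  obtain ⟨P, hP⟩ : ∃ P, P = ∑ i, (b.P i)ᵀ * b'.P (s i) := ⟨_, rfl⟩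
  obtain ⟨Q, hQ⟩ : ∃ Q, Q = ∑ i, (b'.P (s i))ᵀ * b.P i := ⟨_, rfl⟩
  have hPi : ∀ j, P * (b'.P (s j))ᵀ = (b.P j)ᵀ := by
    intro j
    rw [hP, Matrix.sum_mul, Finset.sum_eq_single j]
    · rw [Matrix.mul_assoc, b'.same, Matrix.mul_one]
    · intro k _ hk
      rw [Matrix.mul_assoc, b'.off _ _ (fun h => hk (hs h)), Matrix.mul_zero]
    · intro h
      exact absurd (Finset.mem_univ _) h
  have hQi : ∀ j, Q * (b.P j)ᵀ = (b'.P (s j))ᵀ := by
    intro j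
    rw [hQ, Matrix.sum_mul, Finset.sum_eq_single j]
    · rw [Matrix.mul_assoc, b.same, Matrix.mul_one]
    · intro k _ hk
      rw [Matrix.mul_assoc, b.off _ _ hk, Matrix.mul_zero]
    · intro h
      exact absurd (Finset.mem_univ _) h
  have hPQ : P * Q = 1 := by
    rw [hQ, Matrix.mul_sum, ← b.tot]
    refine Finset.sum_congr rfl fun j _ => ?_
    rw [← Matrix.mul_assoc, hPi]
  have hPiK : ∀ j, cK ℂ P * (cK ℂ (b'.P (s j)))ᵀ = (cK ℂ (b.P j))ᵀ := by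
    intro j
    rw [← cK_transpose, ← cK_mul, hPi, cK_transpose]
  have hQiK : ∀ j, cK ℂ Q * (cK ℂ (b.P j))ᵀ = (cK ℂ (b'.P (s j)))ᵀ := by
    intro j
    rw [← cK_transpose, ← cK_mul, hQi, cK_transpose]
  have hPD : cK ℂ P * DZ (bigD ℂ Z') = DZ (bigD ℂ fun i => Z' (s i)) * cK ℂ P := by
    rw [hP, cK_sum, Matrix.sum_mul, Matrix.mul_sum]
    refine Finset.sum_congr rfl fun j _ => ?_
    rw [cK_mul, cK_transpose, Matrix.mul_assoc, b'.com, ← Matrix.mul_assoc, ← Matrix.mul_assoc,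
      b.mul_inc (D_mem _) j, b.bl_D]
  have hXQ : X * cK ℂ Q = cK ℂ Q * (cK ℂ P * X * cK ℂ Q) := by
    have h1 : X * cK ℂ Q = ∑ j, (cK ℂ (b'.P (s j)))ᵀ * (b'.bl ℂ (s j) X * cK ℂ (b.P j)) := by
      rw [hQ, cK_sum, Matrix.mul_sum]
      refine Finset.sum_congr rfl fun j _ => ?_
      rw [cK_mul, cK_transpose, ← Matrix.mul_assoc, b'.mul_inc hX.1, Matrix.mul_assoc]
    rw [Matrix.mul_assoc (cK ℂ P), h1, Matrix.mul_sum, Matrix.mul_sum]
    refine Finset.sum_congr rfl fun j _ => ?_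
    rw [← Matrix.mul_assoc (cK ℂ P), hPiK, ← Matrix.mul_assoc (cK ℂ Q), hQiK]
  have h1 := hi _ (kk_blk hPD hPQ hX hXQ)
  have h2 : cK ℂ P * X * cK ℂ Q * (cK ℂ (b.P i))ᵀ = (cK ℂ (b.P i))ᵀ * b'.bl ℂ (s i) X := by
    rw [Matrix.mul_assoc, hQiK, Matrix.mul_assoc, b'.mul_inc hX.1, ← Matrix.mul_assoc, hPiK]
  rw [h2] at h1
  have h3 : b'.bl ℂ (s i) X = 0 := by
    have h4 : cK ℂ (b.P i) * ((cK ℂ (b.P i))ᵀ * b'.bl ℂ (s i) X) = 0 := by
      rw [h1, Matrix.mul_zero]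
    rwa [← Matrix.mul_assoc, b.sameK, Matrix.one_mul] at h4
  rw [b'.mul_inc hX.1, h3, Matrix.mul_zero]

end mono

end

end Pool.Agent.K4H35.ST
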