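import Mathlib
import Pool.Agent.K4H35.ST.Mono

/-!
# The dimension of the related factors
-/

set_option linter.unusedSectionVars false

namespace Pool.Agent.K4H35.ST

open Matrix Equiv Module Pool.Agent.H204R3.SP Pool.Agent.H204R3.CM Pool.Agent.W437.HC
  Pool.Agent.W437.HD Pool.Agent.W437.HP Pool.Agent.W437.HR Pool.Agent.TH131.GHC
  Pool.Agent.W437.HQ

noncomputable section

section alg

variable {R : Type} [Fintype R] [DecidableEq R] {m : Submodule ℂ (Matrix R R ℂ)}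

/-- The associative algebra generated by a space of matrices. -/
def AL (m : Submodule ℂ (Matrix R R ℂ)) : Subalgebra ℂ (Matrix R R ℂ) :=
  Algebra.adjoin ℂ (m : Set (Matrix R R ℂ))

theorem mem_AL {X : Matrix R R ℂ} (hX : X ∈ m) : X ∈ AL m := Algebra.subset_adjoin hX

theorem AL_aut (hm : ∀ (σ : ℂ ≃+* ℂ), ∀ X ∈ m, X.map σ ∈ m) (σ : ℂ ≃+* ℂ) {X : Matrix R R ℂ}
    (hX : X ∈ AL m) : X.map σ ∈ AL m := by
  unfold AL at hX
  induction hX using Algebra.adjoin_induction with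
  | mem X hX => exact mem_AL (hm σ X hX)
  | algebraMap r =>
    have h1 : (algebraMap ℂ (Matrix R R ℂ) r).map σ = algebraMap ℂ (Matrix R R ℂ) (σ r) := by
      ext i j
      rw [Matrix.map_apply, Matrix.algebraMap_matrix_apply, Matrix.algebraMap_matrix_apply]
      split_ifs
      · rfl
      · exact map_zero σ
    rw [h1]
    exact Subalgebra.algebraMap_mem _ _
  | add X Y _ _ hX hY =>
    rw [Matrix.map_add _ (map_add σ)]
    exact Subalgebra.add_mem _ hX hY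
  | mul X Y _ _ hX hY =>
    have h1 : (X * Y).map σ = X.map σ * Y.map σ := Matrix.map_mul (f := (σ : ℂ →+* ℂ))
    rw [h1]
    exact Subalgebra.mul_mem _ hX hY

theorem AL_stable {N : Submodule ℂ (R → ℂ)} (hst : ∀ X ∈ m, ∀ x ∈ N, X *ᵥ x ∈ N)
    {X : Matrix R R ℂ} (hX : X ∈ AL m) : ∀ x ∈ N, X *ᵥ x ∈ N := by
  unfold AL at hX
  induction hX using Algebra.adjoin_induction with
  | mem X hX => exact hst X hX
  | algebraMap r =>
    intro x hx
    rw [Algebra.algebraMap_eq_smul_one, smul_mulVec, one_mulVec]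
    exact N.smul_mem _ hx
  | add X Y _ _ hX hY =>
    intro x hx
    rw [add_mulVec]
    exact N.add_mem (hX x hx) (hY x hx)
  | mul X Y _ _ hX hY =>
    intro x hx
    rw [← mulVec_mulVec]
    exact hX _ (hY x hx)

/-- A map of a stable subspace which commutes with the matrices commutes with the algebra. -/
theorem AL_kill {N : Submodule ℂ (R → ℂ)} (hst : ∀ X ∈ m, ∀ x ∈ N, X *ᵥ x ∈ N)
    (F : N →ₗ[ℂ] (R → ℂ)) (hF : ∀ X (hX : X ∈ m) (x : N),
      F ⟨X *ᵥ x, hst X hX x x.2⟩ = X *ᵥ F x)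
    {X : Matrix R R ℂ} (hX : X ∈ AL m) : ∀ (x : N) (h : X *ᵥ x ∈ N), F ⟨X *ᵥ x, h⟩ = X *ᵥ F x := by
  unfold AL at hX
  induction hX using Algebra.adjoin_induction with
  | mem X hX => exact fun x _ => hF X hX x
  | algebraMap r =>
    intro x h
    have h1 : (⟨(algebraMap ℂ (Matrix R R ℂ)) r *ᵥ (x : R → ℂ), h⟩ : N) = r • x := by
      refine Subtype.ext ?_
      change (algebraMap ℂ (Matrix R R ℂ)) r *ᵥ (x : R → ℂ) = r • (x : R → ℂ)
      rw [Algebra.algebraMap_eq_smul_one, smul_mulVec, one_mulVec]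
    rw [h1, map_smul, Algebra.algebraMap_eq_smul_one, smul_mulVec, one_mulVec]
  | add X Y hX' hY' hX hY =>
    intro x h
    have h1 : (⟨(X + Y) *ᵥ (x : R → ℂ), h⟩ : N) = ⟨X *ᵥ x, AL_stable hst hX' x x.2⟩ +
        ⟨Y *ᵥ x, AL_stable hst hY' x x.2⟩ := by
      refine Subtype.ext ?_
      change (X + Y) *ᵥ (x : R → ℂ) = X *ᵥ (x : R → ℂ) + Y *ᵥ (x : R → ℂ)
      rw [add_mulVec]
    rw [h1, map_add, hX, hY, add_mulVec]
  | mul X Y hX' hY' hX hY =>
    intro x h
    have h0 : Y *ᵥ (x : R → ℂ) ∈ N := AL_stable hst hY' x x.2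
    have h1 : (⟨(X * Y) *ᵥ (x : R → ℂ), h⟩ : N) =
        ⟨X *ᵥ ((⟨Y *ᵥ x, h0⟩ : N) : R → ℂ), AL_stable hst hX' _ h0⟩ := by
      refine Subtype.ext ?_
      change (X * Y) *ᵥ (x : R → ℂ) = X *ᵥ (Y *ᵥ (x : R → ℂ))
      rw [mulVec_mulVec]
    rw [h1, hX, hY, mulVec_mulVec]

end alg

section simple

variable {g : ℕ} {Z : Matrix (Fin g) (Fin g) ℂ}
  {m : Submodule ℂ (Matrix (Fin g ⊕ Fin g) (Fin g ⊕ Fin g) ℂ)}

theorem dim_le_AL (hY : IsUnit (imM Z).det) (hs : IsSimpleAV Z) (hg : 0 < g)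
    (hm : ∀ (σ : ℂ ≃+* ℂ), ∀ X ∈ m, X.map σ ∈ m) (hD : DZ Z ∈ m) :
    2 * g ≤ finrank ℂ (AL m) := by
  let w0 : Fin g ⊕ Fin g → ℂ := Pi.single (Sum.inl ⟨0, hg⟩) 1
  have hw0 : w0 ≠ 0 := by
    intro h
    have h1 := congrFun h (Sum.inl ⟨0, hg⟩)
    simp only [w0, Pi.single_eq_same, Pi.zero_apply] at h1
    exact one_ne_zero h1
  have hwσ : ∀ σ : ℂ ≃+* ℂ, (fun i => σ (w0 i)) = w0 := by
    intro σ
    funext i
    by_cases hi : i = Sum.inl ⟨0, hg⟩
    · subst hi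
      simp only [w0, Pi.single_eq_same]
      exact map_one σ
    · simp only [w0, Pi.single_eq_of_ne hi]
      exact map_zero σ
  let ev : AL m →ₗ[ℂ] (Fin g ⊕ Fin g → ℂ) :=
    { toFun := fun X => X.1 *ᵥ w0
      map_add' := fun X Y => add_mulVec _ _ _
      map_smul' := fun r X => smul_mulVec _ _ _ }
  have htop : LinearMap.range ev = ⊤ := by
    refine stable_eq_top hY hs _ ?_ ?_ ?_
    · rintro σ _ ⟨X, rfl⟩
      refine ⟨⟨X.1.map σ, AL_aut hm σ X.2⟩, ?_⟩
      change X.1.map σ *ᵥ w0 = fun i => σ ((X.1 *ᵥ w0) i)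
      conv_lhs => rw [← hwσ σ]
      funext i
      simp [mulVec, dotProduct, map_sum]
    · rintro _ ⟨X, rfl⟩
      refine ⟨⟨DZ Z * X.1, Subalgebra.mul_mem _ (mem_AL hD) X.2⟩, ?_⟩
      change (DZ Z * X.1) *ᵥ w0 = DZ Z *ᵥ (X.1 *ᵥ w0)
      rw [mulVec_mulVec]
    · intro h
      apply hw0
      have h1 : ev 1 ∈ LinearMap.range ev := ⟨1, rfl⟩
      rw [h, Submodule.mem_bot] at h1
      have h2 : ev 1 = w0 := one_mulVec w0
      rwa [h2] at h1
  have h1 := LinearMap.finrank_range_le ev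
  rw [htop, finrank_top, finrank_fintype_fun_eq_card, Fintype.card_sum, Fintype.card_fin] at h1
  omega

end simple

section pcs

variable {R : Type} [Fintype R] [DecidableEq R] {m : Submodule ℂ (Matrix R R ℂ)} {A : Type}
  [Fintype A] [DecidableEq A] (N : A → Submodule ℂ (R → ℂ)) (π : ∀ a, (R → ℂ) →ₗ[ℂ] N a)
  (hst : ∀ a, ∀ X ∈ m, ∀ x ∈ N a, X *ᵥ x ∈ N a) (hsum : ∀ y, y = ∑ a, (π a y : R → ℂ))

include hst hsum in
/-- The dimension of the algebra is at most the sum of the squares of the dimensions of the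
pieces which represent all others. -/
theorem AL_le (S : Finset A) (hS : ∀ b, π b ≠ 0 → ∃ a ∈ S, ∃ f : N a ≃ₗ[ℂ] N b,
      ∀ X (hX : X ∈ m) (x : N a), (f ⟨X *ᵥ x, hst a X hX x x.2⟩ : R → ℂ) = X *ᵥ (f x : R → ℂ)) :
    finrank ℂ (AL m) ≤ ∑ a ∈ S, (finrank ℂ (N a)) ^ 2 := by
  classical
  let Res : AL m →ₗ[ℂ] (∀ a : S, N a.1 →ₗ[ℂ] N a.1) :=
    { toFun := fun X a => (mulVecLin X.1).restrict (AL_stable (hst a.1) X.2)
      map_add' := fun X Y => by
        funext a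
        refine LinearMap.ext fun x => Subtype.ext ?_
        exact add_mulVec _ _ _
      map_smul' := fun r X => by
        funext a
        refine LinearMap.ext fun x => Subtype.ext ?_
        exact smul_mulVec _ _ _ }
  have hinj : Function.Injective Res := by
    rw [injective_iff_map_eq_zero]
    intro X hX
    have h1 : ∀ a ∈ S, ∀ x ∈ N a, X.1 *ᵥ x = 0 := by
      intro a ha x hx
      have h2 := congrFun hX ⟨a, ha⟩
      have h3 := congrArg (fun F : N a →ₗ[ℂ] N a => ((F ⟨x, hx⟩ : N a) : R → ℂ)) h2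
      exact h3
    have h2 : ∀ b y, X.1 *ᵥ (π b y : R → ℂ) = 0 := by
      intro b y
      by_cases hb : π b = 0
      · rw [hb]
        change X.1 *ᵥ (0 : R → ℂ) = 0
        rw [mulVec_zero]
      · obtain ⟨a, ha, f, hf⟩ := hS b hb
        have h3 := AL_kill (hst a) ((N b).subtype ∘ₗ f.toLinearMap) hf X.2 (f.symm (π b y))
          (AL_stable (hst a) X.2 _ (f.symm (π b y)).2)
        have h4 : ((N b).subtype ∘ₗ f.toLinearMap) (f.symm (π b y)) = (π b y : R → ℂ) := by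
          change ((f (f.symm (π b y)) : N b) : R → ℂ) = _
          rw [LinearEquiv.apply_symm_apply]
        rw [h4] at h3
        rw [← h3]
        have h5 : (⟨X.1 *ᵥ (f.symm (π b y) : R → ℂ), AL_stable (hst a) X.2 _ (f.symm (π b y)).2⟩ :
            N a) = 0 := Subtype.ext (h1 a ha _ (f.symm (π b y)).2)
        rw [h5, map_zero]
    refine Subtype.ext ?_
    ext i j
    have h3 : X.1 *ᵥ (Pi.single j 1) = 0 := by
      rw [hsum (Pi.single j 1), mulVec_sum]
      exact Finset.sum_eq_zero fun b _ => h2 b _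
    rw [mulVec_single_one] at h3
    exact congrFun h3 i
  have h1 := LinearMap.finrank_le_finrank_of_injective hinj
  have hfree : ∀ i : S, Module.Free ℂ (N i.1 →ₗ[ℂ] N i.1) := fun i => inferInstance
  have hfin : ∀ i : S, Module.Finite ℂ (N i.1 →ₗ[ℂ] N i.1) := fun i => inferInstance
  rw [Module.finrank_pi_fintype] at h1
  have h2 : ∀ a : S, finrank ℂ (N a.1 →ₗ[ℂ] N a.1) = (finrank ℂ (N a.1)) ^ 2 := by
    intro a
    rw [Module.finrank_linearMap, sq]
  rw [Finset.sum_congr rfl (fun a _ => h2 a), Finset.sum_coe_sort S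
    (fun a => (finrank ℂ (N a)) ^ 2)] at h1
  exact h1

end pcs

section basis

variable {S : Type*} [AddCommGroup S] [Module ℂ S] [FiniteDimensional ℂ S]
  (w : S →ₗ[ℂ] S →ₗ[ℂ] ℂ)

/-- The dual basis. -/
theorem exists_dual (halt : ∀ x, w x x = 0) (hnd : ∀ x, (∀ y, w x y = 0) → x = 0)
    {n : ℕ} (e : Basis (Fin n) ℂ S) : ∃ f : Fin n → S, ∀ i k, w (e i) (f k) = if i = k then 1 else 0 := by
  let T : S →ₗ[ℂ] Module.Dual ℂ S := w.flip
  have hanti : ∀ x y, w x y = -w y x := by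
    intro x y
    have h1 := halt (x + y)
    simp only [map_add, LinearMap.add_apply, halt, zero_add, add_zero] at h1
    linear_combination h1
  have hinj : Function.Injective T := by
    rw [injective_iff_map_eq_zero]
    intro y hy
    refine hnd y fun x => ?_
    have h1 : w x y = 0 := congrArg (fun F : Module.Dual ℂ S => F x) hy
    rw [hanti, h1, neg_zero]
  have hsurj : Function.Surjective T :=
    (LinearMap.injective_iff_surjective_of_finrank_eq_finrank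
      (Subspace.dual_finrank_eq (K := ℂ) (V := S)).symm).1 hinj
  choose f hf using fun k => hsurj (e.coord k)
  refine ⟨f, fun i k => ?_⟩
  have h1 : w (e i) (f k) = T (f k) (e i) := rfl
  rw [h1, hf, Basis.coord_apply, Basis.repr_self, Finsupp.single_apply]

/-- The products of the vectors of a basis are linearly independent. -/
theorem EE_indep (halt : ∀ x, w x x = 0) (hnd : ∀ x, (∀ y, w x y = 0) → x = 0)
    {n : ℕ} (e : Basis (Fin n) ℂ S) (c : {p : Fin n × Fin n // p.1 ≤ p.2} → ℂ)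
    (hc : ∑ p, c p • EE w (e p.1.1) (e p.1.2) = 0) : c = 0 := by
  obtain ⟨f, hf⟩ := exists_dual w halt hnd e
  funext p0
  have h1 := congrArg (fun F : Module.End ℂ S => e.coord p0.1.1 (F (f p0.1.2))) hc
  simp only [LinearMap.sum_apply, LinearMap.smul_apply, EE_apply, map_sum, map_smul, map_add,
    LinearMap.zero_apply, map_zero, smul_eq_mul, Basis.coord_apply, Basis.repr_self, hf,
    Finsupp.single_apply] at h1
  rw [Finset.sum_eq_single p0] at h1
  · rw [if_pos rfl, if_pos rfl, mul_one] at h1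
    by_cases hp : p0.1.1 = p0.1.2
    · rw [if_pos hp, if_pos hp.symm] at h1
      rw [Pi.zero_apply]
      linear_combination h1 / 2
    · rw [if_neg hp] at h1
      rw [Pi.zero_apply]
      linear_combination h1
  · intro p _ hp
    rw [mul_eq_zero]
    right
    by_cases h2 : p.1.2 = p0.1.2
    · have h3 : p.1.1 ≠ p0.1.1 := fun h => hp (Subtype.ext (Prod.ext h h2))
      rw [if_neg h3, mul_zero, zero_add]
      by_cases h4 : p.1.1 = p0.1.2
      · have h5 : p.1.2 ≠ p0.1.1 := by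
          intro h
          apply hp
          have e1 : p.1.1 = p.1.2 := by rw [h4, h2]
          exact absurd (by rw [e1, h]) h3
        rw [if_neg h5, mul_zero]
      · rw [if_neg h4, zero_mul]
    · rw [if_neg h2, zero_mul, zero_add]
      by_cases h4 : p.1.1 = p0.1.2
      · have h5 : p.1.2 ≠ p0.1.1 := by
          intro h
          have e1 : p.1.1 ≤ p.1.2 := p.2
          have e2 : p0.1.1 ≤ p0.1.2 := p0.2
          rw [h4, h] at e1
          have e3 := le_antisymm e1 e2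
          exact h2 (by rw [h, e3])
        rw [if_neg h5, mul_zero]
      · rw [if_neg h4, zero_mul]
  · intro h
    exact absurd (Finset.mem_univ _) h

/-- The pairs of indices. -/
abbrev PP (n : ℕ) : Type := {p : Fin n × Fin n // p.1 ≤ p.2}

theorem sq_le_card (n : ℕ) : n ^ 2 ≤ 2 * Fintype.card (PP n) := by
  classical
  let F : Fin n × Fin n → PP n ⊕ PP n :=
    fun p => if h : p.1 ≤ p.2 then Sum.inl ⟨p, h⟩ else Sum.inr ⟨(p.2, p.1), (not_le.1 h).le⟩
  have hF : Function.Injective F := by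
    intro p q h
    by_cases hp : p.1 ≤ p.2 <;> by_cases hq : q.1 ≤ q.2
    · simp only [F, dif_pos hp, dif_pos hq] at h
      exact congrArg Subtype.val (Sum.inl_injective h)
    · simp only [F, dif_pos hp, dif_neg hq] at h
      exact absurd h Sum.inl_ne_inr
    · simp only [F, dif_neg hp, dif_pos hq] at h
      exact absurd h Sum.inr_ne_inl
    · simp only [F, dif_neg hp, dif_neg hq] at h
      have h1 := congrArg Subtype.val (Sum.inr_injective h)
      exact Prod.ext (congrArg Prod.snd h1) (congrArg Prod.fst h1)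
  have h1 := Fintype.card_le_of_injective F hF
  rw [Fintype.card_prod, Fintype.card_fin, Fintype.card_sum] at h1
  rw [sq]
  omega

end basis

section count

variable {B : Type} [Fintype B] [DecidableEq B] {C : Type} [Fintype C] [DecidableEq C]
  {D : Matrix B B ℂ} {D' : Matrix C C ℂ} {𝒜 : Type} [Fintype 𝒜]
  [DecidableEq 𝒜] {N : 𝒜 → Type} [∀ a, AddCommGroup (N a)] [∀ a, Module ℂ (N a)]
  [∀ a, FiniteDimensional ℂ (N a)] [∀ a, Nontrivial (N a)]

theorem count2 (h : PolH D) (hS : Simp D) (s : Sys (lieM D ℂ) (brL D) N) {R' : Type} [Fintype R']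
    [DecidableEq R'] (a : R' → 𝒜) (ha : ∀ i j, i ≠ j → ¬Lnk s (a i) (a j))
    (hk : ∀ X : lieM D ℂ, X.1 ∈ kk D D' → ∀ i, s.ρ (a i) X = 0) :
    ∑ i, (finrank ℂ (N (a i))) ^ 2 ≤ 2 * (Fintype.card C) ^ 2 := by
  classical
  let Fs : gg D D' →ₗ[ℂ] lieM D ℂ :=
    { toFun := fun Y => ⟨Y.1.1, Y.2.1⟩
      map_add' := fun _ _ => rfl
      map_smul' := fun _ _ => rfl }
  let Sn : gg D D' →ₗ[ℂ] Matrix C C ℂ := (LinearMap.snd ℂ _ _) ∘ₗ (gg D D').subtype
  let Φ : gg D D' →ₗ[ℂ] (∀ i, Module.End ℂ (N (a i))) :=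
    LinearMap.pi fun i => (s.ρ (a i)) ∘ₗ Fs
  have hFs : ∀ X : lieM D ℂ, ∃ Y, Fs Y = X := by
    intro X
    have h1 : X.1 ∈ (gg D D').map (LinearMap.fst ℂ (Matrix B B ℂ) (Matrix C C ℂ)) := by
      rw [map_fst_gg h hS]
      exact X.2
    obtain ⟨Y, hY, hYX⟩ := h1
    exact ⟨⟨Y, hY⟩, Subtype.ext hYX⟩
  have hker : LinearMap.ker Sn ≤ LinearMap.ker Φ := by
    intro Y hY
    rw [LinearMap.mem_ker] at hY ⊢
    funext i
    refine hk (Fs Y) (kk_of_gg (C := C) ?_) i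
    have h1 : Y.1 = ((Fs Y).1, (0 : Matrix C C ℂ)) := Prod.ext rfl hY
    rw [← h1]
    exact Y.2
  have hfin : finrank ℂ (LinearMap.range Φ) ≤ finrank ℂ (LinearMap.range Sn) := by
    have h1 := LinearMap.finrank_range_add_finrank_ker Φ
    have h2 := LinearMap.finrank_range_add_finrank_ker Sn
    have h3 := Submodule.finrank_mono hker
    omega
  have hfin2 : finrank ℂ (LinearMap.range Sn) ≤ (Fintype.card C) ^ 2 := by
    refine (Submodule.finrank_le _).trans ?_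
    rw [Module.finrank_matrix, finrank_self, mul_one, sq]
  -- the vectors
  let n : R' → ℕ := fun i => finrank ℂ (N (a i))
  let e : ∀ i, Basis (Fin (n i)) ℂ (N (a i)) := fun i => Module.finBasis ℂ (N (a i))
  let v : ∀ i, PP (n i) → Module.End ℂ (N (a i)) := fun i p => EE (s.w (a i)) (e i p.1.1) (e i p.1.2)
  have hmem : ∀ i k, (Pi.single i (v i k) : ∀ i, Module.End ℂ (N (a i))) ∈ LinearMap.range Φ := by
    intro i k
    obtain ⟨X, hX, hX'⟩ := ribet s (a i) ((Finset.univ.erase i).image a) (by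
      intro b hb
      obtain ⟨j, hj, rfl⟩ := Finset.mem_image.1 hb
      exact ha i j (Finset.ne_of_mem_erase hj).symm) (e i k.1.1) (e i k.1.2)
    obtain ⟨Y, hY⟩ := hFs X
    refine ⟨Y, ?_⟩
    funext j
    change s.ρ (a j) (Fs Y) = _
    rw [hY]
    by_cases hj : j = i
    · subst hj
      rw [hX, Pi.single_eq_same]
    · rw [Pi.single_eq_of_ne hj]
      exact hX' _ (Finset.mem_image_of_mem _ (Finset.mem_erase.2 ⟨hj, Finset.mem_univ _⟩))
  let ψ : ((Σ i, PP (n i)) → ℂ) →ₗ[ℂ] (∀ i, Module.End ℂ (N (a i))) :=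
    { toFun := fun c i => ∑ k, c ⟨i, k⟩ • v i k
      map_add' := fun c c' => by
        funext i
        simp only [Pi.add_apply, add_smul, Finset.sum_add_distrib]
      map_smul' := fun r c => by
        funext i
        simp only [Pi.smul_apply, smul_eq_mul, mul_smul, Finset.smul_sum, RingHom.id_apply] }
  have hψ : ∀ c, ψ c ∈ LinearMap.range Φ := by
    intro c
    have h1 : ψ c = (∑ i : R', ∑ k : PP (n i), (c ⟨i, k⟩ •
        (Pi.single i (v i k) : ∀ i, Module.End ℂ (N (a i))) : ∀ i, Module.End ℂ (N (a i))) :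
          ∀ i, Module.End ℂ (N (a i))) := by
      funext j
      rw [Finset.sum_apply, Finset.sum_eq_single j]
      · rw [Finset.sum_apply]
        change ∑ k, c ⟨j, k⟩ • v j k = _
        refine Finset.sum_congr rfl fun k _ => ?_
        rw [Pi.smul_apply, Pi.single_eq_same]
      · intro i _ hi
        rw [Finset.sum_apply]
        refine Finset.sum_eq_zero fun k _ => ?_
        rw [Pi.smul_apply, Pi.single_eq_of_ne hi.symm, smul_zero]
      · intro hj
        exact absurd (Finset.mem_univ _) hj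
    rw [h1]
    exact Submodule.sum_mem _ fun i _ => Submodule.sum_mem _ fun k _ =>
      Submodule.smul_mem _ _ (hmem i k)
  have hψi : Function.Injective (ψ.codRestrict (LinearMap.range Φ) hψ) := by
    rw [← LinearMap.ker_eq_bot, LinearMap.ker_eq_bot']
    intro c hc
    have h1 : ψ c = 0 := congrArg Subtype.val hc
    funext ⟨i, k⟩
    have h3 := congrFun h1 i
    change ∑ k, c ⟨i, k⟩ • v i k = 0 at h3
    have h4 := EE_indep (s.w (a i)) (s.alt (a i)) (s.nd (a i)) (e i) (fun k => c ⟨i, k⟩) h3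
    exact congrFun h4 k
  have h1 := LinearMap.finrank_le_finrank_of_injective hψi
  rw [finrank_fintype_fun_eq_card, Fintype.card_sigma] at h1
  have h2 : ∑ i, (n i) ^ 2 ≤ 2 * ∑ i, Fintype.card (PP (n i)) := by
    rw [Finset.mul_sum]
    exact Finset.sum_le_sum fun i _ => sq_le_card (n i)
  change ∑ i, (n i) ^ 2 ≤ _
  omega

end count

section prod

variable {ι : Type} [Fintype ι] [DecidableEq ι] {g : ι → ℕ}
  (Z : ∀ i, Matrix (Fin (g i)) (Fin (g i)) ℂ) {C : Type} [Fintype C] [DecidableEq C]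
  (D' : Matrix C C ℂ)

/-- **The dimension of the product of the related factors**, up to isogeny. -/
theorem dim_RR (hZ : ∀ i, (Z i)ᵀ = Z i) (hpos : ∀ i, (imM (Z i)).PosDef)
    (hp : ∀ i, HasPcs (DZ (Z i))) (hs : ∀ i, IsSimpleAV (Z i)) (hg : ∀ i, 0 < g i)
    (R' : Finset ι) (hR : R' ⊆ RR Z D')
    (hni : ∀ i ∈ R', ∀ j ∈ R', i ≠ j → ¬IsIsogenous (Z i) (Z j)) :
    ∑ i ∈ R', g i ≤ (Fintype.card C) ^ 2 := by
  classical
  have h : PolH (DZ (bigD ℂ Z)) := polOf (bigD_symm hZ) (imM_bigD_posDef Z hpos)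
  have hS : Simp (DZ (bigD ℂ Z)) := simp_prod Z hZ hpos hp
  have hint := fun (i j : ι) (T : Matrix (Fin (g j) ⊕ Fin (g j)) (Fin (g i) ⊕ Fin (g i)) ℂ)
    (hT : T ≠ 0) hc => iso_of_int Z hZ hpos hs (i := i) (j := j) (T := T) hT hc
  obtain ⟨b, hb⟩ : ∃ b, b = blocksOf Z hZ hpos := ⟨_, rfl⟩
  have hbP : ∀ i, b.P i = pm g ℚ i := fun i => by rw [hb]; rfl
  have hnd : ∀ i, ∀ X ∈ (lieM (DZ (bigD ℂ Z)) ℚ).map (b.bl ℚ i),
      (∀ Y ∈ (lieM (DZ (bigD ℂ Z)) ℚ).map (b.bl ℚ i), trace (X * Y) = 0) → X = 0 := by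
    rw [hb]
    exact blocksOf_nondeg Z hZ hpos
  have hD2 : ∀ i, DZ (Z i) * DZ (Z i) = 1 :=
    fun i => DZ_sq ((hpos i).isUnit.map Matrix.detMonoidHom)
  rw [← hb] at hint
  choose A hA1 hA2 N w π hst hsum hnt halt hnon hsp hful hπ using hp
  let s : Sys (lieM (DZ (bigD ℂ Z)) ℂ) (brL (DZ (bigD ℂ Z)))
      (N := fun a : (Σ i, A i) => ↥(N a.1 a.2)) :=
    { w := fun a => w a.1 a.2
      ρ := fun a => (rsN (N a.1 a.2) (hst a.1 a.2)) ∘ₗ b.blL a.1
      alt := fun a x => halt a.1 a.2 x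
      nd := fun a x hx => hnon a.1 a.2 x hx
      brk := fun a X Y => by
        rw [LinearMap.comp_apply, b.blL_brL, rsN_brL]
        rfl
      sp := fun a X => hsp a.1 a.2 (b.blL a.1 X)
      full := fun a x y => Blocks.full b a.1 (hnd a.1) (hD2 a.1) (N a.1 a.2) (w a.1 a.2)
        (hst a.1 a.2) (hnt a.1 a.2) (halt a.1 a.2) (hnon a.1 a.2) (hsp a.1 a.2)
        (hful a.1 a.2) x y }
  have hntn : ∀ a : (Σ i, A i), Nontrivial ↥(N a.1 a.2) := fun a => hnt a.1 a.2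
  have hlnk : ∀ (i j : ι) (a : A i) (a' : A j), π i a ≠ 0 → Lnk s ⟨i, a⟩ ⟨j, a'⟩ →
      IsIsogenous (Z j) (Z i) := by
    rintro i j a a' hne ⟨f, hf, -⟩
    let τ : (Fin (g i) ⊕ Fin (g i) → ℂ) →ₗ[ℂ] (Fin (g j) ⊕ Fin (g j) → ℂ) :=
      (N j a').subtype ∘ₗ f.toLinearMap ∘ₗ π i a
    have hτ : ∀ y, LinearMap.toMatrix' τ *ᵥ y = (f (π i a y) : Fin (g j) ⊕ Fin (g j) → ℂ) := by
      intro y
      rw [LinearMap.toMatrix'_mulVec]
      rfl
    refine hint i j (LinearMap.toMatrix' τ) ?_ ?_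
    · intro h0
      apply hne
      refine LinearMap.ext fun y => ?_
      have h1 := hτ y
      rw [h0, zero_mulVec] at h1
      have h2 : f (π i a y) = 0 := Subtype.ext h1.symm
      exact (LinearEquiv.map_eq_zero_iff f).1 h2
    · intro X hX
      have h1 : ∀ y, (LinearMap.toMatrix' τ * b.bl ℂ i X) *ᵥ y =
          (b.bl ℂ j X * LinearMap.toMatrix' τ) *ᵥ y := by
        intro y
        rw [← mulVec_mulVec, ← mulVec_mulVec, hτ, hτ]
        have h2 : π i a (b.bl ℂ i X *ᵥ y) = s.ρ ⟨i, a⟩ ⟨X, hX⟩ (π i a y) :=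
          Subtype.ext (hπ i a _ (b.bl_mem hX i) y)
        rw [h2, hf]
        rfl
      ext x y
      have h2 := congrFun (h1 (Pi.single y 1)) x
      rw [mulVec_single_one, mulVec_single_one] at h2
      exact h2
  -- the representatives
  have hrep : ∀ i, ∃ S : Finset (A i), (∀ a ∈ S, π i a ≠ 0) ∧
      (∀ a ∈ S, ∀ a' ∈ S, a ≠ a' → ¬Lnk s ⟨i, a⟩ ⟨i, a'⟩) ∧
      ∀ b, π i b ≠ 0 → ∃ a ∈ S, Lnk s ⟨i, a⟩ ⟨i, b⟩ := by
    intro i
    have hfin : ∃ S : Finset (A i), ((∀ a ∈ S, π i a ≠ 0) ∧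
        (∀ a ∈ S, ∀ a' ∈ S, a ≠ a' → ¬Lnk s ⟨i, a⟩ ⟨i, a'⟩)) ∧
        ∀ S' : Finset (A i), ((∀ a ∈ S', π i a ≠ 0) ∧
        (∀ a ∈ S', ∀ a' ∈ S', a ≠ a' → ¬Lnk s ⟨i, a⟩ ⟨i, a'⟩)) → S'.card ≤ S.card := by
      obtain ⟨S, hS1, hS2⟩ := Finset.exists_max_image (Finset.univ.filter fun S : Finset (A i) =>
        (∀ a ∈ S, π i a ≠ 0) ∧ (∀ a ∈ S, ∀ a' ∈ S, a ≠ a' → ¬Lnk s ⟨i, a⟩ ⟨i, a'⟩)) Finset.card
        ⟨∅, Finset.mem_filter.2 ⟨Finset.mem_univ _, fun a ha => absurd ha (Finset.notMem_empty a),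
          fun a ha => absurd ha (Finset.notMem_empty a)⟩⟩
      exact ⟨S, (Finset.mem_filter.1 hS1).2, fun S' hS' =>
        hS2 S' (Finset.mem_filter.2 ⟨Finset.mem_univ _, hS'⟩)⟩
    obtain ⟨S, ⟨hS1, hS2⟩, hS3⟩ := hfin
    refine ⟨S, hS1, hS2, fun b hb => ?_⟩
    by_contra hcon
    push Not at hcon
    have hbS : b ∉ S := fun hbS => hcon b hbS (Lnk.refl s _)
    have h1 := hS3 (insert b S) ⟨?_, ?_⟩
    · rw [Finset.card_insert_of_notMem hbS] at h1
      omega
    · intro a ha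
      rcases Finset.mem_insert.1 ha with rfl | ha
      · exact hb
      · exact hS1 a ha
    · intro a ha1 a' ha' haa
      rcases Finset.mem_insert.1 ha1 with rfl | ha
      · rcases Finset.mem_insert.1 ha' with rfl | ha'
        · exact absurd rfl haa
        · exact fun hl => hcon a' ha' (Lnk.symm s hl)
      · rcases Finset.mem_insert.1 ha' with rfl | ha'
        · exact hcon a ha
        · exact hS2 a ha a' ha' haa
  choose S hS1 hS2 hS3 using hrep
  -- the dimension of one factor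
  have hdim : ∀ i, 2 * g i ≤ ∑ a ∈ S i, (finrank ℂ (N i a)) ^ 2 := by
    intro i
    have hm : ∀ (σ : ℂ ≃+* ℂ), ∀ X ∈ (lieM (DZ (bigD ℂ Z)) ℂ).map (b.bl ℂ i),
        X.map σ ∈ (lieM (DZ (bigD ℂ Z)) ℂ).map (b.bl ℂ i) := by
      rintro σ _ ⟨X, hX, rfl⟩
      refine ⟨X.map σ, map_mem_aut hX (σ : ℂ →+* ℂ), ?_⟩
      have h1 : ∀ M : Matrix (Fin (g i) ⊕ Fin (g i)) (Fin (NB g) ⊕ Fin (NB g)) ℚ,
          (cK ℂ M).map σ = cK ℂ M := by
        intro M
        ext x y
        exact map_ratCast σ _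
      change cK ℂ (b.P i) * X.map σ * (cK ℂ (b.P i))ᵀ =
        (cK ℂ (b.P i) * X * (cK ℂ (b.P i))ᵀ).map σ
      have h2 : (cK ℂ (b.P i) * X * (cK ℂ (b.P i))ᵀ).map σ =
          (cK ℂ (b.P i)).map σ * X.map σ * ((cK ℂ (b.P i)).map σ)ᵀ := by
        have h3 : ∀ {m n l : Type} [Fintype n] (M : Matrix m n ℂ) (M' : Matrix n l ℂ),
            (M * M').map σ = M.map σ * M'.map σ := fun M M' => Matrix.map_mul (f := (σ : ℂ →+* ℂ))
        rw [h3, h3]
        rfl
      rw [h2, h1]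
    have hD : DZ (Z i) ∈ (lieM (DZ (bigD ℂ Z)) ℂ).map (b.bl ℂ i) :=
      ⟨_, D_mem _, b.bl_D i⟩
    have hst' : ∀ a, ∀ X ∈ (lieM (DZ (bigD ℂ Z)) ℂ).map (b.bl ℂ i), ∀ x ∈ N i a, X *ᵥ x ∈ N i a := by
      rintro a _ ⟨X, hX, rfl⟩
      exact hst i a _ (b.bl_mem hX i)
    refine (dim_le_AL ((hpos i).isUnit.map Matrix.detMonoidHom) (hs i) (hg i) hm hD).trans ?_
    refine AL_le (N i) (π i) hst' (hsum i) (S i) fun b' hb' => ?_
    obtain ⟨a, ha, f, hf, -⟩ := hS3 i b' hb'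
    refine ⟨a, ha, f, ?_⟩
    rintro _ ⟨X, hX, rfl⟩ x
    exact congrArg Subtype.val (hf ⟨X, hX⟩ x)
  -- the pieces of all factors
  have hcount := count2 (D' := D') h hS s (R' := Σ i : R', S i.1) (fun x => ⟨x.1.1, x.2.1⟩) ?_ ?_
  · rw [Fintype.sum_sigma] at hcount
    have h1 : ∑ i ∈ R', 2 * g i ≤ ∑ i : R', ∑ x : S i.1, (finrank ℂ (N i.1 x.1)) ^ 2 := by
      rw [← Finset.sum_coe_sort R' (fun i => 2 * g i)]
      refine Finset.sum_le_sum fun i _ => ?_
      rw [Finset.sum_coe_sort (S i.1) (fun a => (finrank ℂ (N i.1 a)) ^ 2)]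
      exact hdim i.1
    have h2 := h1.trans hcount
    rw [← Finset.mul_sum] at h2
    omega
  · rintro ⟨i, a⟩ ⟨j, a'⟩ hne hl
    by_cases hij : i = j
    · subst hij
      have haa : a ≠ a' := fun h => hne (by rw [h])
      exact hS2 i.1 a.1 a.2 a'.1 a'.2 (fun h => haa (Subtype.ext h)) hl
    · exact hni i.1 i.2 j.1 j.2 (fun h => hij (Subtype.ext h))
        (hlnk i.1 j.1 a.1 a'.1 (hS1 i.1 a.1 a.2) hl).symm
  · rintro X hX ⟨i, a⟩
    have h1 := (mem_RR Z D').1 (hR i.2) X.1 hX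
    have h2 : b.blL i.1 X = 0 := by
      refine Subtype.ext ?_
      change b.bl ℂ i.1 X.1 = 0
      rw [b.bl_apply, hbP, Matrix.mul_assoc, h1, Matrix.mul_zero]
    change (rsN (N i.1 a.1) (hst i.1 a.1)) (b.blL i.1 X) = 0
    rw [h2, map_zero]

end prod

end

end Pool.Agent.K4H35.ST
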