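import Mathlib
import Pool.Agent.K4H35.ST.Mono

/-!
# The Hodge operators of the powers of a variety
-/

set_option linter.unusedSectionVars false

namespace Pool.Agent.K4H35.ST

open Matrix Equiv Module Pool.Agent.H204R3.SP Pool.Agent.H204R3.CM Pool.Agent.W437.HC
  Pool.Agent.W437.HD Pool.Agent.W437.HP Pool.Agent.W437.HR Pool.Agent.TH131.GHC
  Pool.Agent.W437.HQ

noncomputable section

section der

variable {C : Type} [Fintype C] [DecidableEq C]

/-- The derivation of the tensor power defined by a matrix. -/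
def derM (N : ℕ) (M : Matrix C C ℂ) : Matrix (Fin N → C) (Fin N → C) ℂ :=
  Matrix.of fun I J => ∑ k, if ∀ l, l ≠ k → I l = J l then M (I k) (J k) else 0

theorem derM_apply (N : ℕ) (M : Matrix C C ℂ) (I J : Fin N → C) :
    derM N M I J = ∑ k, if ∀ l, l ≠ k → I l = J l then M (I k) (J k) else 0 := rfl

theorem derM_mulVec (N : ℕ) (M : Matrix C C ℂ) (x : (Fin N → C) → ℂ) :
    derM N M *ᵥ x = act Mᵀ x := by
  funext I
  have h1 : (derM N M *ᵥ x) I = ∑ k, ∑ J, (if ∀ l, l ≠ k → I l = J l then M (I k) (J k) else 0) *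
      x J := by
    rw [Finset.sum_comm]
    simp only [mulVec, dotProduct, derM_apply, Finset.sum_mul]
  rw [h1]
  unfold act
  refine Finset.sum_congr rfl fun k _ => ?_
  have h2 : ∑ J, (if ∀ l, l ≠ k → I l = J l then M (I k) (J k) else 0) * x J =
      ∑ J, ∑ j, if J = Function.update I k j then M (I k) j * x J else 0 := by
    refine Finset.sum_congr rfl fun J _ => ?_
    by_cases hJ : ∀ l, l ≠ k → I l = J l
    · rw [if_pos hJ, Finset.sum_eq_single (J k)]
      · rw [if_pos]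
        funext l
        by_cases hl : l = k
        · subst hl
          rw [Function.update_self]
        · rw [Function.update_of_ne hl, hJ l hl]
      · intro j _ hj
        rw [if_neg]
        intro h
        apply hj
        rw [h, Function.update_self]
      · intro h
        exact absurd (Finset.mem_univ _) h
    · rw [if_neg hJ, zero_mul]
      refine (Finset.sum_eq_zero fun j _ => ?_).symm
      rw [if_neg]
      intro h
      apply hJ
      intro l hl
      rw [h, Function.update_of_ne hl]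
  rw [h2, Finset.sum_comm]
  refine Finset.sum_congr rfl fun j _ => ?_
  rw [Finset.sum_ite_eq' Finset.univ (Function.update I k j), if_pos (Finset.mem_univ _),
    transpose_apply]

theorem mat_ext {X : Type} [Fintype X] [DecidableEq X] {A A' : Matrix X X ℂ}
    (h : ∀ x, A *ᵥ x = A' *ᵥ x) : A = A' := by
  ext i j
  have h1 := congrFun (h (Pi.single j 1)) i
  rw [mulVec_single_one, mulVec_single_one] at h1
  exact h1

theorem derM_add (N : ℕ) (M M' : Matrix C C ℂ) : derM N (M + M') = derM N M + derM N M' := by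
  refine mat_ext fun x => ?_
  rw [add_mulVec, derM_mulVec, derM_mulVec, derM_mulVec, transpose_add, act_add_left]

theorem derM_smul (N : ℕ) (r : ℂ) (M : Matrix C C ℂ) : derM N (r • M) = r • derM N M := by
  refine mat_ext fun x => ?_
  rw [smul_mulVec, derM_mulVec, derM_mulVec, transpose_smul, act_smul_left]

theorem derM_zero (N : ℕ) : derM N (0 : Matrix C C ℂ) = 0 := by
  refine mat_ext fun x => ?_
  rw [zero_mulVec, derM_mulVec, transpose_zero, act_zero_left]

theorem derM_bracket (N : ℕ) (M M' : Matrix C C ℂ) :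
    derM N (M * M' - M' * M) = derM N M * derM N M' - derM N M' * derM N M := by
  refine mat_ext fun x => ?_
  rw [sub_mulVec, ← mulVec_mulVec, ← mulVec_mulVec]
  simp only [derM_mulVec]
  rw [act_comm, transpose_sub, transpose_mul, transpose_mul]

theorem derM_aut (N : ℕ) (σ : ℂ ≃+* ℂ) (M : Matrix C C ℂ) :
    (derM N M).map σ = derM N (M.map σ) := by
  ext I J
  rw [Matrix.map_apply, derM_apply, derM_apply, map_sum]
  refine Finset.sum_congr rfl fun k _ => ?_
  split_ifs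
  · rfl
  · exact map_zero σ

end der

section top

variable {B : Type} [Fintype B] [DecidableEq B] {D : Matrix B B ℂ}

/-- A space of elements of the Hodge Lie algebra which is stable under the automorphisms of the
complex numbers and contains the Hodge operator is the whole Lie algebra. -/
theorem galD_top (h : PolH D) (hS : Simp D) {p : Submodule ℂ (Matrix B B ℂ)} (hk : GalD D p)
    (hDp : D ∈ p) : p = lieM D ℂ := by
  refine le_antisymm hk.le fun W hW => ?_
  obtain ⟨W1, hW1, hW2⟩ := h.cmpl_sum hk hW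
  have hc := h.cmpl_galD hk
  have h1 : D * (W - W1) = 0 := hS p (cmpl D p) hk.le hc.le
    (fun X hX Y hY => h.ideal hk hX hY) (fun X hX Y hY => h.ideal hc hX hY)
    (fun X hX Y hY => h.cmpl_bracket hk hX hY) D hDp _ hW2
  have h2 : W - W1 = 0 := by
    rw [← Matrix.one_mul (W - W1), ← h.dd, Matrix.mul_assoc, h1, Matrix.mul_zero]
  rw [sub_eq_zero.1 h2]
  exact hW1

end top

section inf

variable {B : Type} [Fintype B] [DecidableEq B] {C : Type} [Fintype C] [DecidableEq C]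
  {D : Matrix B B ℂ} {D' : Matrix C C ℂ} {dg : C → ℕ}

/-- The elements of the Hodge Lie algebra which kill the Hodge tensors with values in all tensor
powers. -/
def kkI (D : Matrix B B ℂ) (D' : Matrix C C ℂ) : Submodule ℂ (Matrix B B ℂ) :=
  ⨅ N : ℕ, kk D (derM N D')

theorem mem_kkI {X : Matrix B B ℂ} : X ∈ kkI D D' ↔ ∀ N, X ∈ kk D (derM N D') := by
  unfold kkI
  rw [Submodule.mem_iInf]

/-- The pairs of operators, the second one of degree zero, which kill the Hodge tensors with values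
in all tensor powers. -/
def ggI (D : Matrix B B ℂ) (D' : Matrix C C ℂ) (dg : C → ℕ) :
    Submodule ℂ (Matrix B B ℂ × Matrix C C ℂ) where
  carrier := {Y | (∀ b b', dg b ≠ dg b' → Y.2 b b' = 0) ∧
    ∀ N, (Y.1, derM N Y.2) ∈ gg D (derM N D')}
  zero_mem' := ⟨fun _ _ _ => rfl, fun N => by
    change ((0 : Matrix B B ℂ), derM N (0 : Matrix C C ℂ)) ∈ _
    rw [derM_zero]
    exact Submodule.zero_mem _⟩
  add_mem' := by
    rintro X Y ⟨h1, h2⟩ ⟨h3, h4⟩
    refine ⟨fun b b' h => ?_, fun N => ?_⟩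
    · change X.2 b b' + Y.2 b b' = 0
      rw [h1 b b' h, h3 b b' h, add_zero]
    · change (X.1 + Y.1, derM N (X.2 + Y.2)) ∈ _
      rw [derM_add]
      exact Submodule.add_mem _ (h2 N) (h4 N)
  smul_mem' := by
    rintro r X ⟨h1, h2⟩
    refine ⟨fun b b' h => ?_, fun N => ?_⟩
    · change r * X.2 b b' = 0
      rw [h1 b b' h, mul_zero]
    · change (r • X.1, derM N (r • X.2)) ∈ _
      rw [derM_smul]
      exact Submodule.smul_mem _ r (h2 N)

theorem D_mem_ggI (hgr : ∀ b b', dg b ≠ dg b' → D' b b' = 0) : (D, D') ∈ ggI D D' dg :=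
  ⟨hgr, fun _ => D_mem_gg⟩

theorem kk_of_ggI {X : Matrix B B ℂ} (hX : (X, (0 : Matrix C C ℂ)) ∈ ggI D D' dg) :
    X ∈ kkI D D' := by
  rw [mem_kkI]
  intro N
  have h1 := hX.2 N
  change (X, derM N (0 : Matrix C C ℂ)) ∈ _ at h1
  rw [derM_zero] at h1
  exact kk_of_gg h1

theorem ggI_aut (σ : ℂ ≃+* ℂ) {Y : Matrix B B ℂ × Matrix C C ℂ} (hY : Y ∈ ggI D D' dg) :
    (Y.1.map σ, Y.2.map σ) ∈ ggI D D' dg := by
  refine ⟨fun b b' h => ?_, fun N => ?_⟩
  · change σ (Y.2 b b') = 0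
    rw [hY.1 b b' h, map_zero]
  · change (Y.1.map σ, derM N (Y.2.map σ)) ∈ _
    rw [← derM_aut]
    exact gg_aut σ (hY.2 N)

theorem ggI_dn (hgr : ∀ b b', dg b ≠ dg b' → D' b b' = 0) {Y : Matrix B B ℂ × Matrix C C ℂ}
    (hY : Y ∈ ggI D D' dg) : (D * Y.1 - Y.1 * D, Y.2 * D' - D' * Y.2) ∈ ggI D D' dg := by
  have hmul : ∀ M M' : Matrix C C ℂ, (∀ b b', dg b ≠ dg b' → M b b' = 0) →
      (∀ b b', dg b ≠ dg b' → M' b b' = 0) → ∀ b b', dg b ≠ dg b' → (M * M') b b' = 0 := by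
    intro M M' h h' b b' hb
    rw [Matrix.mul_apply]
    refine Finset.sum_eq_zero fun c _ => ?_
    by_cases hc : dg b = dg c
    · rw [h' c b' (fun h1 => hb (hc.trans h1)), mul_zero]
    · rw [h b c hc, zero_mul]
  refine ⟨fun b b' h => ?_, fun N => ?_⟩
  · change (Y.2 * D' - D' * Y.2) b b' = 0
    rw [Matrix.sub_apply, hmul _ _ hY.1 hgr b b' h, hmul _ _ hgr hY.1 b b' h, sub_zero]
  · change (D * Y.1 - Y.1 * D, derM N (Y.2 * D' - D' * Y.2)) ∈ _
    rw [derM_bracket]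
    exact gg_dn (hY.2 N)

/-- Every element of the Hodge Lie algebra is the first component of such a pair. -/
theorem exists_ggI (h : PolH D) (hS : Simp D) (hgr : ∀ b b', dg b ≠ dg b' → D' b b' = 0)
    {X : Matrix B B ℂ} (hX : X ∈ lieM D ℂ) : ∃ Y ∈ ggI D D' dg, Y.1 = X := by
  have hk : GalD D ((ggI D D' dg).map (LinearMap.fst ℂ (Matrix B B ℂ) (Matrix C C ℂ))) :=
    { le := by
        rintro _ ⟨Y, hY, rfl⟩
        exact (hY.2 0).1
      gal := by
        rintro σ _ ⟨Y, hY, rfl⟩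
        exact ⟨_, ggI_aut σ hY, rfl⟩
      dn := by
        rintro _ ⟨Y, hY, rfl⟩
        exact ⟨_, ggI_dn hgr hY, rfl⟩ }
  have h1 := galD_top h hS hk ⟨(D, D'), D_mem_ggI hgr, rfl⟩
  rw [← h1] at hX
  obtain ⟨Y, hY, hYX⟩ := hX
  exact ⟨Y, hY, hYX⟩

/-- The image of a linear map which kills the pairs with second component zero. -/
theorem finrank_ggI {S : Type} [AddCommGroup S] [Module ℂ S] [FiniteDimensional ℂ S]
    (Φ : ggI D D' dg →ₗ[ℂ] S) (hker : ∀ Y : ggI D D' dg, Y.1.2 = 0 → Φ Y = 0) :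
    finrank ℂ (LinearMap.range Φ) ≤ Fintype.card {p : C × C // dg p.1 = dg p.2} := by
  let Sn : ggI D D' dg →ₗ[ℂ] ({p : C × C // dg p.1 = dg p.2} → ℂ) :=
    { toFun := fun Y p => Y.1.2 p.1.1 p.1.2
      map_add' := fun _ _ => rfl
      map_smul' := fun _ _ => rfl }
  have hk : LinearMap.ker Sn ≤ LinearMap.ker Φ := by
    intro Y hY
    rw [LinearMap.mem_ker] at hY ⊢
    refine hker Y ?_
    ext b b'
    by_cases hb : dg b = dg b'
    · exact congrFun hY ⟨(b, b'), hb⟩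
    · exact Y.2.1 b b' hb
  have h1 := LinearMap.finrank_range_add_finrank_ker Φ
  have h2 := LinearMap.finrank_range_add_finrank_ker Sn
  have h3 := Submodule.finrank_mono hk
  have h4 : finrank ℂ (LinearMap.range Sn) ≤ Fintype.card {p : C × C // dg p.1 = dg p.2} := by
    refine (Submodule.finrank_le _).trans ?_
    rw [finrank_fintype_fun_eq_card]
  omega

end inf

section mono

variable {ι : Type} [Fintype ι] [DecidableEq ι] {g : ι → ℕ}
  (Z : ∀ i, Matrix (Fin (g i)) (Fin (g i)) ℂ) {C : Type} [Fintype C] [DecidableEq C]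
  (D' : Matrix C C ℂ)

open Classical in
/-- The factors which are related to the powers of the variety. -/
def RRI : Finset ι := Finset.univ.filter fun i =>
  ∀ X ∈ kkI (DZ (bigD ℂ Z)) D', X * (cK ℂ (pm g ℚ i))ᵀ = 0

theorem mem_RRI {i : ι} : i ∈ RRI Z D' ↔
    ∀ X ∈ kkI (DZ (bigD ℂ Z)) D', X * (cK ℂ (pm g ℚ i))ᵀ = 0 := by
  classical
  unfold RRI
  exact ⟨fun h => (Finset.mem_filter.1 h).2, fun h => Finset.mem_filter.2 ⟨Finset.mem_univ _, h⟩⟩

variable {ι' : Type} [Fintype ι'] [DecidableEq ι'] {g' : ι' → ℕ}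
  (Z' : ∀ i, Matrix (Fin (g' i)) (Fin (g' i)) ℂ)

theorem mono_RRI (hZ : ∀ i, (Z' i)ᵀ = Z' i) (hpos : ∀ i, (imM (Z' i)).PosDef)
    (s : ι → ι') (hs : Function.Injective s) {i : ι}
    (hi : i ∈ RRI (fun i => Z' (s i)) D') : s i ∈ RRI Z' D' := by
  classical
  rw [mem_RRI] at hi ⊢
  intro X hX
  have hXl : X ∈ lieM (DZ (bigD ℂ Z')) ℂ := (mem_kkI.1 hX 0).1
  obtain ⟨b', hb'⟩ : ∃ b, b = blocksOf Z' hZ hpos := ⟨_, rfl⟩
  have hbP' : ∀ i, b'.P i = pm g' ℚ i := fun i => by rw [hb']; rfl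
  obtain ⟨b, hb⟩ : ∃ b, b = blocksOf (fun i => Z' (s i)) (fun i => hZ (s i))
    (fun i => hpos (s i)) := ⟨_, rfl⟩
  have hbP : ∀ i, b.P i = pm (fun i => g' (s i)) ℚ i := fun i => by rw [hb]; rfl
  rw [← hbP] at hi
  rw [← hbP']
  -- the maps
  obtain ⟨P, hP⟩ : ∃ P, P = ∑ i, (b.P i)ᵀ * b'.P (s i) := ⟨_, rfl⟩
  obtain ⟨Q, hQ⟩ : ∃ Q, Q = ∑ i, (b'.P (s i))ᵀ * b.P i := ⟨_, rfl⟩
  have hPi : ∀ j, P * (b'.P (s j))ᵀ = (b.P j)ᵀ := by
    intro j
    rw [hP, Matrix.sum_mul, Finset.sum_eq_single j]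
    · rw [Matrix.mul_assoc, b'.same, Matrix.mul_one]
    · intro k _ hk
      rw [Matrix.mul_assoc, b'.off _ _ (fun h => hk (hs h)), Matrix.mul_zero]
    · intro h
      exact absurd (Finset.mem_univ _) h
  have hQi : ∀ j, Q * (b.P j)ᵀ = (b'.P (s j))ᵀ := by
    intro j
    rw [hQ, Matrix.sum_mul, Finset.sum_eq_single j]
    · rw [Matrix.mul_assoc, b.same, Matrix.mul_one]
    · intro k _ hk
      rw [Matrix.mul_assoc, b.off _ _ hk, Matrix.mul_zero]
    · intro h
      exact absurd (Finset.mem_univ _) h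
  have hPQ : P * Q = 1 := by
    rw [hQ, Matrix.mul_sum, ← b.tot]
    refine Finset.sum_congr rfl fun j _ => ?_
    rw [← Matrix.mul_assoc, hPi]
  have hPiK : ∀ j, cK ℂ P * (cK ℂ (b'.P (s j)))ᵀ = (cK ℂ (b.P j))ᵀ := by
    intro j
    rw [← cK_transpose, ← cK_mul, hPi, cK_transpose]
  have hQiK : ∀ j, cK ℂ Q * (cK ℂ (b.P j))ᵀ = (cK ℂ (b'.P (s j)))ᵀ := by
    intro j
    rw [← cK_transpose, ← cK_mul, hQi, cK_transpose]
  have hPD : cK ℂ P * DZ (bigD ℂ Z') = DZ (bigD ℂ fun i => Z' (s i)) * cK ℂ P := by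
    rw [hP, cK_sum, Matrix.sum_mul, Matrix.mul_sum]
    refine Finset.sum_congr rfl fun j _ => ?_
    rw [cK_mul, cK_transpose, Matrix.mul_assoc, b'.com, ← Matrix.mul_assoc, ← Matrix.mul_assoc,
      b.mul_inc (D_mem _) j, b.bl_D]
  have hXQ : X * cK ℂ Q = cK ℂ Q * (cK ℂ P * X * cK ℂ Q) := by
    have h1 : X * cK ℂ Q = ∑ j, (cK ℂ (b'.P (s j)))ᵀ * (b'.bl ℂ (s j) X * cK ℂ (b.P j)) := by
      rw [hQ, cK_sum, Matrix.mul_sum]
      refine Finset.sum_congr rfl fun j _ => ?_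
      rw [cK_mul, cK_transpose, ← Matrix.mul_assoc, b'.mul_inc hXl, Matrix.mul_assoc]
    rw [Matrix.mul_assoc (cK ℂ P), h1, Matrix.mul_sum, Matrix.mul_sum]
    refine Finset.sum_congr rfl fun j _ => ?_
    rw [← Matrix.mul_assoc (cK ℂ P), hPiK, ← Matrix.mul_assoc (cK ℂ Q), hQiK]
  have h1 := hi _ (mem_kkI.2 fun N => kk_blk hPD hPQ (mem_kkI.1 hX N) hXQ)
  have h2 : cK ℂ P * X * cK ℂ Q * (cK ℂ (b.P i))ᵀ = (cK ℂ (b.P i))ᵀ * b'.bl ℂ (s i) X := by
    rw [Matrix.mul_assoc, hQiK, Matrix.mul_assoc, b'.mul_inc hXl, ← Matrix.mul_assoc, hPiK]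
  rw [h2] at h1
  have h3 : b'.bl ℂ (s i) X = 0 := by
    have h4 : cK ℂ (b.P i) * ((cK ℂ (b.P i))ᵀ * b'.bl ℂ (s i) X) = 0 := by
      rw [h1, Matrix.mul_zero]
    rwa [← Matrix.mul_assoc, b.sameK, Matrix.one_mul] at h4
  rw [b'.mul_inc hXl, h3, Matrix.mul_zero]

end mono

section reindex

variable {B : Type} [Fintype B] [DecidableEq B] {C : Type} [Fintype C] [DecidableEq C]
  {C' : Type} [Fintype C'] [DecidableEq C'] {D : Matrix B B ℂ}

/-- Renaming of the values. -/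
theorem kk_reindex (e : C' ≃ C) (D' : Matrix C C ℂ) {X : Matrix B B ℂ} (hX : X ∈ kk D D') :
    X ∈ kk D (D'.submatrix e e) := by
  refine ⟨hX.1, fun κ _ _ t ht => ?_⟩
  let t' : (κ → B) × C → ℚ := fun p => t (p.1, e.symm p.2)
  have hsl : ∀ c, sl c (cstX t') = sl (e.symm c) (cstX t) := fun c => rfl
  have ht' : t' ∈ HT D D' κ := by
    rw [mem_HT] at ht ⊢
    refine ext_sl fun c => ?_
    have h1 := congrArg (sl (e.symm c)) ht
    rw [map_add, sl_opD, sl_opW, map_zero] at h1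
    rw [map_add, sl_opD, sl_opW, map_zero, hsl, ← h1]
    congr 1
    rw [← Equiv.sum_comp e]
    refine Finset.sum_congr rfl fun c' _ => ?_
    rw [hsl, Equiv.symm_apply_apply, Matrix.submatrix_apply, Equiv.apply_symm_apply]
  have h2 := hX.2 κ t' ht'
  refine ext_sl fun c' => ?_
  have h3 := congrArg (sl (e c')) h2
  rw [sl_opD, map_zero, hsl, Equiv.symm_apply_apply] at h3
  rw [sl_opD, map_zero, h3]

end reindex

end

end Pool.Agent.K4H35.ST
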