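import Mathlib
import Pool.Agent.K4H35.ST.Pow
import Pool.Agent.K4H35.ST.Dim

/-!
# The dimensions of the Hodge groups of the related factors
-/

set_option linter.unusedSectionVars false

namespace Pool.Agent.K4H35.ST

open Matrix Equiv Module Pool.Agent.H204R3.SP Pool.Agent.H204R3.CM Pool.Agent.W437.HC
  Pool.Agent.W437.HD Pool.Agent.W437.HP Pool.Agent.W437.HR Pool.Agent.TH131.GHC
  Pool.Agent.W437.HQ

noncomputable section

section sys

variable {M : Type} [AddCommGroup M] [Module ℂ M] [FiniteDimensional ℂ M] {br : M → M → M}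
  {𝒜 : Type} [DecidableEq 𝒜] {N : 𝒜 → Type} [∀ a, AddCommGroup (N a)] [∀ a, Module ℂ (N a)]
  [∀ a, FiniteDimensional ℂ (N a)] [∀ a, Nontrivial (N a)]

theorem pp_le (s : Sys M br N) {R' : Type} [Fintype R'] [DecidableEq R'] (a : R' → 𝒜)
    (ha : ∀ i j, i ≠ j → ¬Lnk s (a i) (a j)) :
    ∑ i, (finrank ℂ (N (a i))) ^ 2 ≤ 2 * finrank ℂ M := by
  classical
  let Φ : M →ₗ[ℂ] (∀ i, Module.End ℂ (N (a i))) := LinearMap.pi fun i => s.ρ (a i)
  let n : R' → ℕ := fun i => finrank ℂ (N (a i))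
  let e : ∀ i, Basis (Fin (n i)) ℂ (N (a i)) := fun i => Module.finBasis ℂ (N (a i))
  let v : ∀ i, PP (n i) → Module.End ℂ (N (a i)) := fun i p => EE (s.w (a i)) (e i p.1.1) (e i p.1.2)
  have hmem : ∀ i k, (Pi.single i (v i k) : ∀ i, Module.End ℂ (N (a i))) ∈ LinearMap.range Φ := by
    intro i k
    obtain ⟨X, hX, hX'⟩ := ribet s (a i) ((Finset.univ.erase i).image a) (by
      intro b hb
      obtain ⟨j, hj, rfl⟩ := Finset.mem_image.1 hb
      exact ha i j (Finset.ne_of_mem_erase hj).symm) (e i k.1.1) (e i k.1.2)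
    refine ⟨X, ?_⟩
    funext j
    change s.ρ (a j) X = _
    by_cases hj : j = i
    · subst hj
      rw [hX, Pi.single_eq_same]
    · rw [Pi.single_eq_of_ne hj]
      exact hX' _ (Finset.mem_image_of_mem _ (Finset.mem_erase.2 ⟨hj, Finset.mem_univ _⟩))
  let ψ : ((Σ i, PP (n i)) → ℂ) →ₗ[ℂ] (∀ i, Module.End ℂ (N (a i))) :=
    { toFun := fun c i => ∑ k, c ⟨i, k⟩ • v i k
      map_add' := fun c c' => by
        funext i
        simp only [Pi.add_apply, add_smul, Finset.sum_add_distrib]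
      map_smul' := fun r c => by
        funext i
        simp only [Pi.smul_apply, smul_eq_mul, mul_smul, Finset.smul_sum, RingHom.id_apply] }
  have hψ : ∀ c, ψ c ∈ LinearMap.range Φ := by
    intro c
    have h1 : ψ c = (∑ i : R', ∑ k : PP (n i), (c ⟨i, k⟩ •
        (Pi.single i (v i k) : ∀ i, Module.End ℂ (N (a i))) : ∀ i, Module.End ℂ (N (a i))) :
          ∀ i, Module.End ℂ (N (a i))) := by
      funext j
      rw [Finset.sum_apply, Finset.sum_eq_single j]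
      · rw [Finset.sum_apply]
        change ∑ k, c ⟨j, k⟩ • v j k = _
        refine Finset.sum_congr rfl fun k _ => ?_
        rw [Pi.smul_apply, Pi.single_eq_same]
      · intro i _ hi
        rw [Finset.sum_apply]
        refine Finset.sum_eq_zero fun k _ => ?_
        rw [Pi.smul_apply, Pi.single_eq_of_ne hi.symm, smul_zero]
      · intro hj
        exact absurd (Finset.mem_univ _) hj
    rw [h1]
    exact Submodule.sum_mem _ fun i _ => Submodule.sum_mem _ fun k _ =>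
      Submodule.smul_mem _ _ (hmem i k)
  have hψi : Function.Injective (ψ.codRestrict (LinearMap.range Φ) hψ) := by
    rw [← LinearMap.ker_eq_bot, LinearMap.ker_eq_bot']
    intro c hc
    have h1 : ψ c = 0 := congrArg Subtype.val hc
    funext ⟨i, k⟩
    have h3 := congrFun h1 i
    change ∑ k, c ⟨i, k⟩ • v i k = 0 at h3
    have h4 := EE_indep (s.w (a i)) (s.alt (a i)) (s.nd (a i)) (e i) (fun k => c ⟨i, k⟩) h3
    exact congrFun h4 k
  have h1 := LinearMap.finrank_le_finrank_of_injective hψi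
  rw [finrank_fintype_fun_eq_card, Fintype.card_sigma] at h1
  have h2 : ∑ i, (n i) ^ 2 ≤ 2 * ∑ i, Fintype.card (PP (n i)) := by
    rw [Finset.mul_sum]
    exact Finset.sum_le_sum fun i _ => sq_le_card (n i)
  have h3 := LinearMap.finrank_range_le Φ
  change ∑ i, (n i) ^ 2 ≤ _
  omega

/-- Representatives of the classes of the pieces. -/
theorem exists_rep [Fintype 𝒜] (s : Sys M br N) (Q : 𝒜 → Prop) : ∃ S : Finset 𝒜,
    (∀ a ∈ S, Q a) ∧ (∀ a ∈ S, ∀ a' ∈ S, a ≠ a' → ¬Lnk s a a') ∧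
      ∀ b, Q b → ∃ a ∈ S, Lnk s a b := by
  classical
  have hfin : ∃ S : Finset 𝒜, ((∀ a ∈ S, Q a) ∧
      (∀ a ∈ S, ∀ a' ∈ S, a ≠ a' → ¬Lnk s a a')) ∧
      ∀ S' : Finset 𝒜, ((∀ a ∈ S', Q a) ∧
      (∀ a ∈ S', ∀ a' ∈ S', a ≠ a' → ¬Lnk s a a')) → S'.card ≤ S.card := by
    obtain ⟨S, hS1, hS2⟩ := Finset.exists_max_image (Finset.univ.filter fun S : Finset 𝒜 =>
      (∀ a ∈ S, Q a) ∧ (∀ a ∈ S, ∀ a' ∈ S, a ≠ a' → ¬Lnk s a a')) Finset.card
      ⟨∅, Finset.mem_filter.2 ⟨Finset.mem_univ _, fun a ha => absurd ha (Finset.notMem_empty a),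
        fun a ha => absurd ha (Finset.notMem_empty a)⟩⟩
    exact ⟨S, (Finset.mem_filter.1 hS1).2, fun S' hS' =>
      hS2 S' (Finset.mem_filter.2 ⟨Finset.mem_univ _, hS'⟩)⟩
  obtain ⟨S, ⟨hS1, hS2⟩, hS3⟩ := hfin
  refine ⟨S, hS1, hS2, fun b hb => ?_⟩
  by_contra hcon
  push Not at hcon
  have hbS : b ∉ S := fun hbS => hcon b hbS (Lnk.refl s _)
  have h1 := hS3 (insert b S) ⟨?_, ?_⟩
  · rw [Finset.card_insert_of_notMem hbS] at h1
    omega
  · intro a ha
    rcases Finset.mem_insert.1 ha with rfl | ha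
    · exact hb
    · exact hS1 a ha
  · intro a ha1 a' ha' haa
    rcases Finset.mem_insert.1 ha1 with rfl | ha
    · rcases Finset.mem_insert.1 ha' with rfl | ha'
      · exact absurd rfl haa
      · exact fun hl => hcon a' ha' (Lnk.symm s hl)
    · rcases Finset.mem_insert.1 ha' with rfl | ha'
      · exact hcon a ha
      · exact hS2 a ha a' ha' haa

end sys

section one

variable {R : Type} [Fintype R] [DecidableEq R] {D : Matrix R R ℂ}

theorem simp_one (hp : HasPcs D) : Simp D := by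
  classical
  obtain ⟨A, hA1, hA2, N, w, π, hst, hsum, hnt, halt, hnon, hsp, hful, hπ⟩ := hp
  let s : Sys (lieM D ℂ) (brL D) (N := fun a => ↥(N a)) :=
    { w := w
      ρ := fun a => rsN (N a) (hst a)
      alt := halt
      nd := hnon
      brk := fun a X Y => rsN_brL (N a) (hst a) X Y
      sp := hsp
      full := hful }
  exact simp_of_sys s (fun a => (N a).subtype) π hsum fun a X u => rfl

end one

section simple

variable {g : ℕ} {Z : Matrix (Fin g) (Fin g) ℂ}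

/-- The dimension of the abelian variety is at most the dimension of the Hodge group. -/
theorem g_le_lie (hpos : (imM Z).PosDef) (hs : IsSimpleAV Z)
    (hp : HasPcs (DZ Z)) (hg : 0 < g) : g ≤ finrank ℂ (lieM (DZ Z) ℂ) := by
  classical
  have hY : IsUnit (imM Z).det := hpos.isUnit.map Matrix.detMonoidHom
  obtain ⟨A, hA1, hA2, N, w, π, hst, hsum, hnt, halt, hnon, hsp, hful, hπ⟩ := hp
  let s : Sys (lieM (DZ Z) ℂ) (brL (DZ Z)) (N := fun a => ↥(N a)) :=
    { w := w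
      ρ := fun a => rsN (N a) (hst a)
      alt := halt
      nd := hnon
      brk := fun a X Y => rsN_brL (N a) (hst a) X Y
      sp := hsp
      full := hful }
  obtain ⟨S, -, hS2, hS3⟩ := exists_rep s (fun _ => True)
  have h1 := pp_le s (R' := S) (fun a => a.1)
    (fun i j hij => hS2 i.1 i.2 j.1 j.2 (fun h => hij (Subtype.ext h)))
  have h2 : 2 * g ≤ ∑ a ∈ S, (finrank ℂ (N a)) ^ 2 := by
    refine (dim_le_AL hY hs hg (m := lieM (DZ Z) ℂ)
      (fun σ X hX => map_mem_aut hX (σ : ℂ →+* ℂ)) (D_mem _)).trans ?_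
    refine AL_le N π hst hsum S fun b _ => ?_
    obtain ⟨a, ha, f, hf, -⟩ := hS3 b trivial
    exact ⟨a, ha, f, fun X hX x => congrArg Subtype.val (hf ⟨X, hX⟩ x)⟩
  rw [Finset.sum_coe_sort S (fun a => (finrank ℂ (N a)) ^ 2)] at h1
  omega

end simple

section prod

variable {ι : Type} [Fintype ι] [DecidableEq ι] {g : ι → ℕ}
  (Z : ∀ i, Matrix (Fin (g i)) (Fin (g i)) ℂ) {C : Type} [Fintype C] [DecidableEq C]
  (D' : Matrix C C ℂ) {dg : C → ℕ}

theorem bl_aut {b : Blocks (Fin (NB g) ⊕ Fin (NB g)) (DZ (bigD ℂ Z))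
      (fun i => Fin (g i) ⊕ Fin (g i)) (fun i => DZ (Z i)) (fun i => Om (g i) ℚ)}
    (σ : ℂ ≃+* ℂ) (X : Matrix (Fin (NB g) ⊕ Fin (NB g)) (Fin (NB g) ⊕ Fin (NB g)) ℂ) (i : ι) :
    (b.bl ℂ i X).map σ = b.bl ℂ i (X.map σ) := by
  have h1 : ∀ M : Matrix (Fin (g i) ⊕ Fin (g i)) (Fin (NB g) ⊕ Fin (NB g)) ℚ,
      (cK ℂ M).map σ = cK ℂ M := by
    intro M
    ext x y
    exact map_ratCast σ _
  change (cK ℂ (b.P i) * X * (cK ℂ (b.P i))ᵀ).map σ = cK ℂ (b.P i) * X.map σ * (cK ℂ (b.P i))ᵀ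
  have h2 : (cK ℂ (b.P i) * X * (cK ℂ (b.P i))ᵀ).map σ =
      (cK ℂ (b.P i)).map σ * X.map σ * ((cK ℂ (b.P i)).map σ)ᵀ := by
    have h3 : ∀ {m n l : Type} [Fintype n] (M : Matrix m n ℂ) (M' : Matrix n l ℂ),
        (M * M').map σ = M.map σ * M'.map σ := fun M M' => Matrix.map_mul (f := (σ : ℂ →+* ℂ))
    rw [h3, h3]
    rfl
  rw [h2, h1]

/-- **The dimension of the Hodge group of the product of the related factors**, up to isogeny. -/
theorem dim_RRI (hZ : ∀ i, (Z i)ᵀ = Z i) (hpos : ∀ i, (imM (Z i)).PosDef)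
    (hp : ∀ i, HasPcs (DZ (Z i))) (hs : ∀ i, IsSimpleAV (Z i))
    (hgr : ∀ b b', dg b ≠ dg b' → D' b b' = 0)
    (R' : Finset ι) (hR : R' ⊆ RRI Z D')
    (hni : ∀ i ∈ R', ∀ j ∈ R', i ≠ j → ¬IsIsogenous (Z i) (Z j)) :
    ∑ i ∈ R', finrank ℂ (lieM (DZ (Z i)) ℂ) ≤
      Fintype.card {p : C × C // dg p.1 = dg p.2} := by
  classical
  have h : PolH (DZ (bigD ℂ Z)) := polOf (bigD_symm hZ) (imM_bigD_posDef Z hpos)
  have hS : Simp (DZ (bigD ℂ Z)) := simp_prod Z hZ hpos hp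
  have hint := fun (i j : ι) (T : Matrix (Fin (g j) ⊕ Fin (g j)) (Fin (g i) ⊕ Fin (g i)) ℂ)
    (hT : T ≠ 0) hc => iso_of_int Z hZ hpos hs (i := i) (j := j) (T := T) hT hc
  obtain ⟨b, hb⟩ : ∃ b, b = blocksOf Z hZ hpos := ⟨_, rfl⟩
  have hbP : ∀ i, b.P i = pm g ℚ i := fun i => by rw [hb]; rfl
  have hnd : ∀ i, ∀ X ∈ (lieM (DZ (bigD ℂ Z)) ℚ).map (b.bl ℚ i),
      (∀ Y ∈ (lieM (DZ (bigD ℂ Z)) ℚ).map (b.bl ℚ i), trace (X * Y) = 0) → X = 0 := by
    rw [hb]
    exact blocksOf_nondeg Z hZ hpos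
  have hD2 : ∀ i, DZ (Z i) * DZ (Z i) = 1 :=
    fun i => DZ_sq ((hpos i).isUnit.map Matrix.detMonoidHom)
  rw [← hb] at hint
  have hSi : ∀ i, Simp (DZ (Z i)) := fun i => simp_one (hp i)
  have hPi : ∀ i, PolH (DZ (Z i)) := fun i => polOf (hZ i) (hpos i)
  choose A hA1 hA2 N w π hst hsum hnt halt hnon hsp hful hπ using hp
  let s : Sys (lieM (DZ (bigD ℂ Z)) ℂ) (brL (DZ (bigD ℂ Z)))
      (N := fun a : (Σ i, A i) => ↥(N a.1 a.2)) :=
    { w := fun a => w a.1 a.2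
      ρ := fun a => (rsN (N a.1 a.2) (hst a.1 a.2)) ∘ₗ b.blL a.1
      alt := fun a x => halt a.1 a.2 x
      nd := fun a x hx => hnon a.1 a.2 x hx
      brk := fun a X Y => by
        rw [LinearMap.comp_apply, b.blL_brL, rsN_brL]
        rfl
      sp := fun a X => hsp a.1 a.2 (b.blL a.1 X)
      full := fun a x y => Blocks.full b a.1 (hnd a.1) (hD2 a.1) (N a.1 a.2) (w a.1 a.2)
        (hst a.1 a.2) (hnt a.1 a.2) (halt a.1 a.2) (hnon a.1 a.2) (hsp a.1 a.2)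
        (hful a.1 a.2) x y }
  have hntn : ∀ a : (Σ i, A i), Nontrivial ↥(N a.1 a.2) := fun a => hnt a.1 a.2
  have hlnk : ∀ (i j : ι) (a : A i) (a' : A j), π i a ≠ 0 → Lnk s ⟨i, a⟩ ⟨j, a'⟩ →
      IsIsogenous (Z j) (Z i) := by
    rintro i j a a' hne ⟨f, hf, -⟩
    let τ : (Fin (g i) ⊕ Fin (g i) → ℂ) →ₗ[ℂ] (Fin (g j) ⊕ Fin (g j) → ℂ) :=
      (N j a').subtype ∘ₗ f.toLinearMap ∘ₗ π i a
    have hτ : ∀ y, LinearMap.toMatrix' τ *ᵥ y = (f (π i a y) : Fin (g j) ⊕ Fin (g j) → ℂ) := by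
      intro y
      rw [LinearMap.toMatrix'_mulVec]
      rfl
    refine hint i j (LinearMap.toMatrix' τ) ?_ ?_
    · intro h0
      apply hne
      refine LinearMap.ext fun y => ?_
      have h1 := hτ y
      rw [h0, zero_mulVec] at h1
      have h2 : f (π i a y) = 0 := Subtype.ext h1.symm
      exact (LinearEquiv.map_eq_zero_iff f).1 h2
    · intro X hX
      have h1 : ∀ y, (LinearMap.toMatrix' τ * b.bl ℂ i X) *ᵥ y =
          (b.bl ℂ j X * LinearMap.toMatrix' τ) *ᵥ y := by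
        intro y
        rw [← mulVec_mulVec, ← mulVec_mulVec, hτ, hτ]
        have h2 : π i a (b.bl ℂ i X *ᵥ y) = s.ρ ⟨i, a⟩ ⟨X, hX⟩ (π i a y) :=
          Subtype.ext (hπ i a _ (b.bl_mem hX i) y)
        rw [h2, hf]
        rfl
      ext x y
      have h2 := congrFun (h1 (Pi.single y 1)) x
      rw [mulVec_single_one, mulVec_single_one] at h2
      exact h2
  -- the blocks
  have hDn : ∀ i, ∀ X ∈ lieM (DZ (bigD ℂ Z)) ℂ, b.bl ℂ i (DZ (bigD ℂ Z) * X - X * DZ (bigD ℂ Z)) =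
      DZ (Z i) * b.bl ℂ i X - b.bl ℂ i X * DZ (Z i) := by
    intro i X hX
    rw [b.bl_bracket (D_mem _) hX, b.bl_D]
  have hkey : ∀ i ∈ R', ∀ X ∈ lieM (DZ (Z i)) ℂ, ∃ X' ∈ lieM (DZ (bigD ℂ Z)) ℂ,
      b.bl ℂ i X' = X ∧ ∀ j ∈ R', j ≠ i → b.bl ℂ j X' = 0 := by
    intro i hi
    have hsurj : (lieM (DZ (bigD ℂ Z)) ℂ).map (b.bl ℂ i) = lieM (DZ (Z i)) ℂ := by
      refine galD_top (hPi i) (hSi i) ⟨?_, ?_, ?_⟩ ⟨_, D_mem _, b.bl_D i⟩
      · rintro _ ⟨X, hX, rfl⟩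
        exact b.bl_mem hX i
      · rintro σ _ ⟨X, hX, rfl⟩
        exact ⟨X.map σ, map_mem_aut hX (σ : ℂ →+* ℂ), (bl_aut Z σ X i).symm⟩
      · rintro _ ⟨X, hX, rfl⟩
        exact ⟨_, lieM_bracket _ (D_mem _) hX, hDn i X hX⟩
    let I0 : Submodule ℂ (Matrix (Fin (NB g) ⊕ Fin (NB g)) (Fin (NB g) ⊕ Fin (NB g)) ℂ) :=
      { carrier := {X | X ∈ lieM (DZ (bigD ℂ Z)) ℂ ∧ ∀ j ∈ R', j ≠ i → b.bl ℂ j X = 0}
        zero_mem' := ⟨Submodule.zero_mem _, fun j _ _ => map_zero _⟩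
        add_mem' := by
          rintro X Y ⟨h1, h2⟩ ⟨h3, h4⟩
          exact ⟨Submodule.add_mem _ h1 h3, fun j hj hji => by
            rw [map_add, h2 j hj hji, h4 j hj hji, add_zero]⟩
        smul_mem' := by
          rintro r X ⟨h1, h2⟩
          exact ⟨Submodule.smul_mem _ _ h1, fun j hj hji => by
            rw [map_smul, h2 j hj hji, smul_zero]⟩ }
    have hk : GalD (DZ (Z i)) (I0.map (b.bl ℂ i)) := by
      refine ⟨?_, ?_, ?_⟩
      · rintro _ ⟨X, hX, rfl⟩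
        exact b.bl_mem hX.1 i
      · rintro σ _ ⟨X, hX, rfl⟩
        refine ⟨X.map σ, ⟨map_mem_aut hX.1 (σ : ℂ →+* ℂ), fun j hj hji => ?_⟩, (bl_aut Z σ X i).symm⟩
        rw [← bl_aut, hX.2 j hj hji]
        exact Matrix.map_zero _ (map_zero σ)
      · rintro _ ⟨X, hX, rfl⟩
        refine ⟨_, ⟨lieM_bracket _ (D_mem _) hX.1, fun j hj hji => ?_⟩, hDn i X hX.1⟩
        rw [hDn j X hX.1, hX.2 j hj hji, Matrix.mul_zero, Matrix.zero_mul, sub_zero]
    obtain ⟨D1, hD1, hD2'⟩ := (hPi i).cmpl_sum hk (D_mem (DZ (Z i)))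
    have hc := (hPi i).cmpl_galD hk
    have hkill : ∀ X ∈ I0.map (b.bl ℂ i), X * (DZ (Z i) - D1) = 0 := fun X hX =>
      hSi i (I0.map (b.bl ℂ i)) (cmpl (DZ (Z i)) (I0.map (b.bl ℂ i))) hk.le hc.le
        (fun X hX Y hY => (hPi i).ideal hk hX hY) (fun X hX Y hY => (hPi i).ideal hc hX hY)
        (fun X hX Y hY => (hPi i).cmpl_bracket hk hX hY) X hX _ hD2'
    have hD2l : DZ (Z i) - D1 ∈ lieM (DZ (Z i)) ℂ := hD2'.1
    have hzero : ∀ a, π i a ≠ 0 → ∀ u ∈ N i a, (DZ (Z i) - D1) *ᵥ u = 0 := by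
      intro a ha u hu
      have hu2 : (DZ (Z i) - D1) *ᵥ u ∈ N i a := hst i a _ hD2l u hu
      have h5 : ∀ x : N i a, EE (w i a) x x ⟨_, hu2⟩ = 0 := by
        intro x
        obtain ⟨X', hX1, hX2⟩ := ribet s ⟨i, a⟩ (Finset.univ.filter fun c : (Σ i, A i) =>
          c.1 ∈ R' ∧ c.1 ≠ i ∧ π c.1 c.2 ≠ 0) (by
            rintro ⟨j, c⟩ hc hl
            obtain ⟨-, hj, hji, hc0⟩ := Finset.mem_filter.1 hc
            exact hni j hj i hi hji (hlnk i j a c ha hl)) x x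
        have hmem : X'.1 ∈ I0 := by
          refine ⟨X'.2, fun j hj hji => ?_⟩
          refine mat_ext fun y => ?_
          rw [zero_mulVec]
          conv_lhs => rw [hsum j y]
          rw [mulVec_sum]
          refine Finset.sum_eq_zero fun c _ => ?_
          by_cases hc0 : π j c = 0
          · rw [hc0]
            change b.bl ℂ j X'.1 *ᵥ (0 : Fin (g j) ⊕ Fin (g j) → ℂ) = 0
            rw [mulVec_zero]
          · have h6 := hX2 ⟨j, c⟩ (Finset.mem_filter.2 ⟨Finset.mem_univ _, hj, hji, hc0⟩)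
            exact congrArg (fun F : Module.End ℂ (N j c) => ((F (π j c y) : N j c) :
              Fin (g j) ⊕ Fin (g j) → ℂ)) h6
        have h6 := hkill _ ⟨X'.1, hmem, rfl⟩
        have h7 : b.bl ℂ i X'.1 *ᵥ ((DZ (Z i) - D1) *ᵥ u) = 0 := by
          rw [mulVec_mulVec, h6, zero_mulVec]
        rw [← hX1]
        exact Subtype.ext h7
      have h6 : (⟨_, hu2⟩ : N i a) = 0 := by
        refine hnon i a _ fun x => ?_
        by_cases hx : x = 0
        · rw [hx, map_zero]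
        have h7 := h5 x
        rw [EE_self] at h7
        have h8 := (smul_eq_zero.1 h7).resolve_right hx
        have h9 := (mul_eq_zero.1 h8).resolve_left two_ne_zero
        have h10 := halt i a (x + ⟨_, hu2⟩)
        simp only [map_add, LinearMap.add_apply, halt, zero_add, add_zero, h9] at h10
        exact h10
      exact congrArg Subtype.val h6
    have hD20 : DZ (Z i) - D1 = 0 := by
      refine mat_ext fun y => ?_
      rw [zero_mulVec]
      conv_lhs => rw [hsum i y]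
      rw [mulVec_sum]
      refine Finset.sum_eq_zero fun c _ => ?_
      by_cases hc0 : π i c = 0
      · rw [hc0]
        change _ *ᵥ (0 : Fin (g i) ⊕ Fin (g i) → ℂ) = 0
        rw [mulVec_zero]
      · exact hzero c hc0 _ (π i c y).2
    have hDmem : DZ (Z i) ∈ I0.map (b.bl ℂ i) := by
      rw [sub_eq_zero.1 hD20]
      exact hD1
    have htop := galD_top (hPi i) (hSi i) hk hDmem
    intro X hX
    rw [← htop] at hX
    obtain ⟨X', hX', rfl⟩ := hX
    exact ⟨X', hX'.1, rfl, hX'.2⟩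
  -- the count
  let Φ : ggI (DZ (bigD ℂ Z)) D' dg →ₗ[ℂ]
      (∀ i : R', Matrix (Fin (g i.1) ⊕ Fin (g i.1)) (Fin (g i.1) ⊕ Fin (g i.1)) ℂ) :=
    LinearMap.pi fun i => (b.bl ℂ i.1) ∘ₗ (LinearMap.fst ℂ _ _) ∘ₗ (ggI (DZ (bigD ℂ Z)) D' dg).subtype
  have hcount := finrank_ggI Φ (by
    rintro ⟨Y, hY⟩ hY2
    funext i
    change b.bl ℂ i.1 Y.1 = 0
    have h1 : (Y.1, (0 : Matrix C C ℂ)) ∈ ggI (DZ (bigD ℂ Z)) D' dg := by
      have h2 : Y = (Y.1, (0 : Matrix C C ℂ)) := Prod.ext rfl hY2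
      rw [← h2]
      exact hY
    have h2 := (mem_RRI Z D').1 (hR i.2) Y.1 (kk_of_ggI h1)
    rw [b.bl_apply, hbP, Matrix.mul_assoc, h2, Matrix.mul_zero])
  refine le_trans ?_ hcount
  let J : (∀ i : R', lieM (DZ (Z i.1)) ℂ) →ₗ[ℂ]
      (∀ i : R', Matrix (Fin (g i.1) ⊕ Fin (g i.1)) (Fin (g i.1) ⊕ Fin (g i.1)) ℂ) :=
    { toFun := fun f i => (f i).1
      map_add' := fun _ _ => rfl
      map_smul' := fun _ _ => rfl }
  have hJ : ∀ f, J f ∈ LinearMap.range Φ := by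
    intro f
    have h1 : J f = ∑ i : R', (Pi.single i (f i).1 :
        ∀ i : R', Matrix (Fin (g i.1) ⊕ Fin (g i.1)) (Fin (g i.1) ⊕ Fin (g i.1)) ℂ) := by
      funext j
      rw [Finset.sum_apply, Finset.sum_eq_single j]
      · rw [Pi.single_eq_same]
        rfl
      · intro i _ hij
        rw [Pi.single_eq_of_ne hij.symm]
      · intro hj
        exact absurd (Finset.mem_univ _) hj
    rw [h1]
    refine Submodule.sum_mem _ fun i _ => ?_
    obtain ⟨X', hX', h2, h3⟩ := hkey i.1 i.2 (f i).1 (f i).2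
    obtain ⟨Y, hY, hYX⟩ := exists_ggI (D' := D') h hS hgr hX'
    refine ⟨⟨Y, hY⟩, ?_⟩
    funext j
    change b.bl ℂ j.1 Y.1 = _
    rw [hYX]
    by_cases hj : j = i
    · subst hj
      rw [h2, Pi.single_eq_same]
    · rw [Pi.single_eq_of_ne hj]
      exact h3 j.1 j.2 (fun h' => hj (Subtype.ext h'))
  have hJi : Function.Injective (J.codRestrict (LinearMap.range Φ) hJ) := by
    intro f f' hff
    have h1 : J f = J f' := congrArg Subtype.val hff
    funext i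
    exact Subtype.ext (congrFun h1 i)
  have h1 := LinearMap.finrank_le_finrank_of_injective hJi
  rw [Module.finrank_pi_fintype, Finset.sum_coe_sort R'
    (fun i => finrank ℂ (lieM (DZ (Z i)) ℂ))] at h1
  exact h1

end prod

end

end Pool.Agent.K4H35.ST
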