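import Mathlib

/-!
# Polarized Hodge structures: adapted bases and positivity of the trace form
-/

set_option linter.unusedSectionVars false

namespace Pool.Agent.K4H35.ST

open Module Matrix

open scoped ComplexOrder MatrixOrder Matrix.Norms.L2Operator

noncomputable section

section pol

variable {C : Type} [Fintype C] [DecidableEq C]

/-- The form `Q` is a polarization for the Hodge operator `D'`: it is invariant and positive on the
vectors of each type. -/
structure IsPol (D' Q : Matrix C C ℂ) : Prop where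
  inv : D'ᵀ * Q + Q * D' = 0
  pos : ∀ (k : ℤ) (x : C → ℂ), x ≠ 0 → D' *ᵥ x = (k : ℂ) • x →
    0 < Complex.I ^ k * (star x ⬝ᵥ Q *ᵥ x)

/-- A basis of eigenvectors and the matrix of the polarization. -/
structure Fr (D' Q : Matrix C C ℂ) where
  P : Matrix C C ℂ
  Pi : Matrix C C ℂ
  R : Matrix C C ℂ
  Ri : Matrix C C ℂ
  j : C → ℤ
  PPi : P * Pi = 1
  PiP : Pi * P = 1
  RRi : R * Ri = 1
  RiR : Ri * R = 1
  eig : D' * P = P * diagonal fun a => (j a : ℂ)
  gram : Pᴴ * Q * P = diagonal (fun a => Complex.I ^ (-j a)) * (Rᴴ * R)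
  off : ∀ a b, j a ≠ j b → (Rᴴ * R) a b = 0

theorem exists_sqrtC {n : Type*} [Fintype n] [DecidableEq n] {H : Matrix n n ℂ} (hH : H.PosDef) :
    ∃ y : Matrix n n ℂ, IsUnit y ∧ H = star y * y :=
  CStarAlgebra.isStrictlyPositive_iff_eq_star_mul_self.mp hH.isStrictlyPositive

theorem isHermitian_of_real {n : Type*} [Fintype n] [DecidableEq n] {H : Matrix n n ℂ}
    (h : ∀ x : n → ℂ, star (star x ⬝ᵥ H *ᵥ x) = star x ⬝ᵥ H *ᵥ x) : H.IsHermitian := by
  rw [← isSymmetric_toEuclideanLin_iff, LinearMap.isSymmetric_iff_inner_map_self_real]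
  intro x
  have h1 := h x.ofLp
  have h2 : inner ℂ (H.toEuclideanLin x) x = star (star x.ofLp ⬝ᵥ H *ᵥ x.ofLp) := by
    rw [EuclideanSpace.inner_eq_star_dotProduct, star_dotProduct, star_star, dotProduct_comm]
    rfl
  rw [h2, h1]
  exact h1

theorem exists_fr {D' Q : Matrix C C ℂ} (hreal : D'.map (starRingEnd ℂ) = -D')
    (hdec : ∀ x : C → ℂ, x ∈ Submodule.span ℂ {y | ∃ k : ℤ, D' *ᵥ y = (k : ℂ) • y})
    (hQ : IsPol D' Q) : Nonempty (Fr D' Q) := by
  classical
  -- the basis of eigenvectors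
  have hs : (⊤ : Submodule ℂ (C → ℂ)) ≤ Submodule.span ℂ {y | ∃ k : ℤ, D' *ᵥ y = (k : ℂ) • y} :=
    fun x _ => hdec x
  obtain ⟨b, hb⟩ : ∃ b : Basis C ℂ (C → ℂ), ∀ a, ∃ k : ℤ, D' *ᵥ (b a) = (k : ℂ) • b a := by
    let b0 := Basis.ofSpan hs
    have : Finite ((linearIndepOn_empty ℂ id).extend
      (Set.empty_subset {y : C → ℂ | ∃ k : ℤ, D' *ᵥ y = (k : ℂ) • y})) :=
      Module.Finite.finite_basis b0
    have := Fintype.ofFinite ((linearIndepOn_empty ℂ id).extend
      (Set.empty_subset {y : C → ℂ | ∃ k : ℤ, D' *ᵥ y = (k : ℂ) • y}))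
    have hcard : Fintype.card ((linearIndepOn_empty ℂ id).extend
      (Set.empty_subset {y : C → ℂ | ∃ k : ℤ, D' *ᵥ y = (k : ℂ) • y})) = Fintype.card C := by
      rw [← finrank_eq_card_basis b0, finrank_fintype_fun_eq_card]
    let e := Fintype.equivOfCardEq hcard
    refine ⟨b0.reindex e, fun a => ?_⟩
    rw [Basis.reindex_apply]
    exact Basis.ofSpan_subset hs ⟨_, rfl⟩
  choose j hj using hb
  let P : Matrix C C ℂ := Matrix.of fun i a => b a i
  have hPmul : ∀ ξ : C → ℂ, P *ᵥ ξ = ∑ a, ξ a • b a := by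
    intro ξ
    funext i
    rw [Finset.sum_apply]
    refine Finset.sum_congr rfl fun a _ => ?_
    change b a i * ξ a = ξ a * b a i
    rw [mul_comm]
  have hinj : ∀ ξ : C → ℂ, P *ᵥ ξ = 0 → ξ = 0 := by
    intro ξ hξ
    rw [hPmul] at hξ
    exact funext (Fintype.linearIndependent_iff.1 b.linearIndependent ξ hξ)
  have hPu : IsUnit P := Matrix.mulVec_injective_iff_isUnit.1 (by
    intro x y hxy
    have h1 := hinj (x - y) (by rw [mulVec_sub, hxy, sub_self])
    exact sub_eq_zero.1 h1)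
  obtain ⟨u, hu⟩ := hPu
  have heig : D' * P = P * diagonal fun a => (j a : ℂ) := by
    ext i a
    have h1 := congrFun (hj a) i
    rw [Matrix.mul_apply, mul_diagonal]
    change ∑ c, D' i c * b a c = b a i * (j a : ℂ)
    rw [mul_comm]
    exact h1
  -- the Gram matrix
  obtain ⟨G, hG⟩ : ∃ G, G = Pᴴ * Q * P := ⟨_, rfl⟩
  have hoff : ∀ a c, j a ≠ j c → G a c = 0 := by
    intro a c hac
    have h1 : diagonal (fun a => (j a : ℂ)) * G = G * diagonal fun a => (j a : ℂ) := by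
      have h2 : Pᴴ * D'ᴴ = diagonal (fun a => (j a : ℂ)) * Pᴴ := by
        rw [← conjTranspose_mul, heig, conjTranspose_mul, diagonal_conjTranspose]
        congr 2
        funext a
        simp
      have h3 : D'ᴴ = -D'ᵀ := by
        have h4 : D'ᴴ = (D'.map (starRingEnd ℂ))ᵀ := rfl
        rw [h4, hreal, transpose_neg]
      have h4 : D'ᵀ * Q = -(Q * D') := eq_neg_of_add_eq_zero_left hQ.inv
      calc diagonal (fun a => (j a : ℂ)) * G
          = (diagonal (fun a => (j a : ℂ)) * Pᴴ) * Q * P := by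
            rw [hG]
            simp only [Matrix.mul_assoc]
        _ = -(Pᴴ * (D'ᵀ * Q) * P) := by
            rw [← h2, h3, Matrix.mul_neg, Matrix.neg_mul, Matrix.neg_mul]
            simp only [Matrix.mul_assoc]
        _ = Pᴴ * Q * (D' * P) := by
            rw [h4, Matrix.mul_neg, Matrix.neg_mul, neg_neg]
            simp only [Matrix.mul_assoc]
        _ = G * diagonal fun a => (j a : ℂ) := by
            rw [heig, hG]
            simp only [Matrix.mul_assoc]
    have h2 := congrFun (congrFun h1 a) c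
    rw [diagonal_mul, mul_diagonal] at h2
    have h3 : ((j a : ℂ) - (j c : ℂ)) * G a c = 0 := by linear_combination h2
    refine (mul_eq_zero.1 h3).resolve_left fun h4 => hac ?_
    exact_mod_cast sub_eq_zero.1 h4
  obtain ⟨S, hS⟩ : ∃ S, S = diagonal (fun a => Complex.I ^ (j a)) * G := ⟨_, rfl⟩
  have hpos : ∀ ξ : C → ℂ, ξ ≠ 0 → 0 < star ξ ⬝ᵥ S *ᵥ ξ := by
    intro ξ hξ
    let ξk : ℤ → C → ℂ := fun k a => if j a = k then ξ a else 0
    have h1 : star ξ ⬝ᵥ S *ᵥ ξ = ∑ k ∈ Finset.univ.image j,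
        Complex.I ^ k * (star (P *ᵥ ξk k) ⬝ᵥ Q *ᵥ (P *ᵥ ξk k)) := by
      have h2 : ∀ k, star (P *ᵥ ξk k) ⬝ᵥ Q *ᵥ (P *ᵥ ξk k) = star (ξk k) ⬝ᵥ G *ᵥ (ξk k) := by
        intro k
        rw [star_mulVec, ← dotProduct_mulVec, mulVec_mulVec, mulVec_mulVec, hG,
          Matrix.mul_assoc]
      have h3 : ∀ k, Complex.I ^ k * (star (ξk k) ⬝ᵥ G *ᵥ (ξk k)) =
          ∑ a, if j a = k then star (ξ a) * (S *ᵥ ξ) a else 0 := by
        intro k
        rw [dotProduct, Finset.mul_sum]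
        refine Finset.sum_congr rfl fun a _ => ?_
        by_cases ha : j a = k
        · rw [if_pos ha]
          have h4 : star (ξk k) a = star (ξ a) := by
            change star (if j a = k then ξ a else 0) = _
            rw [if_pos ha]
          have h5 : (S *ᵥ ξ) a = Complex.I ^ k * (G *ᵥ ξk k) a := by
            rw [hS, ← mulVec_mulVec, mulVec_diagonal, ha]
            congr 1
            refine Finset.sum_congr rfl fun c _ => ?_
            change G a c * ξ c = G a c * (if j c = k then ξ c else 0)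
            by_cases hc : j c = k
            · rw [if_pos hc]
            · rw [if_neg hc, mul_zero, hoff a c (fun h => hc (h ▸ ha)), zero_mul]
          rw [h4, h5]
          ring
        · rw [if_neg ha]
          have h4 : star (ξk k) a = 0 := by
            change star (if j a = k then ξ a else 0) = _
            rw [if_neg ha, star_zero]
          rw [h4, zero_mul, mul_zero]
      simp only [h2, h3]
      rw [Finset.sum_comm]
      refine Finset.sum_congr rfl fun a _ => ?_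
      rw [Finset.sum_ite_eq, if_pos (Finset.mem_image_of_mem j (Finset.mem_univ a))]
      rfl
    have h2 : ∀ k, D' *ᵥ (P *ᵥ ξk k) = (k : ℂ) • (P *ᵥ ξk k) := by
      intro k
      rw [mulVec_mulVec, heig, ← mulVec_mulVec, ← mulVec_smul]
      congr 1
      funext a
      rw [mulVec_diagonal]
      change (j a : ℂ) * (if j a = k then ξ a else 0) = (k : ℂ) * (if j a = k then ξ a else 0)
      split_ifs with h
      · rw [h]
      · rw [mul_zero, mul_zero]
    have h3 : ∀ k, 0 ≤ Complex.I ^ k * (star (P *ᵥ ξk k) ⬝ᵥ Q *ᵥ (P *ᵥ ξk k)) := by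
      intro k
      by_cases h0 : P *ᵥ ξk k = 0
      · rw [h0, mulVec_zero, dotProduct_zero, mul_zero]
      · exact (hQ.pos k _ h0 (h2 k)).le
    rw [h1]
    obtain ⟨a, ha⟩ := Function.ne_iff.1 hξ
    refine Finset.sum_pos' (fun k _ => h3 k) ⟨j a, Finset.mem_image_of_mem j (Finset.mem_univ a),
      hQ.pos _ _ (fun h0 => ha ?_) (h2 _)⟩
    have h4 := congrFun (hinj _ h0) a
    change (if j a = j a then ξ a else 0) = 0 at h4
    rw [if_pos rfl] at h4
    exact h4
  have hSp : S.PosDef := by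
    refine posDef_iff_dotProduct_mulVec.2 ⟨isHermitian_of_real fun x => ?_, fun x hx => hpos x hx⟩
    by_cases hx : x = 0
    · rw [hx, mulVec_zero, dotProduct_zero, star_zero]
    · exact (IsSelfAdjoint.of_nonneg (hpos x hx).le).star_eq
  obtain ⟨R, hR, hSR⟩ := exists_sqrtC hSp
  obtain ⟨w, hw⟩ := hR
  have hΔ : (diagonal (fun a => Complex.I ^ (-j a)) * diagonal (fun a => Complex.I ^ (j a)) :
      Matrix C C ℂ) = 1 := by
    rw [diagonal_mul_diagonal, ← diagonal_one]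
    congr 1
    funext a
    rw [← zpow_add₀ Complex.I_ne_zero, neg_add_cancel, zpow_zero]
  refine ⟨⟨P, ↑u⁻¹, R, ↑w⁻¹, j, ?_, ?_, ?_, ?_, heig, ?_, ?_⟩⟩
  · rw [← hu]
    exact u.mul_inv
  · rw [← hu]
    exact u.inv_mul
  · rw [← hw]
    exact w.mul_inv
  · rw [← hw]
    exact w.inv_mul
  · have h1 : Rᴴ * R = S := by rw [hSR]; rfl
    rw [h1, hS, ← Matrix.mul_assoc, hΔ, Matrix.one_mul, hG]
  · intro a c hac
    have h1 : Rᴴ * R = S := by rw [hSR]; rfl
    rw [h1, hS, diagonal_mul, hoff a c hac, mul_zero]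

/-- **Positivity of the trace form.** -/
theorem Fr.trace_pos {D' Q : Matrix C C ℂ} (f : Fr D' Q) (hQr : Q.map (starRingEnd ℂ) = Q)
    {M : Matrix C C ℂ} (hM : Mᵀ * Q + Q * M = 0) {k : ℤ} (hk : D' * M - M * D' = (k : ℂ) • M)
    (ht : trace (M * M.map (starRingEnd ℂ)) = 0) : M = 0 := by
  obtain ⟨N, hN⟩ : ∃ N, N = f.Pi * M * f.P := ⟨_, rfl⟩
  obtain ⟨N', hN'⟩ : ∃ N', N' = f.Pi * M.map (starRingEnd ℂ) * f.P := ⟨_, rfl⟩
  obtain ⟨Δ, hΔ⟩ : ∃ Δ : Matrix C C ℂ, Δ = diagonal (fun a => Complex.I ^ (f.j a)) := ⟨_, rfl⟩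
  obtain ⟨Δ', hΔ'⟩ : ∃ Δ' : Matrix C C ℂ, Δ' = diagonal (fun a => Complex.I ^ (-f.j a)) := ⟨_, rfl⟩
  obtain ⟨S, hS⟩ : ∃ S, S = f.Rᴴ * f.R := ⟨_, rfl⟩
  obtain ⟨Si, hSi⟩ : ∃ Si, Si = f.Ri * f.Riᴴ := ⟨_, rfl⟩
  have hSS : S * Si = 1 := by
    rw [hS, hSi, Matrix.mul_assoc, ← Matrix.mul_assoc f.R, f.RRi, Matrix.one_mul,
      ← conjTranspose_mul, f.RiR, conjTranspose_one]
  have hSiS : Si * S = 1 := mul_eq_one_comm.1 hSS
  have hΔΔ : Δ * Δ' = 1 := by
    rw [hΔ, hΔ', diagonal_mul_diagonal, ← diagonal_one]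
    congr 1
    funext a
    rw [← zpow_add₀ Complex.I_ne_zero, add_neg_cancel, zpow_zero]
  have hG : f.Pᴴ * Q * f.P = Δ' * S := by rw [hΔ', hS]; exact f.gram
  -- the conjugate
  have hMH : Mᴴ * Q = -(Q * M.map (starRingEnd ℂ)) := by
    have h1 := congrArg (fun X : Matrix C C ℂ => X.map (starRingEnd ℂ)) hM
    simp only [Matrix.map_add _ (map_add (starRingEnd ℂ)), Matrix.map_mul, hQr,
      Matrix.map_zero _ (map_zero (starRingEnd ℂ))] at h1
    exact eq_neg_of_add_eq_zero_left h1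
  have hNG : Nᴴ * (Δ' * S) = -((Δ' * S) * N') := by
    rw [← hG, hN, hN', conjTranspose_mul, conjTranspose_mul]
    have h1 : f.Piᴴ * f.Pᴴ = 1 := by rw [← conjTranspose_mul, f.PPi, conjTranspose_one]
    have h2 : f.Pᴴ * (Mᴴ * f.Piᴴ) * (f.Pᴴ * Q * f.P) = f.Pᴴ * (Mᴴ * Q) * f.P := by
      calc f.Pᴴ * (Mᴴ * f.Piᴴ) * (f.Pᴴ * Q * f.P)
          = f.Pᴴ * (Mᴴ * ((f.Piᴴ * f.Pᴴ) * Q)) * f.P := by simp only [Matrix.mul_assoc]
        _ = f.Pᴴ * (Mᴴ * Q) * f.P := by rw [h1, Matrix.one_mul]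
    have h3 : f.Pᴴ * Q * f.P * (f.Pi * M.map (starRingEnd ℂ) * f.P) =
        f.Pᴴ * (Q * M.map (starRingEnd ℂ)) * f.P := by
      calc f.Pᴴ * Q * f.P * (f.Pi * M.map (starRingEnd ℂ) * f.P)
          = f.Pᴴ * (Q * ((f.P * f.Pi) * M.map (starRingEnd ℂ))) * f.P := by
            simp only [Matrix.mul_assoc]
        _ = f.Pᴴ * (Q * M.map (starRingEnd ℂ)) * f.P := by rw [f.PPi, Matrix.one_mul]
    rw [h2, h3, hMH, Matrix.mul_neg, Matrix.neg_mul]
  -- the degree
  have hNd : ∀ a b, ((f.j a : ℂ) - f.j b) * N a b = k * N a b := by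
    have h1 : f.Pi * D' = diagonal (fun a => (f.j a : ℂ)) * f.Pi := by
      have h2 : f.Pi * (D' * f.P) * f.Pi = f.Pi * (f.P * diagonal fun a => (f.j a : ℂ)) * f.Pi := by
        rw [f.eig]
      rw [← Matrix.mul_assoc, Matrix.mul_assoc _ f.P f.Pi, f.PPi, Matrix.mul_one,
        ← Matrix.mul_assoc f.Pi f.P, f.PiP, Matrix.one_mul] at h2
      exact h2
    have h2 : diagonal (fun a => (f.j a : ℂ)) * N - N * diagonal (fun a => (f.j a : ℂ)) =
        (k : ℂ) • N := by
      have h3 : f.Pi * (D' * M - M * D') * f.P = f.Pi * ((k : ℂ) • M) * f.P := by rw [hk]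
      rw [Matrix.mul_sub, Matrix.sub_mul, ← Matrix.mul_assoc, h1, Matrix.mul_smul,
        Matrix.smul_mul] at h3
      rw [hN, ← h3]
      congr 1
      · simp only [Matrix.mul_assoc]
      · simp only [Matrix.mul_assoc, f.eig]
    intro a b
    have h3 := congrFun (congrFun h2 a) b
    rw [Matrix.sub_apply, diagonal_mul, mul_diagonal, Matrix.smul_apply, smul_eq_mul] at h3
    linear_combination h3
  have hΔN : Δ * Nᴴ * Δ' = Complex.I ^ (-k) • Nᴴ := by
    ext a b
    rw [hΔ, hΔ', mul_diagonal, diagonal_mul, Matrix.smul_apply, conjTranspose_apply, smul_eq_mul]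
    by_cases h0 : N b a = 0
    · rw [h0, star_zero, mul_zero, zero_mul, mul_zero]
    · have h1 : f.j b - f.j a = k := by
        have h2 := mul_right_cancel₀ h0 (hNd b a)
        exact_mod_cast h2
      have h2 : -k = f.j a + (-f.j b) := by omega
      rw [h2, zpow_add₀ Complex.I_ne_zero]
      ring
  -- the trace
  have hN'e : N' = -(Complex.I ^ (-k) • (Si * Nᴴ * S)) := by
    have h1 : Si * (Δ * (Nᴴ * (Δ' * S))) = -N' := by
      rw [hNG, Matrix.mul_neg, Matrix.mul_neg, ← Matrix.mul_assoc Δ, ← Matrix.mul_assoc Δ, hΔΔ,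
        Matrix.one_mul, ← Matrix.mul_assoc, hSiS, Matrix.one_mul]
    have h2 : Si * (Δ * (Nᴴ * (Δ' * S))) = Si * (Δ * Nᴴ * Δ') * S := by
      simp only [Matrix.mul_assoc]
    rw [h2, hΔN, Matrix.mul_smul, Matrix.smul_mul] at h1
    rw [h1, neg_neg]
  have htr : trace (M * M.map (starRingEnd ℂ)) = trace (N * N') := by
    have h1 : N * N' = f.Pi * (M * M.map (starRingEnd ℂ)) * f.P := by
      rw [hN, hN']
      calc f.Pi * M * f.P * (f.Pi * M.map (starRingEnd ℂ) * f.P)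
          = f.Pi * (M * ((f.P * f.Pi) * M.map (starRingEnd ℂ))) * f.P := by
            simp only [Matrix.mul_assoc]
        _ = _ := by rw [f.PPi, Matrix.one_mul]
    rw [h1, trace_mul_comm (f.Pi * (M * M.map (starRingEnd ℂ))) f.P, ← Matrix.mul_assoc, f.PPi,
      Matrix.one_mul]
  rw [htr, hN'e, Matrix.mul_neg, Matrix.mul_smul, trace_neg, trace_smul, neg_eq_zero,
    smul_eq_zero] at ht
  have ht' := ht.resolve_left (zpow_ne_zero _ Complex.I_ne_zero)
  obtain ⟨W, hW⟩ : ∃ W, W = f.R * N * f.Ri := ⟨_, rfl⟩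
  have h3 : trace (W * Wᴴ) = trace (N * (Si * Nᴴ * S)) := by
    have h4 : W * Wᴴ = f.R * (N * (f.Ri * f.Riᴴ) * Nᴴ) * f.Rᴴ := by
      rw [hW, conjTranspose_mul, conjTranspose_mul]
      simp only [Matrix.mul_assoc]
    rw [h4, Matrix.mul_assoc, trace_mul_comm, ← hSi]
    have h5 : N * Si * Nᴴ * f.Rᴴ * f.R = N * (Si * Nᴴ * S) := by
      rw [hS]
      simp only [Matrix.mul_assoc]
    rw [h5]
  rw [← h3, trace_mul_conjTranspose_self_eq_zero_iff] at ht'
  have h4 : N = 0 := by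
    have h5 : f.Ri * W * f.R = N := by
      rw [hW]
      calc f.Ri * (f.R * N * f.Ri) * f.R = (f.Ri * f.R) * N * (f.Ri * f.R) := by
            simp only [Matrix.mul_assoc]
        _ = N := by rw [f.RiR, Matrix.one_mul, Matrix.mul_one]
    rw [← h5, ht', Matrix.mul_zero, Matrix.zero_mul]
  have h5 : f.P * N * f.Pi = M := by
    rw [hN]
    calc f.P * (f.Pi * M * f.P) * f.Pi = (f.P * f.Pi) * M * (f.P * f.Pi) := by
          simp only [Matrix.mul_assoc]
      _ = M := by rw [f.PPi, Matrix.one_mul, Matrix.mul_one]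
  rw [← h5, h4, Matrix.mul_zero, Matrix.zero_mul]

end pol

end

end Pool.Agent.K4H35.ST
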