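import Mathlib
import Pool.Agent.K4H35.ST.Pow
import Pool.Agent.K4H35.ST.Pol

/-!
# The Hodge Lie algebra of the product acts on the cohomology of a polarized variety
-/

set_option linter.unusedSectionVars false

namespace Pool.Agent.K4H35.ST

open Matrix Equiv Module Pool.Agent.H204R3.SP Pool.Agent.H204R3.CM Pool.Agent.W437.HC
  Pool.Agent.W437.HD Pool.Agent.W437.HP Pool.Agent.W437.HR Pool.Agent.TH131.GHC
  Pool.Agent.W437.HQ

noncomputable section

section br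

variable {B : Type} [Fintype B] [DecidableEq B] {C : Type} [Fintype C] [DecidableEq C]
  {D : Matrix B B ℂ} {D' : Matrix C C ℂ} {dg : C → ℕ}

theorem gg_br {Y Y' : Matrix B B ℂ × Matrix C C ℂ} (hY : Y ∈ gg D D') (hY' : Y' ∈ gg D D') :
    (Y'.1 * Y.1 - Y.1 * Y'.1, Y.2 * Y'.2 - Y'.2 * Y.2) ∈ gg D D' := by
  refine ⟨lieM_bracket D hY'.1 hY.1, fun κ _ _ t ht => ?_⟩
  change opD κ C (Y'.1 * Y.1 - Y.1 * Y'.1) (cstX t) +
    opW κ B (Y.2 * Y'.2 - Y'.2 * Y.2) (cstX t) = 0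
  rw [← opD_br Y.1 Y'.1 (cstX t), ← opW_br Y.2 Y'.2 (cstX t)]
  have h1 : opD κ C Y'.1 (cstX t) = -opW κ B Y'.2 (cstX t) :=
    eq_neg_of_add_eq_zero_left (hY'.2 κ t ht)
  have h2 : opD κ C Y.1 (cstX t) = -opW κ B Y.2 (cstX t) :=
    eq_neg_of_add_eq_zero_left (hY.2 κ t ht)
  rw [h1, h2, map_neg, map_neg, op_comm, op_comm, h1, h2, map_neg, map_neg]
  abel

theorem deg_mul {M M' : Matrix C C ℂ} (h : ∀ b b', dg b ≠ dg b' → M b b' = 0)
    (h' : ∀ b b', dg b ≠ dg b' → M' b b' = 0) : ∀ b b', dg b ≠ dg b' → (M * M') b b' = 0 := by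
  intro b b' hb
  rw [Matrix.mul_apply]
  refine Finset.sum_eq_zero fun c _ => ?_
  by_cases hc : dg b = dg c
  · rw [h' c b' (fun h1 => hb (hc.trans h1)), mul_zero]
  · rw [h b c hc, zero_mul]

theorem ggI_br {Y Y' : Matrix B B ℂ × Matrix C C ℂ} (hY : Y ∈ ggI D D' dg)
    (hY' : Y' ∈ ggI D D' dg) :
    (Y'.1 * Y.1 - Y.1 * Y'.1, Y.2 * Y'.2 - Y'.2 * Y.2) ∈ ggI D D' dg := by
  refine ⟨fun b b' h => ?_, fun N => ?_⟩
  · change (Y.2 * Y'.2 - Y'.2 * Y.2) b b' = 0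
    rw [Matrix.sub_apply, deg_mul hY.1 hY'.1 b b' h, deg_mul hY'.1 hY.1 b b' h, sub_zero]
  · change (Y'.1 * Y.1 - Y.1 * Y'.1, derM N (Y.2 * Y'.2 - Y'.2 * Y.2)) ∈ _
    rw [derM_bracket]
    have h1 := gg_br (D' := derM N D') (Y := (Y.1, derM N Y.2)) (Y' := (Y'.1, derM N Y'.2))
      (hY.2 N) (hY'.2 N)
    exact h1

/-- The second components preserve the polarization. -/
theorem ggI_skew {Q : Matrix C C ℚ} (hdet : Q.det ≠ 0)
    (hQ : D'ᵀ * cK ℂ Q + cK ℂ Q * D' = 0) {Y : Matrix B B ℂ × Matrix C C ℂ}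
    (hY : Y ∈ ggI D D' dg) : Y.2ᵀ * cK ℂ Q + cK ℂ Q * Y.2 = 0 := by
  have hQQ : Q * Q⁻¹ = 1 := Matrix.mul_nonsing_inv _ (isUnit_iff_ne_zero.2 hdet)
  have hQQ' : Q⁻¹ * Q = 1 := Matrix.nonsing_inv_mul _ (isUnit_iff_ne_zero.2 hdet)
  have hc1 : cK ℂ Q * cK ℂ Q⁻¹ = 1 := by rw [← cK_mul, hQQ, cK_one]
  have hc2 : cK ℂ Q⁻¹ * cK ℂ Q = 1 := by rw [← cK_mul, hQQ', cK_one]
  let t : (Fin 0 → B) × (Fin 2 → C) → ℚ := fun p => Q⁻¹ (p.2 0) (p.2 1)
  -- the action on the tensor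
  have hop : ∀ (M : Matrix C C ℂ) (p : (Fin 0 → B) × (Fin 2 → C)),
      opW (Fin 0) B (derM 2 M) (cstX t) p =
        (M * cK ℂ Q⁻¹ + cK ℂ Q⁻¹ * Mᵀ) (p.2 0) (p.2 1) := by
    intro M p
    have h1 : opW (Fin 0) B (derM 2 M) (cstX t) p =
        (derM 2 M *ᵥ fun J : Fin 2 → C => ((Q⁻¹ (J 0) (J 1) : ℚ) : ℂ)) p.2 := rfl
    rw [h1, derM_mulVec]
    unfold act
    rw [Fin.sum_univ_two]
    rw [Matrix.add_apply, Matrix.mul_apply, Matrix.mul_apply]
    congr 1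
    refine Finset.sum_congr rfl fun j _ => ?_
    simp only [transpose_apply, Function.update_self, ne_eq, Fin.reduceEq, not_false_eq_true,
      Function.update_of_ne]
    exact mul_comm _ _
  have hopD : ∀ (X : Matrix B B ℂ), opD (Fin 0) (Fin 2 → C) X (cstX t) = 0 := by
    intro X
    funext p
    rfl
  have ht : t ∈ HT D (derM 2 D') (Fin 0) := by
    rw [mem_HT, hopD, zero_add]
    funext p
    rw [hop]
    have h2 : D' * cK ℂ Q⁻¹ + cK ℂ Q⁻¹ * D'ᵀ = 0 := by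
      have h3 : cK ℂ Q⁻¹ * (D'ᵀ * cK ℂ Q + cK ℂ Q * D') * cK ℂ Q⁻¹ = 0 := by
        rw [hQ, Matrix.mul_zero, Matrix.zero_mul]
      rw [Matrix.mul_add, Matrix.add_mul, Matrix.mul_assoc, Matrix.mul_assoc D'ᵀ, hc1,
        Matrix.mul_one, ← Matrix.mul_assoc (cK ℂ Q⁻¹) (cK ℂ Q), hc2, Matrix.one_mul] at h3
      rw [add_comm]
      exact h3
    rw [h2]
    rfl
  have h1 := (hY.2 2).2 (Fin 0) t ht
  change opD (Fin 0) (Fin 2 → C) Y.1 (cstX t) + opW (Fin 0) B (derM 2 Y.2) (cstX t) = 0 at h1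
  rw [hopD, zero_add] at h1
  have h2 : Y.2 * cK ℂ Q⁻¹ + cK ℂ Q⁻¹ * Y.2ᵀ = 0 := by
    ext a b
    have h3 := congrFun h1 (fun i => i.elim0, ![a, b])
    rw [hop] at h3
    exact h3
  have h3 : cK ℂ Q * (Y.2 * cK ℂ Q⁻¹ + cK ℂ Q⁻¹ * Y.2ᵀ) * cK ℂ Q = 0 := by
    rw [h2, Matrix.mul_zero, Matrix.zero_mul]
  rw [Matrix.mul_add, Matrix.add_mul, Matrix.mul_assoc, Matrix.mul_assoc Y.2, hc2,
    Matrix.mul_one, ← Matrix.mul_assoc (cK ℂ Q) (cK ℂ Q⁻¹), hc1, Matrix.one_mul] at h3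
  rw [add_comm]
  exact h3

end br

section nondeg

variable {C : Type} [Fintype C] [DecidableEq C] {D' Q : Matrix C C ℂ}

/-- The trace form is nondegenerate on the stable spaces of skew matrices. -/
theorem Fr.nondeg (f : Fr D' Q) (hQr : Q.map (starRingEnd ℂ) = Q)
    {K : Submodule ℂ (Matrix C C ℂ)} (hsk : ∀ M ∈ K, Mᵀ * Q + Q * M = 0)
    (hconj : ∀ M ∈ K, M.map (starRingEnd ℂ) ∈ K) (had : ∀ M ∈ K, D' * M - M * D' ∈ K)
    {M : Matrix C C ℂ} (hM : M ∈ K) (ht : ∀ M' ∈ K, trace (M * M') = 0) : M = 0 := by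
  let K0 : Submodule ℂ (Matrix C C ℂ) :=
    { carrier := {M | M ∈ K ∧ ∀ M' ∈ K, trace (M * M') = 0}
      zero_mem' := ⟨K.zero_mem, fun M' _ => by rw [Matrix.zero_mul, trace_zero]⟩
      add_mem' := by
        rintro X Y ⟨h1, h2⟩ ⟨h3, h4⟩
        exact ⟨K.add_mem h1 h3, fun M' hM' => by
          rw [Matrix.add_mul, trace_add, h2 M' hM', h4 M' hM', add_zero]⟩
      smul_mem' := by
        rintro r X ⟨h1, h2⟩
        exact ⟨K.smul_mem r h1, fun M' hM' => by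
          rw [Matrix.smul_mul, trace_smul, h2 M' hM', smul_zero]⟩ }
  let ad : Matrix C C ℂ →ₗ[ℂ] Matrix C C ℂ :=
    { toFun := fun M => D' * M - M * D'
      map_add' := fun X Y => by
        rw [Matrix.mul_add, Matrix.add_mul]
        abel
      map_smul' := fun r X => by
        rw [Matrix.mul_smul, Matrix.smul_mul, ← smul_sub]
        rfl }
  have hK0 : ∀ M ∈ K0, ad M ∈ K0 := by
    rintro M ⟨h1, h2⟩
    refine ⟨had M h1, fun M' hM' => ?_⟩
    change trace ((D' * M - M * D') * M') = 0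
    have h3 := h2 _ (had M' hM')
    rw [Matrix.mul_sub, trace_sub] at h3
    rw [Matrix.sub_mul, trace_sub, Matrix.mul_assoc, trace_mul_comm D', Matrix.mul_assoc M M' D',
      Matrix.mul_assoc M D' M'] at *
    linear_combination -h3
  by_contra hne
  have hnt : Nontrivial K0 := ⟨⟨⟨M, hM, ht⟩, 0, fun h => hne (congrArg Subtype.val h)⟩⟩
  obtain ⟨μ, hμ⟩ := Module.End.exists_eigenvalue (ad.restrict hK0)
  obtain ⟨M1, hM1⟩ := hμ.exists_hasEigenvector
  have h1 : ad M1.1 = μ • M1.1 := congrArg Subtype.val hM1.apply_eq_smul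
  have h2 : M1.1 ≠ 0 := fun h => hM1.2 (Subtype.ext h)
  obtain ⟨N, hN⟩ : ∃ N, N = f.Pi * M1.1 * f.P := ⟨_, rfl⟩
  have hN0 : N ≠ 0 := by
    intro h0
    apply h2
    have h3 : f.P * N * f.Pi = M1.1 := by
      rw [hN]
      calc f.P * (f.Pi * M1.1 * f.P) * f.Pi = (f.P * f.Pi) * M1.1 * (f.P * f.Pi) := by
            simp only [Matrix.mul_assoc]
        _ = M1.1 := by rw [f.PPi, Matrix.one_mul, Matrix.mul_one]
    rw [← h3, h0, Matrix.mul_zero, Matrix.zero_mul]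
  have hNd : ∀ a b, ((f.j a : ℂ) - f.j b) * N a b = μ * N a b := by
    have h1' : f.Pi * D' = diagonal (fun a => (f.j a : ℂ)) * f.Pi := by
      have h2 : f.Pi * (D' * f.P) * f.Pi = f.Pi * (f.P * diagonal fun a => (f.j a : ℂ)) * f.Pi := by
        rw [f.eig]
      rw [← Matrix.mul_assoc, Matrix.mul_assoc _ f.P f.Pi, f.PPi, Matrix.mul_one,
        ← Matrix.mul_assoc f.Pi f.P, f.PiP, Matrix.one_mul] at h2
      exact h2
    have h2 : diagonal (fun a => (f.j a : ℂ)) * N - N * diagonal (fun a => (f.j a : ℂ)) =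
        μ • N := by
      have h3 : f.Pi * (D' * M1.1 - M1.1 * D') * f.P = f.Pi * (μ • M1.1) * f.P := by
        rw [← h1]
        rfl
      rw [Matrix.mul_sub, Matrix.sub_mul, ← Matrix.mul_assoc, h1', Matrix.mul_smul,
        Matrix.smul_mul] at h3
      rw [hN, ← h3]
      congr 1
      · simp only [Matrix.mul_assoc]
      · simp only [Matrix.mul_assoc, f.eig]
    intro a b
    have h3 := congrFun (congrFun h2 a) b
    rw [Matrix.sub_apply, diagonal_mul, mul_diagonal, Matrix.smul_apply, smul_eq_mul] at h3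
    linear_combination h3
  obtain ⟨k, hk⟩ : ∃ k : ℤ, μ = (k : ℂ) := by
    by_contra hcon
    push Not at hcon
    apply hN0
    ext a b
    by_contra hab
    have h3 := mul_right_cancel₀ hab (hNd a b)
    refine hcon (f.j a - f.j b) ?_
    rw [← h3]
    push_cast
    rfl
  rw [hk] at h1
  exact h2 (f.trace_pos hQr (hsk _ M1.2.1) h1 (M1.2.2 _ (hconj _ M1.2.1)))

/-- The orthogonal projection to a stable space of skew matrices. -/
theorem Fr.exists_proj (f : Fr D' Q) (hQr : Q.map (starRingEnd ℂ) = Q)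
    {K : Submodule ℂ (Matrix C C ℂ)} (hsk : ∀ M ∈ K, Mᵀ * Q + Q * M = 0)
    (hconj : ∀ M ∈ K, M.map (starRingEnd ℂ) ∈ K) (had : ∀ M ∈ K, D' * M - M * D' ∈ K)
    (M : Matrix C C ℂ) : ∃ M0 ∈ K, ∀ M' ∈ K, trace ((M - M0) * M') = 0 := by
  let Φ : K →ₗ[ℂ] Module.Dual ℂ K :=
    { toFun := fun X =>
        { toFun := fun Y => trace (X.1 * Y.1)
          map_add' := fun Y Y' => by
            change trace (X.1 * (Y.1 + Y'.1)) = _
            rw [Matrix.mul_add, trace_add]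
          map_smul' := fun r Y => by
            change trace (X.1 * (r • Y.1)) = _
            rw [Matrix.mul_smul, trace_smul]
            rfl }
      map_add' := fun X X' => by
        refine LinearMap.ext fun Y => ?_
        change trace ((X.1 + X'.1) * Y.1) = trace (X.1 * Y.1) + trace (X'.1 * Y.1)
        rw [Matrix.add_mul, trace_add]
      map_smul' := fun r X => by
        refine LinearMap.ext fun Y => ?_
        change trace ((r • X.1) * Y.1) = r * trace (X.1 * Y.1)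
        rw [Matrix.smul_mul, trace_smul, smul_eq_mul] }
  have hinj : Function.Injective Φ := by
    rw [injective_iff_map_eq_zero]
    intro X hX
    refine Subtype.ext (f.nondeg hQr hsk hconj had X.2 fun M' hM' => ?_)
    exact congrArg (fun F : Module.Dual ℂ K => F ⟨M', hM'⟩) hX
  have hsurj : Function.Surjective Φ :=
    (LinearMap.injective_iff_surjective_of_finrank_eq_finrank
      (Subspace.dual_finrank_eq (K := ℂ) (V := K)).symm).1 hinj
  let φ : Module.Dual ℂ K :=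
    { toFun := fun Y => trace (M * Y.1)
      map_add' := fun Y Y' => by
        change trace (M * (Y.1 + Y'.1)) = _
        rw [Matrix.mul_add, trace_add]
      map_smul' := fun r Y => by
        change trace (M * (r • Y.1)) = _
        rw [Matrix.mul_smul, trace_smul]
        rfl }
  obtain ⟨M0, hM0⟩ := hsurj φ
  refine ⟨M0.1, M0.2, fun M' hM' => ?_⟩
  have h1 : trace (M0.1 * M') = trace (M * M') :=
    congrArg (fun F : Module.Dual ℂ K => F ⟨M', hM'⟩) hM0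
  rw [Matrix.sub_mul, trace_sub, h1, sub_self]

end nondeg

section lev

variable {B : Type} [Fintype B] [DecidableEq B] {C : Type} [Fintype C] [DecidableEq C]
  {D : Matrix B B ℂ} {D' : Matrix C C ℂ} {dg : C → ℕ}

/-- The pair is in the complement of the pairs with first component zero. -/
def IsLev (D : Matrix B B ℂ) (D' : Matrix C C ℂ) (dg : C → ℕ) (X : Matrix B B ℂ)
    (M : Matrix C C ℂ) : Prop :=
  (X, M) ∈ ggI D D' dg ∧ ∀ M', ((0 : Matrix B B ℂ), M') ∈ ggI D D' dg → trace (M * M') = 0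

theorem IsLev.add {X X' : Matrix B B ℂ} {M M' : Matrix C C ℂ} (h : IsLev D D' dg X M)
    (h' : IsLev D D' dg X' M') : IsLev D D' dg (X + X') (M + M') :=
  ⟨Submodule.add_mem _ h.1 h'.1, fun M0 hM0 => by
    rw [Matrix.add_mul, trace_add, h.2 M0 hM0, h'.2 M0 hM0, add_zero]⟩

theorem IsLev.smul (r : ℂ) {X : Matrix B B ℂ} {M : Matrix C C ℂ} (h : IsLev D D' dg X M) :
    IsLev D D' dg (r • X) (r • M) :=
  ⟨Submodule.smul_mem _ r h.1, fun M0 hM0 => by
    rw [Matrix.smul_mul, trace_smul, h.2 M0 hM0, smul_zero]⟩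

theorem IsLev.br {X X' : Matrix B B ℂ} {M M' : Matrix C C ℂ} (h : IsLev D D' dg X M)
    (h' : (X', M') ∈ ggI D D' dg) : IsLev D D' dg (X' * X - X * X') (M * M' - M' * M) := by
  refine ⟨ggI_br h.1 h', fun M0 hM0 => ?_⟩
  have h1 := ggI_br (Y := (X', M')) (Y' := ((0 : Matrix B B ℂ), M0)) h' hM0
  change ((0 : Matrix B B ℂ) * X' - X' * 0, M' * M0 - M0 * M') ∈ _ at h1
  rw [Matrix.zero_mul, Matrix.mul_zero, sub_zero] at h1
  have h2 := h.2 _ h1
  rw [Matrix.mul_sub, trace_sub] at h2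
  rw [Matrix.sub_mul, trace_sub, Matrix.mul_assoc, Matrix.mul_assoc, trace_mul_comm M',
    Matrix.mul_assoc]
  exact h2

variable {Q : Matrix C C ℚ}

theorem K_props (hdet : Q.det ≠ 0) (hQ : D'ᵀ * cK ℂ Q + cK ℂ Q * D' = 0)
    (hgr : ∀ b b', dg b ≠ dg b' → D' b b' = 0) :
    (∀ M ∈ (ggI D D' dg).comap (LinearMap.inr ℂ (Matrix B B ℂ) (Matrix C C ℂ)),
      Mᵀ * cK ℂ Q + cK ℂ Q * M = 0) ∧
    (∀ M ∈ (ggI D D' dg).comap (LinearMap.inr ℂ (Matrix B B ℂ) (Matrix C C ℂ)),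
      M.map (starRingEnd ℂ) ∈
        (ggI D D' dg).comap (LinearMap.inr ℂ (Matrix B B ℂ) (Matrix C C ℂ))) ∧
    (∀ M ∈ (ggI D D' dg).comap (LinearMap.inr ℂ (Matrix B B ℂ) (Matrix C C ℂ)),
      D' * M - M * D' ∈
        (ggI D D' dg).comap (LinearMap.inr ℂ (Matrix B B ℂ) (Matrix C C ℂ))) := by
  refine ⟨fun M hM => ggI_skew hdet hQ (Submodule.mem_comap.1 hM), fun M hM => ?_,
    fun M hM => ?_⟩
  · have h1 := ggI_aut (starRingAut : ℂ ≃+* ℂ) (Submodule.mem_comap.1 hM)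
    rw [Submodule.mem_comap]
    change ((0 : Matrix B B ℂ), M.map (starRingEnd ℂ)) ∈ _
    change ((0 : Matrix B B ℂ).map (starRingAut : ℂ ≃+* ℂ), M.map (starRingAut : ℂ ≃+* ℂ)) ∈ _
      at h1
    rw [Matrix.map_zero _ (map_zero _)] at h1
    exact h1
  · have h1 := ggI_dn hgr (Submodule.mem_comap.1 hM)
    rw [Submodule.mem_comap]
    change (D * 0 - 0 * D, M * D' - D' * M) ∈ _ at h1
    rw [Matrix.mul_zero, Matrix.zero_mul, sub_zero] at h1
    have h2 := Submodule.neg_mem _ h1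
    change (-(0 : Matrix B B ℂ), -(M * D' - D' * M)) ∈ _ at h2
    rw [neg_zero, neg_sub] at h2
    exact h2

theorem IsLev.uniq (f : Fr D' (cK ℂ Q)) (hdet : Q.det ≠ 0)
    (hQ : D'ᵀ * cK ℂ Q + cK ℂ Q * D' = 0) (hgr : ∀ b b', dg b ≠ dg b' → D' b b' = 0)
    {X : Matrix B B ℂ} {M M' : Matrix C C ℂ} (h : IsLev D D' dg X M)
    (h' : IsLev D D' dg X M') : M = M' := by
  obtain ⟨h1, h2, h3⟩ := K_props (D := D) hdet hQ hgr
  have h4 : IsLev D D' dg 0 (M - M') := by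
    have h5 := h.add (h'.smul (-1))
    rw [neg_one_smul, neg_one_smul, ← sub_eq_add_neg, ← sub_eq_add_neg, sub_self] at h5
    exact h5
  have hQr : (cK ℂ Q).map (starRingEnd ℂ) = cK ℂ Q := by
    ext i j
    exact map_ratCast (starRingEnd ℂ) (Q i j)
  exact sub_eq_zero.1 (f.nondeg hQr h1 h2 h3 (Submodule.mem_comap.2 h4.1) fun M0 hM0 =>
    h4.2 M0 (Submodule.mem_comap.1 hM0))

theorem exists_lev (h : PolH D) (hS : Simp D) (f : Fr D' (cK ℂ Q)) (hdet : Q.det ≠ 0)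
    (hQ : D'ᵀ * cK ℂ Q + cK ℂ Q * D' = 0) (hgr : ∀ b b', dg b ≠ dg b' → D' b b' = 0)
    {X : Matrix B B ℂ} (hX : X ∈ lieM D ℂ) : ∃ M, IsLev D D' dg X M := by
  obtain ⟨h1, h2, h3⟩ := K_props (D := D) hdet hQ hgr
  obtain ⟨Y, hY, rfl⟩ := exists_ggI (D' := D') h hS hgr hX
  have hQr : (cK ℂ Q).map (starRingEnd ℂ) = cK ℂ Q := by
    ext i j
    exact map_ratCast (starRingEnd ℂ) (Q i j)
  obtain ⟨M0, hM0, hM0'⟩ := f.exists_proj hQr h1 h2 h3 Y.2
  refine ⟨Y.2 - M0, ?_, fun M' hM' => hM0' M' (Submodule.mem_comap.2 hM')⟩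
  have h4 := Submodule.sub_mem _ hY (Submodule.mem_comap.1 hM0)
  change (Y.1 - 0, Y.2 - M0) ∈ _ at h4
  rw [sub_zero] at h4
  exact h4

end lev

end

end Pool.Agent.K4H35.ST
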