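import Mathlib
import Pool.Agent.K4H35.ST.Act
import Pool.Agent.K4H35.ST.Lev
import Pool.Agent.K4H35.ST.HDim

/-!
# Factors of large relative dimension are not related to a polarized variety
-/

set_option linter.unusedSectionVars false

namespace Pool.Agent.K4H35.ST

open Matrix Equiv Module Pool.Agent.H204R3.SP Pool.Agent.H204R3.CM Pool.Agent.W437.HC
  Pool.Agent.W437.HD Pool.Agent.W437.HP Pool.Agent.W437.HR Pool.Agent.TH131.GHC
  Pool.Agent.W437.HQ

noncomputable section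

section uniq

variable {B : Type} [Fintype B] [DecidableEq B] {D : Matrix B B ℂ} {𝒜 : Type} [Fintype 𝒜]
  [DecidableEq 𝒜] {N : 𝒜 → Type} [∀ a, AddCommGroup (N a)] [∀ a, Module ℂ (N a)]
  [∀ a, FiniteDimensional ℂ (N a)] [∀ a, Nontrivial (N a)]
  (s : Sys (lieM D ℂ) (brL D) N) (inc : ∀ a, N a →ₗ[ℂ] (B → ℂ))
  (prj : ∀ a, (B → ℂ) →ₗ[ℂ] N a) (hip : ∀ y, y = ∑ a, inc a (prj a y))
  (hinc : ∀ a (X : lieM D ℂ) u, X.1 *ᵥ inc a u = inc a (s.ρ a X u))

include hip hinc in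
/-- The elements of the Lie algebra are determined by their actions. -/
theorem sys_uniq {X Y : lieM D ℂ} (h : ∀ b, s.ρ b X = s.ρ b Y) : X = Y := by
  refine Subtype.ext (mat_ext fun y => ?_)
  rw [hip y, mulVec_sum, mulVec_sum]
  refine Finset.sum_congr rfl fun b _ => ?_
  rw [hinc, hinc, h]

include hip hinc in
/-- The element of the Lie algebra given by the product of two vectors of one of the spaces. -/
theorem exists_EX (a : 𝒜) : ∃ EX : N a →ₗ[ℂ] N a →ₗ[ℂ] lieM D ℂ,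
    (∀ x y, s.ρ a (EX x y) = EE (s.w a) x y) ∧ (∀ x y, EX x y = EX y x) ∧
    ∀ (X : lieM D ℂ) (x y : N a), brL D X (EX x y) = EX (s.ρ a X x) y + EX x (s.ρ a X y) := by
  have hX0 := fun x y : N a => lift_class s a x y
  choose X0 h1 h2 h3 using hX0
  have huniq : ∀ (Y Y' : lieM D ℂ), (∀ b, ¬Lnk s a b → s.ρ b Y = s.ρ b Y') →
      (∀ b (f : N a ≃ₗ[ℂ] N b), (∀ X u, f (s.ρ a X u) = s.ρ b X (f u)) →
        (∀ x y, s.w b (f x) (f y) = s.w a x y) → s.ρ b Y = s.ρ b Y') → Y = Y' := by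
    intro Y Y' h4 h5
    refine sys_uniq s inc prj hip hinc fun b => ?_
    by_cases hb : Lnk s a b
    · obtain ⟨f, hf, hf'⟩ := hb
      exact h5 b f hf hf'
    · exact h4 b hb
  refine ⟨LinearMap.mk₂ ℂ X0 ?_ ?_ ?_ ?_, fun x y => ?_, fun x y => ?_, fun X x y => ?_⟩
  · intro x x' y
    refine huniq _ _ (fun b hb => ?_) fun b f hf hf' => ?_
    · rw [map_add, h2 _ _ b hb, h2 _ _ b hb, h2 _ _ b hb, add_zero]
    · rw [map_add, h3 _ _ b f hf hf', h3 _ _ b f hf hf', h3 _ _ b f hf hf', map_add, EE_add_left]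
  · intro r x y
    refine huniq _ _ (fun b hb => ?_) fun b f hf hf' => ?_
    · rw [map_smul, h2 _ _ b hb, h2 _ _ b hb, smul_zero]
    · rw [map_smul, h3 _ _ b f hf hf', h3 _ _ b f hf hf', map_smul]
      refine LinearMap.ext fun u => ?_
      simp only [EE_apply, LinearMap.smul_apply, map_smul, smul_eq_mul, smul_add, smul_smul]
      module
  · intro x y y'
    refine huniq _ _ (fun b hb => ?_) fun b f hf hf' => ?_
    · rw [map_add, h2 _ _ b hb, h2 _ _ b hb, h2 _ _ b hb, add_zero]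
    · rw [map_add, h3 _ _ b f hf hf', h3 _ _ b f hf hf', h3 _ _ b f hf hf', map_add, EE_comm,
        EE_add_left, EE_comm _ (f y), EE_comm _ (f y')]
  · intro r x y
    refine huniq _ _ (fun b hb => ?_) fun b f hf hf' => ?_
    · rw [map_smul, h2 _ _ b hb, h2 _ _ b hb, smul_zero]
    · rw [map_smul, h3 _ _ b f hf hf', h3 _ _ b f hf hf', map_smul]
      refine LinearMap.ext fun u => ?_
      simp only [EE_apply, LinearMap.smul_apply, map_smul, smul_eq_mul, smul_add, smul_smul]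
      module
  · exact h1 x y
  · simp only [LinearMap.mk₂_apply]
    refine huniq _ _ (fun b hb => ?_) fun b f hf hf' => ?_
    · rw [h2 _ _ b hb, h2 _ _ b hb]
    · rw [h3 _ _ b f hf hf', h3 _ _ b f hf hf', EE_comm]
  · simp only [LinearMap.mk₂_apply]
    refine huniq _ _ (fun b hb => ?_) fun b f hf hf' => ?_
    · rw [s.brk, map_add, h2 _ _ b hb, h2 _ _ b hb, h2 _ _ b hb, mul_zero, zero_mul, sub_zero,
        add_zero]
    · rw [s.brk, map_add, h3 _ _ b f hf hf', h3 _ _ b f hf hf', h3 _ _ b f hf hf',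
        EE_bracket (s.sp b X), hf, hf]

end uniq

section restr

variable {C : Type} [Fintype C] [DecidableEq C] {dg : C → ℕ}

/-- The restriction of a matrix to the part of degree `i`. -/
def rst (dg : C → ℕ) (i : ℕ) (M : Matrix C C ℂ) : Matrix {c // dg c = i} {c // dg c = i} ℂ :=
  M.submatrix Subtype.val Subtype.val

theorem rst_mul (i : ℕ) {M M' : Matrix C C ℂ} (h : ∀ b b', dg b ≠ dg b' → M b b' = 0) :
    rst dg i (M * M') = rst dg i M * rst dg i M' := by
  ext a b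
  change ∑ c, M a.1 c * M' c b.1 = ∑ c : {c // dg c = i}, M a.1 c.1 * M' c.1 b.1
  rw [← Finset.sum_subtype (Finset.univ.filter fun c => dg c = i) (by simp)
    (fun c => M a.1 c * M' c b.1), Finset.sum_filter]
  refine Finset.sum_congr rfl fun c _ => ?_
  split_ifs with hc
  · rfl
  · rw [h a.1 c (fun h1 => hc (by rw [← h1, a.2])), zero_mul]

/-- The eigenvectors of the restriction span. -/
theorem rst_span (i : ℕ) {M : Matrix C C ℂ} (h : ∀ b b', dg b ≠ dg b' → M b b' = 0)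
    (hdec : ∀ x : C → ℂ, x ∈ Submodule.span ℂ {y | ∃ k : ℤ, M *ᵥ y = (k : ℂ) • y})
    (x : {c // dg c = i} → ℂ) :
    x ∈ Submodule.span ℂ {y | ∃ k : ℤ, rst dg i M *ᵥ y = (k : ℂ) • y} := by
  classical
  let L : (C → ℂ) →ₗ[ℂ] ({c // dg c = i} → ℂ) :=
    { toFun := fun x c => x c.1
      map_add' := fun _ _ => rfl
      map_smul' := fun _ _ => rfl }
  have h1 := Submodule.mem_map_of_mem (f := L)
    (hdec (fun c => if hc : dg c = i then x ⟨c, hc⟩ else 0))
  have h2 : L (fun c => if hc : dg c = i then x ⟨c, hc⟩ else 0) = x := by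
    funext c
    change (if hc : dg c.1 = i then x ⟨c.1, hc⟩ else 0) = x c
    rw [dif_pos c.2]
  rw [h2, Submodule.map_span] at h1
  refine Submodule.span_mono ?_ h1
  rintro _ ⟨y, ⟨k, hk⟩, rfl⟩
  refine ⟨k, ?_⟩
  funext c
  have h3 := congrFun hk c.1
  change ∑ c' : {c // dg c = i}, M c.1 c'.1 * y c'.1 = (k : ℂ) * y c.1
  change ∑ c', M c.1 c' * y c' = (k : ℂ) * y c.1 at h3
  rw [← h3, ← Finset.sum_subtype (Finset.univ.filter fun c => dg c = i) (by simp)
    (fun c' => M c.1 c' * y c'), Finset.sum_filter]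
  refine Finset.sum_congr rfl fun c' _ => ?_
  split_ifs with hc
  · rfl
  · rw [h c.1 c' (fun h1 => hc (by rw [← h1, c.2])), zero_mul]

end restr

section core

variable {B : Type} [Fintype B] [DecidableEq B] {D : Matrix B B ℂ} {𝒜 : Type} [Fintype 𝒜]
  [DecidableEq 𝒜] {N : 𝒜 → Type} [∀ a, AddCommGroup (N a)] [∀ a, Module ℂ (N a)]
  [∀ a, FiniteDimensional ℂ (N a)] [∀ a, Nontrivial (N a)]
  {C : Type} [Fintype C] [DecidableEq C] {D' : Matrix C C ℂ} {dg : C → ℕ} {Q : Matrix C C ℚ}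

/-- The Lie algebra acts on the cohomology of the variety. -/
theorem exists_mu (h : PolH D) (hS : Simp D) (f : Fr D' (cK ℂ Q)) (hdet : Q.det ≠ 0)
    (hQ : D'ᵀ * cK ℂ Q + cK ℂ Q * D' = 0) (hgr : ∀ b b', dg b ≠ dg b' → D' b b' = 0) :
    ∃ μ : lieM D ℂ →ₗ[ℂ] Matrix C C ℂ, (∀ X, (X.1, μ X) ∈ ggI D D' dg) ∧
      (∀ X X', μ (brL D X' X) = μ X * μ X' - μ X' * μ X) ∧
      ∀ X, μ (brL D ⟨D, D_mem D⟩ X) = μ X * D' - D' * μ X := by
  have h0 := fun X : lieM D ℂ => exists_lev h hS f hdet hQ hgr X.2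
  choose m hm using h0
  let μ : lieM D ℂ →ₗ[ℂ] Matrix C C ℂ :=
    { toFun := m
      map_add' := fun X Y => (hm (X + Y)).uniq f hdet hQ hgr ((hm X).add (hm Y))
      map_smul' := fun r X => (hm (r • X)).uniq f hdet hQ hgr ((hm X).smul r) }
  refine ⟨μ, fun X => (hm X).1, fun X X' => ?_, fun X => ?_⟩
  · exact (hm (brL D X' X)).uniq f hdet hQ hgr ((hm X).br (hm X').1)
  · exact (hm (brL D ⟨D, D_mem D⟩ X)).uniq f hdet hQ hgr ((hm X).br (D_mem_ggI hgr))

variable (s : Sys (lieM D ℂ) (brL D) N) (inc : ∀ a, N a →ₗ[ℂ] (B → ℂ))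
  (prj : ∀ a, (B → ℂ) →ₗ[ℂ] N a) (hip : ∀ y, y = ∑ a, inc a (prj a y))
  (hinc : ∀ a (X : lieM D ℂ) u, X.1 *ᵥ inc a u = inc a (s.ρ a X u))

include hip hinc in
/-- **A piece of large dimension is not related to the variety.** -/
theorem num_core (h : PolH D) (hS : Simp D) (f : Fr D' (cK ℂ Q)) (hdet : Q.det ≠ 0)
    (hQ : D'ᵀ * cK ℂ Q + cK ℂ Q * D' = 0) (hgr : ∀ b b', dg b ≠ dg b' → D' b b' = 0)
    (hdec : ∀ x : C → ℂ, x ∈ Submodule.span ℂ {y | ∃ k : ℤ, D' *ᵥ y = (k : ℂ) • y})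
    (a : 𝒜) (hD2 : ∀ u, s.ρ a ⟨D, D_mem D⟩ (s.ρ a ⟨D, D_mem D⟩ u) = u)
    (hkk : ∀ X : lieM D ℂ, X.1 ∈ kkI D D' → s.ρ a X = 0)
    (h4 : 4 < finrank ℂ (N a))
    (hsmall : ∀ (i : ℕ) (k : ℤ), k ≠ 0 → 2 * finrank ℂ
      (Module.End.eigenspace (mulVecLin (rst dg i D')) (k : ℂ)) < finrank ℂ (N a)) : False := by
  obtain ⟨EX, hEX, hsym, hEXb⟩ := exists_EX s inc prj hip hinc a
  obtain ⟨μ, hμ1, hμ2, hμ3⟩ := exists_mu h hS f hdet hQ hgr
  obtain ⟨p, e, he1, he2, he3⟩ := exists_darboux_D (s.w a) (s.alt a) (s.nd a)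
    (s.ρ a ⟨D, D_mem D⟩) hD2 (s.sp a ⟨D, D_mem D⟩)
  have hp : finrank ℂ (N a) = 2 * p := by
    rw [finrank_eq_card_basis e, Fintype.card_sum, Fintype.card_fin]
    ring
  -- the coordinates
  let P : (Fin p → ℂ) →ₗ[ℂ] N a := Fintype.linearCombination ℂ (fun i => e (Sum.inl i))
  let R : (Fin p → ℂ) →ₗ[ℂ] N a := Fintype.linearCombination ℂ (fun i => e (Sum.inr i))
  have hP : ∀ x, P x = ∑ i, x i • e (Sum.inl i) := fun x => rfl
  have hR : ∀ x, R x = ∑ i, x i • e (Sum.inr i) := fun x => rfl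
  have hDP : ∀ x, s.ρ a ⟨D, D_mem D⟩ (P x) = P x := by
    intro x
    rw [hP, map_sum]
    exact Finset.sum_congr rfl fun i _ => by rw [map_smul, he1]
  have hDR : ∀ x, s.ρ a ⟨D, D_mem D⟩ (R x) = -R x := by
    intro x
    rw [hR, map_sum, ← Finset.sum_neg_distrib]
    exact Finset.sum_congr rfl fun i _ => by rw [map_smul, he2, smul_neg]
  have e11 : ∀ i j, s.w a (e (Sum.inl i)) (e (Sum.inl j)) = 0 := by
    intro i j
    rw [he3]
    simp [H204R3.SP.JJ]
  have e22 : ∀ i j, s.w a (e (Sum.inr i)) (e (Sum.inr j)) = 0 := by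
    intro i j
    rw [he3]
    simp [H204R3.SP.JJ]
  have e12 : ∀ i j, s.w a (e (Sum.inl i)) (e (Sum.inr j)) = if j = i then 1 else 0 := by
    intro i j
    rw [he3]
    simp [H204R3.SP.JJ]
  have wPP : ∀ x y, s.w a (P x) (P y) = 0 := by
    intro x y
    rw [hP x, hP y]
    simp only [map_sum, LinearMap.sum_apply, map_smul, LinearMap.smul_apply, e11, smul_zero,
      Finset.sum_const_zero]
  have wRR : ∀ x y, s.w a (R x) (R y) = 0 := by
    intro x y
    rw [hR x, hR y]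
    simp only [map_sum, LinearMap.sum_apply, map_smul, LinearMap.smul_apply, e22, smul_zero,
      Finset.sum_const_zero]
  have wPR : ∀ x y, s.w a (P x) (R y) = x ⬝ᵥ y := by
    intro x y
    rw [hP x, hR y]
    simp only [map_sum, LinearMap.sum_apply, map_smul, LinearMap.smul_apply, e12, smul_eq_mul,
      mul_ite, mul_one, mul_zero, Finset.sum_ite_eq, Finset.mem_univ, if_true]
    unfold dotProduct
    exact Finset.sum_congr rfl fun i _ => mul_comm _ _
  have wRP : ∀ x y, s.w a (R y) (P x) = -(x ⬝ᵥ y) := by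
    intro x y
    rw [w_anti (s.alt a), wPR]
  have hμdeg : ∀ X, ∀ b b', dg b ≠ dg b' → μ X b b' = 0 := fun X => (hμ1 X).1
  have hp3 : 3 ≤ p := by omega
  obtain ⟨x0, hx0⟩ : ∃ x0 : Fin p → ℂ, x0 = Pi.single ⟨0, by omega⟩ 1 := ⟨_, rfl⟩
  have hzero : ∀ i, rst dg i (μ (EX (P x0) (P x0))) = 0 := by
    intro i
    let ρV : lieM D ℂ →ₗ[ℂ] Module.End ℂ ({c // dg c = i} → ℂ) :=
      { toFun := fun X => -mulVecLin (rst dg i (μ X))
        map_add' := fun X Y => by
          refine LinearMap.ext fun u => ?_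
          change -(rst dg i (μ (X + Y)) *ᵥ u) = -(rst dg i (μ X) *ᵥ u) + -(rst dg i (μ Y) *ᵥ u)
          rw [map_add, ← neg_add, ← add_mulVec]
          rfl
        map_smul' := fun r X => by
          refine LinearMap.ext fun u => ?_
          change -(rst dg i (μ (r • X)) *ᵥ u) = r • -(rst dg i (μ X) *ᵥ u)
          rw [map_smul, smul_neg, ← smul_mulVec]
          rfl }
    have hρV : ∀ X u, ρV X u = -(rst dg i (μ X) *ᵥ u) := fun _ _ => rfl
    let T : Module.End ℂ ({c // dg c = i} → ℂ) := -mulVecLin (rst dg i D')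
    have hT : ∀ u, T u = -(rst dg i D' *ᵥ u) := fun _ => rfl
    have hsub : ∀ M M' : Matrix C C ℂ, rst dg i (M - M') = rst dg i M - rst dg i M' :=
      fun _ _ => rfl
    have hbr : ∀ X X' u, ρV X (ρV X' u) = ρV X' (ρV X u) + ρV (brL D X X') u := by
      intro X X' u
      simp only [hρV]
      rw [hμ2 X' X, hsub, rst_mul i (hμdeg X'), rst_mul i (hμdeg X), sub_mulVec, mulVec_neg,
        mulVec_neg, mulVec_mulVec, mulVec_mulVec]
      abel
    have hTb : ∀ X u, T (ρV X u) = ρV X (T u) + ρV (brL D ⟨D, D_mem D⟩ X) u := by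
      intro X u
      simp only [hρV, hT]
      rw [hμ3 X, hsub, rst_mul i (hμdeg X), rst_mul i hgr, sub_mulVec, mulVec_neg,
        mulVec_neg, mulVec_mulVec, mulVec_mulVec]
      abel
    have hE : ∀ x y z t u, ρV (EX x y) (ρV (EX z t) u) = ρV (EX z t) (ρV (EX x y) u) +
        (ρV (EX (EE (s.w a) x y z) t) u + ρV (EX z (EE (s.w a) x y t)) u) := by
      intro x y z t u
      rw [hbr, hEXb, hEX, map_add, LinearMap.add_apply]
    have hTE : ∀ x y u, T (ρV (EX x y) u) = ρV (EX x y) (T u) +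
        (ρV (EX (s.ρ a ⟨D, D_mem D⟩ x) y) u + ρV (EX x (s.ρ a ⟨D, D_mem D⟩ y)) u) := by
      intro x y u
      rw [hTb, hEXb, map_add, LinearMap.add_apply]
    let act : Act p ({c // dg c = i} → ℂ) :=
      { A := (EX.compl₁₂ P P).compr₂ ρV
        B := (EX.compl₁₂ R R).compr₂ ρV
        G := (EX.compl₁₂ P R).compr₂ ρV
        T := T
        symA := fun x y => by
          change ρV (EX (P x) (P y)) = ρV (EX (P y) (P x))
          rw [hsym]
        symB := fun x y => by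
          change ρV (EX (R x) (R y)) = ρV (EX (R y) (R x))
          rw [hsym]
        TA := fun x y u => by
          change T (ρV (EX (P x) (P y)) u) = ρV (EX (P x) (P y)) (T u) +
            (2 : ℂ) • ρV (EX (P x) (P y)) u
          rw [hTE, hDP, hDP, two_smul]
        TB := fun x y u => by
          change T (ρV (EX (R x) (R y)) u) = ρV (EX (R x) (R y)) (T u) -
            (2 : ℂ) • ρV (EX (R x) (R y)) u
          rw [hTE, hDR, hDR, two_smul]
          simp only [map_neg, LinearMap.neg_apply]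
          abel
        TG := fun x y u => by
          change T (ρV (EX (P x) (R y)) u) = ρV (EX (P x) (R y)) (T u)
          rw [hTE, hDP, hDR]
          simp only [map_neg, LinearMap.neg_apply]
          abel
        GA := fun x f z t u => by
          change ρV (EX (P x) (R f)) (ρV (EX (P z) (P t)) u) =
            ρV (EX (P z) (P t)) (ρV (EX (P x) (R f)) u) - (z ⬝ᵥ f) • ρV (EX (P x) (P t)) u -
              (t ⬝ᵥ f) • ρV (EX (P z) (P x)) u
          rw [hE, EE_apply, EE_apply, wRP, wPP, wRP, wPP]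
          simp only [map_add, map_smul, LinearMap.add_apply, LinearMap.smul_apply, zero_smul,
            add_zero, neg_smul, map_neg, LinearMap.neg_apply]
          abel
        GB := fun x f g h u => by
          change ρV (EX (P x) (R f)) (ρV (EX (R g) (R h)) u) =
            ρV (EX (R g) (R h)) (ρV (EX (P x) (R f)) u) + (x ⬝ᵥ g) • ρV (EX (R f) (R h)) u +
              (x ⬝ᵥ h) • ρV (EX (R g) (R f)) u
          rw [hE, EE_apply, EE_apply, wRR, wPR, wRR, wPR]
          simp only [map_add, map_smul, LinearMap.add_apply, LinearMap.smul_apply, zero_smul,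
            zero_add, neg_smul, map_neg, LinearMap.neg_apply]
          abel
        GG := fun x f y g u => by
          change ρV (EX (P x) (R f)) (ρV (EX (P y) (R g)) u) =
            ρV (EX (P y) (R g)) (ρV (EX (P x) (R f)) u) - (y ⬝ᵥ f) • ρV (EX (P x) (R g)) u +
              (x ⬝ᵥ g) • ρV (EX (P y) (R f)) u
          rw [hE, EE_apply, EE_apply, wRP, wPP, wRR, wPR]
          simp only [map_add, map_smul, LinearMap.add_apply, LinearMap.smul_apply, zero_smul,
            zero_add, add_zero, neg_smul, map_neg, LinearMap.neg_apply]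
          abel
        AB := fun x y f g u => by
          change ρV (EX (P x) (P y)) (ρV (EX (R f) (R g)) u) =
            ρV (EX (R f) (R g)) (ρV (EX (P x) (P y)) u) + (x ⬝ᵥ f) • ρV (EX (P y) (R g)) u +
              (y ⬝ᵥ f) • ρV (EX (P x) (R g)) u + (x ⬝ᵥ g) • ρV (EX (P y) (R f)) u +
                (y ⬝ᵥ g) • ρV (EX (P x) (R f)) u
          rw [hE, EE_apply, EE_apply, wPR, wPR, wPR, wPR]
          simp only [map_add, map_smul, LinearMap.add_apply, LinearMap.smul_apply,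
            hsym (R f) (P _)]
          abel
        span := fun u => by
          refine Submodule.span_mono ?_ (rst_span i hgr hdec u)
          rintro y ⟨k, hk⟩
          refine ⟨-k, ?_⟩
          rw [hT, hk]
          push_cast
          rw [neg_smul] }
    have h5 := Act.A_eq_zero (a := act) hp3 (fun k hk => by
      have h6 : act.Uk k = Module.End.eigenspace (mulVecLin (rst dg i D')) ((-k : ℤ) : ℂ) := by
        ext u
        rw [act.mem_Uk, Module.End.mem_eigenspace_iff]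
        change -(rst dg i D' *ᵥ u) = (k : ℂ) • u ↔ rst dg i D' *ᵥ u = ((-k : ℤ) : ℂ) • u
        push_cast
        rw [neg_smul, neg_eq_iff_eq_neg]
      rw [h6]
      have h7 := hsmall i (-k) (by omega)
      omega) x0 x0
    have h6 : ρV (EX (P x0) (P x0)) = 0 := h5
    refine mat_ext fun u => ?_
    have h7 := congrArg (fun F : Module.End ℂ ({c // dg c = i} → ℂ) => F u) h6
    change -(rst dg i (μ (EX (P x0) (P x0))) *ᵥ u) = 0 at h7
    rw [zero_mulVec]
    exact neg_eq_zero.1 h7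
  have hμ0 : μ (EX (P x0) (P x0)) = 0 := by
    ext b b'
    by_cases hb : dg b = dg b'
    · exact congrFun (congrFun (hzero (dg b')) ⟨b, hb⟩) ⟨b', rfl⟩
    · exact hμdeg _ b b' hb
  have h5 := hμ1 (EX (P x0) (P x0))
  rw [hμ0] at h5
  have h6 := hkk _ (kk_of_ggI h5)
  rw [hEX] at h6
  have h7 := congrArg (fun F : Module.End ℂ (N a) => s.w a (F (R x0)) (R x0)) h6
  simp only [EE_apply, wPR, map_add, map_smul, LinearMap.add_apply, LinearMap.smul_apply,
    LinearMap.zero_apply, map_zero] at h7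
  have h8 : x0 ⬝ᵥ x0 = 1 := by
    rw [hx0, dotProduct_single, Pi.single_eq_same, mul_one]
  rw [h8] at h7
  norm_num at h7

end core

section prod

variable {ι : Type} [Fintype ι] [DecidableEq ι] {g : ι → ℕ}
  (Z : ∀ i, Matrix (Fin (g i)) (Fin (g i)) ℂ) {C : Type} [Fintype C] [DecidableEq C]
  {D' : Matrix C C ℂ} {dg : C → ℕ} {Q : Matrix C C ℚ}

/-- **A factor of large relative dimension is not related to the variety.** -/
theorem num_RRI (hZ : ∀ i, (Z i)ᵀ = Z i) (hpos : ∀ i, (imM (Z i)).PosDef)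
    (hp : ∀ i, HasPcs (DZ (Z i))) (f : Fr D' (cK ℂ Q)) (hdet : Q.det ≠ 0)
    (hQ : D'ᵀ * cK ℂ Q + cK ℂ Q * D' = 0) (hgr : ∀ b b', dg b ≠ dg b' → D' b b' = 0)
    (hdec : ∀ x : C → ℂ, x ∈ Submodule.span ℂ {y | ∃ k : ℤ, D' *ᵥ y = (k : ℂ) • y})
    {j : ι} (hg : 0 < g j) (hj : j ∈ RRI Z D')
    (hlarge : ∀ U : Submodule ℂ (Fin (g j) ⊕ Fin (g j) → ℂ), U ≠ ⊥ →
      (∀ X ∈ lieM (DZ (Z j)) ℂ, ∀ x ∈ U, X *ᵥ x ∈ U) → 4 < finrank ℂ U ∧
        ∀ (i : ℕ) (k : ℤ), k ≠ 0 → 2 * finrank ℂ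
          (Module.End.eigenspace (mulVecLin (rst dg i D')) (k : ℂ)) < finrank ℂ U) : False := by
  classical
  have h : PolH (DZ (bigD ℂ Z)) := polOf (bigD_symm hZ) (imM_bigD_posDef Z hpos)
  have hS : Simp (DZ (bigD ℂ Z)) := simp_prod Z hZ hpos hp
  obtain ⟨b, hb⟩ : ∃ b, b = blocksOf Z hZ hpos := ⟨_, rfl⟩
  have hbP : ∀ i, b.P i = pm g ℚ i := fun i => by rw [hb]; rfl
  have hnd : ∀ i, ∀ X ∈ (lieM (DZ (bigD ℂ Z)) ℚ).map (b.bl ℚ i),
      (∀ Y ∈ (lieM (DZ (bigD ℂ Z)) ℚ).map (b.bl ℚ i), trace (X * Y) = 0) → X = 0 := by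
    rw [hb]
    exact blocksOf_nondeg Z hZ hpos
  have hD2 : ∀ i, DZ (Z i) * DZ (Z i) = 1 :=
    fun i => DZ_sq ((hpos i).isUnit.map Matrix.detMonoidHom)
  choose A hA1 hA2 N w π hst hsum hnt halt hnon hsp hful hπ using hp
  let s : Sys (lieM (DZ (bigD ℂ Z)) ℂ) (brL (DZ (bigD ℂ Z)))
      (N := fun a : (Σ i, A i) => ↥(N a.1 a.2)) :=
    { w := fun a => w a.1 a.2
      ρ := fun a => (rsN (N a.1 a.2) (hst a.1 a.2)) ∘ₗ b.blL a.1
      alt := fun a x => halt a.1 a.2 x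
      nd := fun a x hx => hnon a.1 a.2 x hx
      brk := fun a X Y => by
        rw [LinearMap.comp_apply, b.blL_brL, rsN_brL]
        rfl
      sp := fun a X => hsp a.1 a.2 (b.blL a.1 X)
      full := fun a x y => Blocks.full b a.1 (hnd a.1) (hD2 a.1) (N a.1 a.2) (w a.1 a.2)
        (hst a.1 a.2) (hnt a.1 a.2) (halt a.1 a.2) (hnon a.1 a.2) (hsp a.1 a.2)
        (hful a.1 a.2) x y }
  have hntn : ∀ a : (Σ i, A i), Nontrivial ↥(N a.1 a.2) := fun a => hnt a.1 a.2
  obtain ⟨a0⟩ : Nonempty (A j) := by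
    by_contra hcon
    rw [not_nonempty_iff] at hcon
    have h1 := hsum j (Pi.single (Sum.inl ⟨0, hg⟩) 1)
    rw [Finset.univ_eq_empty, Finset.sum_empty] at h1
    have h2 := congrFun h1 (Sum.inl ⟨0, hg⟩)
    rw [Pi.single_eq_same] at h2
    exact one_ne_zero h2
  have hU : N j a0 ≠ ⊥ := by
    intro h0
    obtain ⟨x, hx⟩ := exists_ne (0 : N j a0)
    apply hx
    have h1 : (x : Fin (g j) ⊕ Fin (g j) → ℂ) ∈ (⊥ : Submodule ℂ _) :=
      SetLike.le_def.1 h0.le x.2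
    exact Subtype.ext ((Submodule.mem_bot ℂ).1 h1)
  obtain ⟨h4, hsmall⟩ := hlarge (N j a0) hU (hst j a0)
  refine num_core s
    (fun a => (Matrix.mulVecLin (cK ℂ (b.P a.1))ᵀ) ∘ₗ (N a.1 a.2).subtype)
    (fun a => (π a.1 a.2) ∘ₗ (Matrix.mulVecLin (cK ℂ (b.P a.1)))) ?_ ?_ h hS f hdet hQ hgr hdec
    ⟨j, a0⟩ ?_ ?_ h4 hsmall
  · intro y
    have h1 : y = ∑ i, (cK ℂ (b.P i))ᵀ *ᵥ (cK ℂ (b.P i) *ᵥ y) := by
      conv_lhs => rw [← one_mulVec y, ← b.totK, sum_mulVec]
      exact Finset.sum_congr rfl fun i _ => (mulVec_mulVec _ _ _).symm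
    conv_lhs => rw [h1]
    rw [Fintype.sum_sigma]
    refine Finset.sum_congr rfl fun i _ => ?_
    conv_lhs => rw [hsum i (cK ℂ (b.P i) *ᵥ y)]
    rw [mulVec_sum]
    rfl
  · intro a X u
    change X.1 *ᵥ ((cK ℂ (b.P a.1))ᵀ *ᵥ (u : Fin (g a.1) ⊕ Fin (g a.1) → ℂ)) =
      (cK ℂ (b.P a.1))ᵀ *ᵥ (b.bl ℂ a.1 X.1 *ᵥ (u : Fin (g a.1) ⊕ Fin (g a.1) → ℂ))
    rw [mulVec_mulVec, mulVec_mulVec, b.mul_inc X.2]
  · intro u
    refine Subtype.ext ?_
    change b.bl ℂ j (DZ (bigD ℂ Z)) *ᵥ (b.bl ℂ j (DZ (bigD ℂ Z)) *ᵥ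
      (u : Fin (g j) ⊕ Fin (g j) → ℂ)) = u
    rw [b.bl_D, mulVec_mulVec, hD2, one_mulVec]
  · intro X hX
    have h1 := (mem_RRI Z D').1 hj X.1 hX
    have h2 : b.bl ℂ j X.1 = 0 := by
      rw [b.bl_apply, hbP, Matrix.mul_assoc, h1, Matrix.mul_zero]
    refine LinearMap.ext fun u => Subtype.ext ?_
    change b.bl ℂ j X.1 *ᵥ (u : Fin (g j) ⊕ Fin (g j) → ℂ) = 0
    rw [h2, zero_mulVec]

end prod

end

end Pool.Agent.K4H35.ST
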