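import Mathlib
import Pool.Agent.TH131.GHC.RDefs

/-!
# Polarizations and Hodge numbers of the cohomology of a variety
-/

namespace Pool.Agent.K4H35.ST

open Matrix Pool.Agent.TH131.GHC

noncomputable section

/-- The complex bilinear form of a rational matrix. -/
def pairing {v : ℕ} (Q : Matrix (Fin v) (Fin v) ℚ) (x y : Fin v → ℂ) : ℂ :=
  ∑ a, ∑ b, x a * (Q a b : ℂ) * y b

/-- The rational bilinear form `Q` is a polarization of the cohomology of the variety: the Hodge
operator is skew for `Q`, and `i ^ (p - q) Q(x, x̄) > 0` for all classes `x ≠ 0` of type `(p, q)`.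
On the cohomology of a smooth projective variety there is such a form (the signs of the usual
polarizations of the primitive cohomology groups and of the Lefschetz decomposition can be chosen
accordingly). -/
def IsPolarization {v : ℕ} (V : Coh v) (Q : Matrix (Fin v) (Fin v) ℚ) : Prop :=
  (∀ x y : Fin v → ℂ, pairing Q (V.z *ᵥ x) y + pairing Q x (V.z *ᵥ y) = 0) ∧
    ∀ (k : ℤ) (x : Fin v → ℂ), x ≠ 0 → V.z *ᵥ x = (k : ℂ) • x →
      ∃ r : ℝ, 0 < r ∧ Complex.I ^ k * pairing Q x (fun a => starRingEnd ℂ (x a)) = (r : ℂ)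

/-- The classes of type `(p, q)` with `p + q = e` and `p - q = k`. -/
def typeSpace {v : ℕ} (V : Coh v) (e : ℕ) (k : ℤ) : Submodule ℂ (Fin v → ℂ) where
  carrier := {y | (∀ b, y b ≠ 0 → V.dg b = e) ∧ V.z *ᵥ y = (k : ℂ) • y}
  zero_mem' := ⟨fun b h => absurd rfl h, by rw [mulVec_zero, smul_zero]⟩
  add_mem' := by
    rintro x y ⟨h1, h2⟩ ⟨h3, h4⟩
    refine ⟨fun b h => ?_, by rw [mulVec_add, h2, h4, smul_add]⟩
    by_contra hcon
    apply h
    have h5 : x b = 0 := by
      by_contra h6
      exact hcon (h1 b h6)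
    have h6 : y b = 0 := by
      by_contra h7
      exact hcon (h3 b h7)
    rw [Pi.add_apply, h5, h6, add_zero]
  smul_mem' := by
    rintro r x ⟨h1, h2⟩
    refine ⟨fun b h => h1 b fun h3 => h ?_, by rw [mulVec_smul, h2, smul_comm]⟩
    rw [Pi.smul_apply, h3, smul_zero]

/-- The Hodge number `h ^ (p, q)`, for `p + q = e` and `p - q = k`. -/
def hodgeNumber {v : ℕ} (V : Coh v) (e : ℕ) (k : ℤ) : ℕ := Module.finrank ℂ (typeSpace V e k)

end

end Pool.Agent.K4H35.ST
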