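import Mathlib
import Pool.Agent.K4H35.ST.PolDef
import Pool.Agent.K4H35.ST.Num

/-!
# Frames of polarized cohomology
-/

set_option linter.unusedSectionVars false

namespace Pool.Agent.K4H35.ST

open Module Matrix Pool.Agent.TH131.GHC Pool.Agent.W437.HC Pool.Agent.W437.HP Pool.Agent.W437.HR

open scoped ComplexOrder

noncomputable section

section det

variable {C : Type} [Fintype C] [DecidableEq C] {D' : Matrix C C ℂ}

theorem Fr.det_ne {Q : Matrix C C ℂ} (f : Fr D' Q) : Q.det ≠ 0 := by
  intro h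
  have h1 := congrArg Matrix.det f.gram
  rw [det_mul, det_mul, h, mul_zero, zero_mul, det_mul, det_mul, det_diagonal] at h1
  have h2 : f.R.det * f.Ri.det = 1 := by rw [← det_mul, f.RRi, det_one]
  have h3 : f.Riᴴ.det * f.Rᴴ.det = 1 := by
    rw [← det_mul, ← conjTranspose_mul, f.RRi, conjTranspose_one, det_one]
  have h4 : (∏ i, Complex.I ^ (-f.j i) : ℂ) ≠ 0 :=
    Finset.prod_ne_zero_iff.2 fun i _ => zpow_ne_zero _ Complex.I_ne_zero
  exact mul_ne_zero h4 (mul_ne_zero (right_ne_zero_of_mul_eq_one h3)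
    (left_ne_zero_of_mul_eq_one h2)) h1.symm

end det

variable {v : ℕ} {V : Coh v} {Q : Matrix (Fin v) (Fin v) ℚ}

theorem pairing_eq (Q : Matrix (Fin v) (Fin v) ℚ) (x y : Fin v → ℂ) :
    pairing Q x y = x ⬝ᵥ cK ℂ Q *ᵥ y := by
  unfold pairing dotProduct
  refine Finset.sum_congr rfl fun a _ => ?_
  simp only [mulVec, dotProduct, Finset.mul_sum]
  exact Finset.sum_congr rfl fun b _ => mul_assoc _ _ _

/-- The frames of a polarized variety. -/
theorem IsPolarization.frame (h : IsPolarization V Q) :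
    Qᵀ.det ≠ 0 ∧ V.zᵀ * cK ℂ Qᵀ + cK ℂ Qᵀ * V.z = 0 ∧ Nonempty (Fr V.z (cK ℂ Qᵀ)) := by
  have hQT : cK ℂ Qᵀ = (cK ℂ Q)ᵀ := rfl
  have h1 : V.zᵀ * cK ℂ Q + cK ℂ Q * V.z = 0 := by
    ext a b
    have h2 := h.1 (Pi.single a 1) (Pi.single b 1)
    have e1 : pairing Q (V.z *ᵥ Pi.single a 1) (Pi.single b 1) = (V.zᵀ * cK ℂ Q) a b := by
      rw [pairing_eq, mulVec_single_one, mulVec_single_one]
      rfl
    have e2 : pairing Q (Pi.single a 1) (V.z *ᵥ Pi.single b 1) = (cK ℂ Q * V.z) a b := by
      rw [pairing_eq, mulVec_mulVec, mulVec_single_one, single_one_dotProduct]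
      rfl
    rw [e1, e2] at h2
    exact h2
  have h2 : V.zᵀ * cK ℂ Qᵀ + cK ℂ Qᵀ * V.z = 0 := by
    have h3 := congrArg Matrix.transpose h1
    rw [transpose_add, transpose_mul, transpose_mul, transpose_transpose, transpose_zero,
      add_comm] at h3
    exact h3
  have h3 : IsPol V.z (cK ℂ Qᵀ) := by
    refine ⟨h2, fun k x hx hk => ?_⟩
    obtain ⟨r, hr, h4⟩ := h.2 k x hx hk
    have h5 : star x ⬝ᵥ cK ℂ Qᵀ *ᵥ x = pairing Q x (fun a => starRingEnd ℂ (x a)) := by
      rw [pairing_eq, hQT, mulVec_transpose, dotProduct_comm, ← dotProduct_mulVec]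
      rfl
    rw [h5, h4]
    exact_mod_cast hr
  obtain ⟨f⟩ := exists_fr V.real V.decomp h3
  refine ⟨fun h4 => f.det_ne ?_, h2, ⟨f⟩⟩
  have h5 : (cK ℂ Qᵀ).det = ((Qᵀ.det : ℚ) : ℂ) := by
    have h6 := (RingHom.map_det (Rat.castHom ℂ) Qᵀ).symm
    exact h6
  rw [h5, h4, Rat.cast_zero]

/-- The classes of given type as eigenvectors. -/
theorem finrank_eig (V : Coh v) (e : ℕ) (k : ℤ) :
    finrank ℂ (Module.End.eigenspace (mulVecLin (rst V.dg e V.z)) (k : ℂ)) =
      hodgeNumber V e k := by
  unfold hodgeNumber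
  refine LinearEquiv.finrank_eq (LinearEquiv.ofLinearMap (LinearMap.codRestrict _
    (({ toFun := fun y b => if h : V.dg b = e then y ⟨b, h⟩ else 0
        map_add' := fun x y => by
          funext b
          change (if h : V.dg b = e then x ⟨b, h⟩ + y ⟨b, h⟩ else 0) =
            (if h : V.dg b = e then x ⟨b, h⟩ else 0) + (if h : V.dg b = e then y ⟨b, h⟩ else 0)
          split_ifs
          · rfl
          · rw [add_zero]
        map_smul' := fun r x => by
          funext b
          change (if h : V.dg b = e then r * x ⟨b, h⟩ else 0) =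
            r * (if h : V.dg b = e then x ⟨b, h⟩ else 0)
          split_ifs
          · rfl
          · rw [mul_zero] } : ({c // V.dg c = e} → ℂ) →ₗ[ℂ] (Fin v → ℂ)) ∘ₗ
      (Module.End.eigenspace (mulVecLin (rst V.dg e V.z)) (k : ℂ)).subtype) ?_)
    (LinearMap.codRestrict _ (({ toFun := fun y b => y b.1
                                 map_add' := fun _ _ => rfl
                                 map_smul' := fun _ _ => rfl } :
      (Fin v → ℂ) →ₗ[ℂ] ({c // V.dg c = e} → ℂ)) ∘ₗ (typeSpace V e k).subtype) ?_) ?_ ?_)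
  · rintro ⟨y, hy⟩
    rw [Module.End.mem_eigenspace_iff] at hy
    refine ⟨fun b hb => ?_, ?_⟩
    · change (if h : V.dg b = e then y ⟨b, h⟩ else 0) ≠ 0 at hb
      by_contra hcon
      rw [dif_neg hcon] at hb
      exact hb rfl
    · funext b
      change ∑ c, V.z b c * (if h : V.dg c = e then y ⟨c, h⟩ else 0) =
        (k : ℂ) * (if h : V.dg b = e then y ⟨b, h⟩ else 0)
      by_cases hb : V.dg b = e
      · rw [dif_pos hb]
        have h1 := congrFun hy ⟨b, hb⟩
        change ∑ c : {c // V.dg c = e}, V.z b c.1 * y c = (k : ℂ) * y ⟨b, hb⟩ at h1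
        rw [← h1]
        have h2 : ∀ c : {c // V.dg c = e}, V.z b c.1 * y c = (fun c => V.z b c *
            (if h : V.dg c = e then y ⟨c, h⟩ else 0)) c.1 := by
          intro c
          change _ = V.z b c.1 * (if h : V.dg c.1 = e then y ⟨c.1, h⟩ else 0)
          rw [dif_pos c.2]
        rw [Finset.sum_congr rfl fun c _ => h2 c,
          ← Finset.sum_subtype (Finset.univ.filter fun c => V.dg c = e) (by simp)
          (fun c => V.z b c * (if h : V.dg c = e then y ⟨c, h⟩ else 0)), Finset.sum_filter]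
        refine Finset.sum_congr rfl fun c _ => ?_
        split_ifs with hc
        · rfl
        · rw [mul_zero]
      · rw [dif_neg hb, mul_zero]
        refine Finset.sum_eq_zero fun c _ => ?_
        by_cases hc : V.dg c = e
        · rw [V.graded b c (fun h => hb (h.trans hc)), zero_mul]
        · rw [dif_neg hc, mul_zero]
  · rintro ⟨y, hy1, hy2⟩
    rw [Module.End.mem_eigenspace_iff]
    funext b
    change ∑ c : {c // V.dg c = e}, V.z b.1 c.1 * y c.1 = (k : ℂ) * y b.1
    have h1 := congrFun hy2 b.1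
    change ∑ c, V.z b.1 c * y c = (k : ℂ) * y b.1 at h1
    rw [← h1, ← Finset.sum_subtype (Finset.univ.filter fun c => V.dg c = e) (by simp)
      (fun c => V.z b.1 c * y c), Finset.sum_filter]
    refine Finset.sum_congr rfl fun c _ => ?_
    split_ifs with hc
    · rfl
    · rw [V.graded b.1 c (fun h => hc (h ▸ b.2)), zero_mul]
  · refine LinearMap.ext fun y => Subtype.ext ?_
    funext b
    change (if h : V.dg b = e then y.1 b else 0) = y.1 b
    by_cases hb : V.dg b = e
    · rw [dif_pos hb]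
    · rw [dif_neg hb]
      by_contra hcon
      exact hb (y.2.1 b (Ne.symm hcon))
  · refine LinearMap.ext fun y => Subtype.ext ?_
    funext b
    change (if h : V.dg b.1 = e then y.1 ⟨b.1, h⟩ else 0) = y.1 b
    rw [dif_pos b.2]

end

end Pool.Agent.K4H35.ST
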