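import Mathlib
import Pool.Agent.K4H35.ST.Pow

/-!
# The cohomology of the powers of a variety
-/

set_option linter.unusedSectionVars false

namespace Pool.Agent.K4H35.ST

open Matrix Equiv Module Pool.Agent.H204R3.SP Pool.Agent.H204R3.CM Pool.Agent.W437.HC
  Pool.Agent.W437.HD Pool.Agent.W437.HP Pool.Agent.W437.HR Pool.Agent.TH131.GHC
  Pool.Agent.W437.HQ

noncomputable section

section tensor

variable {C : Type} [Fintype C] [DecidableEq C] {N : ℕ}

/-- The product of vectors in the tensor power. -/
def tp (x : Fin N → C → ℂ) : (Fin N → C) → ℂ := fun I => ∏ k, x k (I k)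

theorem tp_update_add (x : Fin N → C → ℂ) (k : Fin N) (y y' : C → ℂ) :
    tp (Function.update x k (y + y')) = tp (Function.update x k y) + tp (Function.update x k y') := by
  funext I
  change ∏ l, Function.update x k (y + y') l (I l) =
    ∏ l, Function.update x k y l (I l) + ∏ l, Function.update x k y' l (I l)
  rw [← Finset.mul_prod_erase _ _ (Finset.mem_univ k), ← Finset.mul_prod_erase _ _ (Finset.mem_univ k),
    ← Finset.mul_prod_erase _ _ (Finset.mem_univ k)]
  simp only [Function.update_self]
  have h : ∀ z : C → ℂ, ∏ l ∈ Finset.univ.erase k, Function.update x k z l (I l) =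
      ∏ l ∈ Finset.univ.erase k, x l (I l) := by
    intro z
    refine Finset.prod_congr rfl fun l hl => ?_
    rw [Function.update_of_ne (Finset.ne_of_mem_erase hl)]
  rw [h, h, h, Pi.add_apply, add_mul]

theorem tp_update_smul (x : Fin N → C → ℂ) (k : Fin N) (r : ℂ) (y : C → ℂ) :
    tp (Function.update x k (r • y)) = r • tp (Function.update x k y) := by
  funext I
  change ∏ l, Function.update x k (r • y) l (I l) = r * ∏ l, Function.update x k y l (I l)
  rw [← Finset.mul_prod_erase _ _ (Finset.mem_univ k), ← Finset.mul_prod_erase _ _ (Finset.mem_univ k)]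
  simp only [Function.update_self]
  have h : ∀ z : C → ℂ, ∏ l ∈ Finset.univ.erase k, Function.update x k z l (I l) =
      ∏ l ∈ Finset.univ.erase k, x l (I l) := by
    intro z
    refine Finset.prod_congr rfl fun l hl => ?_
    rw [Function.update_of_ne (Finset.ne_of_mem_erase hl)]
  rw [h, h, Pi.smul_apply, smul_eq_mul, mul_assoc]

theorem derM_tp (M : Matrix C C ℂ) (x : Fin N → C → ℂ) :
    derM N M *ᵥ tp x = ∑ k, tp (Function.update x k (M *ᵥ x k)) := by
  rw [derM_mulVec]
  funext I
  rw [Finset.sum_apply]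
  unfold act
  refine Finset.sum_congr rfl fun k _ => ?_
  unfold tp
  rw [← Finset.mul_prod_erase _ _ (Finset.mem_univ k)]
  simp only [Function.update_self, mulVec, dotProduct, transpose_apply]
  rw [Finset.sum_mul]
  refine Finset.sum_congr rfl fun j _ => ?_
  rw [← Finset.mul_prod_erase _ _ (Finset.mem_univ k), Function.update_self, ← mul_assoc]
  congr 1
  refine Finset.prod_congr rfl fun l hl => ?_
  rw [Function.update_of_ne (Finset.ne_of_mem_erase hl),
    Function.update_of_ne (Finset.ne_of_mem_erase hl)]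

/-- The eigenvectors of the derivation span the tensor power. -/
theorem span_pow {M : Matrix C C ℂ} {p q : ℤ → Prop}
    (hp : ∀ x : C → ℂ, x ∈ Submodule.span ℂ {y | ∃ k : ℤ, p k ∧ M *ᵥ y = (k : ℂ) • y})
    (hq : ∀ c : Fin N → ℤ, (∀ k, p (c k)) → q (∑ k, c k)) (x : (Fin N → C) → ℂ) :
    x ∈ Submodule.span ℂ {y | ∃ k : ℤ, q k ∧ derM N M *ᵥ y = (k : ℂ) • y} := by
  classical
  have key : ∀ (s : Finset (Fin N)) (x : Fin N → C → ℂ),
      (∀ k, k ∉ s → ∃ a : ℤ, p a ∧ M *ᵥ x k = (a : ℂ) • x k) →
      tp x ∈ Submodule.span ℂ {y | ∃ k : ℤ, q k ∧ derM N M *ᵥ y = (k : ℂ) • y} := by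
    intro s
    induction s using Finset.induction_on with
    | empty =>
      intro x hx
      choose a ha hax using fun k => hx k (Finset.notMem_empty k)
      refine Submodule.subset_span ⟨∑ k, a k, hq a ha, ?_⟩
      rw [derM_tp, Int.cast_sum, Finset.sum_smul]
      refine Finset.sum_congr rfl fun k _ => ?_
      rw [hax, tp_update_smul, Function.update_eq_self]
    | insert k s hk ih =>
      intro x hx
      have h1 : ∀ y : C → ℂ, tp (Function.update x k y) ∈
          Submodule.span ℂ {y | ∃ k : ℤ, q k ∧ derM N M *ᵥ y = (k : ℂ) • y} := by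
        intro y
        have hy := hp y
        induction hy using Submodule.span_induction with
        | mem y hy =>
          refine ih _ fun l hl => ?_
          by_cases hlk : l = k
          · subst hlk
            rw [Function.update_self]
            exact hy
          · rw [Function.update_of_ne hlk]
            exact hx l fun h => (Finset.mem_insert.1 h).elim hlk hl
        | zero =>
          have h2 := tp_update_smul x k 0 0
          rw [zero_smul, zero_smul] at h2
          rw [h2]
          exact Submodule.zero_mem _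
        | add y y' _ _ h h' =>
          rw [tp_update_add]
          exact Submodule.add_mem _ h h'
        | smul r y _ h =>
          rw [tp_update_smul]
          exact Submodule.smul_mem _ _ h
      have h2 := h1 (x k)
      rwa [Function.update_eq_self] at h2
  have h1 : x = ∑ I, x I • tp (fun k => Pi.single (I k) (1 : ℂ)) := by
    funext J
    rw [Finset.sum_apply, Finset.sum_eq_single J]
    · unfold tp
      simp
    · intro I _ hI
      obtain ⟨k, hk⟩ : ∃ k, I k ≠ J k := by
        by_contra hcon
        push Not at hcon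
        exact hI (funext hcon)
      rw [Pi.smul_apply]
      unfold tp
      rw [Finset.prod_eq_zero (Finset.mem_univ k), smul_zero]
      change (Pi.single (I k) (1 : ℂ) : C → ℂ) (J k) = 0
      rw [Pi.single_eq_of_ne hk.symm]
    · intro h
      exact absurd (Finset.mem_univ _) h
  rw [h1]
  refine Submodule.sum_mem _ fun I _ => Submodule.smul_mem _ _ (key Finset.univ _ fun k hk => ?_)
  exact absurd (Finset.mem_univ k) hk

/-- The eigenvalues are bounded if the eigenvectors with bounded eigenvalues span. -/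
theorem lev_of_span {X : Type} [Fintype X] [DecidableEq X] {M : Matrix X X ℂ} {L : ℤ}
    (h : ∀ x : X → ℂ, x ∈ Submodule.span ℂ {y | ∃ k : ℤ, |k| ≤ L ∧ M *ᵥ y = (k : ℂ) • y})
    (n : ℤ) (y : X → ℂ) (hy : y ≠ 0) (hn : M *ᵥ y = (n : ℂ) • y) : |n| ≤ L := by
  by_contra hcon
  have h1 := (Module.End.eigenspaces_iSupIndep (mulVecLin M)) (n : ℂ)
  have h2 : (⨆ μ : ℂ, ⨆ (_ : μ ≠ (n : ℂ)), Module.End.eigenspace (mulVecLin M) μ) = ⊤ := by
    rw [eq_top_iff]
    intro x _
    refine (Submodule.span_le.2 ?_) (h x)
    rintro z ⟨k, hk, hz⟩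
    have hkn : (k : ℂ) ≠ (n : ℂ) := by
      intro h'
      have h'' : k = n := by exact_mod_cast h'
      exact hcon (h'' ▸ hk)
    refine Submodule.mem_iSup_of_mem (k : ℂ) (Submodule.mem_iSup_of_mem hkn ?_)
    exact Module.End.mem_eigenspace_iff.2 hz
  rw [h2, disjoint_top] at h1
  have h3 : y ∈ Module.End.eigenspace (mulVecLin M) (n : ℂ) := Module.End.mem_eigenspace_iff.2 hn
  rw [h1] at h3
  exact hy h3

end tensor

section coh

variable {v : ℕ} (V : Coh v)

theorem derM_graded (N : ℕ) (I J : Fin N → Fin v) (h : ∑ k, V.dg (I k) ≠ ∑ k, V.dg (J k)) :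
    derM N V.z I J = 0 := by
  rw [derM_apply]
  refine Finset.sum_eq_zero fun k _ => ?_
  by_cases hk : ∀ l, l ≠ k → I l = J l
  · rw [if_pos hk]
    refine V.graded _ _ fun hd => h (Finset.sum_congr rfl fun l _ => ?_)
    by_cases hl : l = k
    · subst hl
      exact hd
    · rw [hk l hl]
  · rw [if_neg hk]

theorem derM_real (N : ℕ) : (derM N V.z).map (starRingEnd ℂ) = -derM N V.z := by
  ext I J
  have h1 : ∀ a b, starRingEnd ℂ (V.z a b) = -V.z a b := fun a b =>
    congrFun (congrFun V.real a) b
  rw [Matrix.map_apply, Matrix.neg_apply, derM_apply, map_sum, ← Finset.sum_neg_distrib]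
  refine Finset.sum_congr rfl fun k _ => ?_
  split_ifs
  · exact h1 _ _
  · rw [map_zero, neg_zero]

/-- The eigenvectors of a matrix with renamed indices. -/
theorem span_submatrix {X X' : Type} [Fintype X] [DecidableEq X] [Fintype X'] [DecidableEq X']
    (e : X' ≃ X) {M : Matrix X X ℂ} {q : ℤ → Prop}
    (h : ∀ x : X → ℂ, x ∈ Submodule.span ℂ {y | ∃ k : ℤ, q k ∧ M *ᵥ y = (k : ℂ) • y})
    (x : X' → ℂ) :
    x ∈ Submodule.span ℂ {y | ∃ k : ℤ, q k ∧ M.submatrix e e *ᵥ y = (k : ℂ) • y} := by
  let L : (X → ℂ) →ₗ[ℂ] (X' → ℂ) :=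
    { toFun := fun x i => x (e i)
      map_add' := fun _ _ => rfl
      map_smul' := fun _ _ => rfl }
  have h1 := Submodule.mem_map_of_mem (f := L) (h (fun i => x (e.symm i)))
  have h2 : L (fun i => x (e.symm i)) = x := by
    funext i
    change x (e.symm (e i)) = x i
    rw [Equiv.symm_apply_apply]
  rw [h2, Submodule.map_span] at h1
  refine Submodule.span_mono ?_ h1
  rintro _ ⟨y, ⟨k, hk, hy⟩, rfl⟩
  refine ⟨k, hk, ?_⟩
  funext i
  have h3 := congrFun hy (e i)
  change ∑ j, M (e i) (e j) * y (e j) = (k : ℂ) * y (e i)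
  rw [Equiv.sum_comp e (fun j => M (e i) j * y j)]
  exact h3

/-- The cohomology of the power `Y ^ N` of a variety: by the formula of Künneth this is the tensor
power of the cohomology of `Y`, on which the Hodge operator acts as a derivation. The index of a
basis vector is a number whose digits in the base `v` are the indices of the factors. -/
def power (N : ℕ) : Coh (v ^ N) where
  dg a := ∑ k, V.dg (finFunctionFinEquiv.symm a k)
  z := Matrix.of fun a b => ∑ k, if ∀ l, l ≠ k →
    finFunctionFinEquiv.symm a l = finFunctionFinEquiv.symm b l then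
      V.z (finFunctionFinEquiv.symm a k) (finFunctionFinEquiv.symm b k) else 0
  graded a b h := derM_graded V N _ _ h
  real := by
    ext a b
    exact congrFun (congrFun (derM_real V N) (finFunctionFinEquiv.symm a))
      (finFunctionFinEquiv.symm b)
  decomp x := by
    have h1 := span_submatrix (finFunctionFinEquiv (m := v) (n := N)).symm (M := derM N V.z)
      (q := fun _ => True) (span_pow (p := fun _ => True) (fun x => by
        refine Submodule.span_mono ?_ (V.decomp x)
        rintro y ⟨k, hk⟩
        exact ⟨k, trivial, hk⟩) (fun _ _ => trivial)) x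
    refine Submodule.span_mono ?_ h1
    rintro y ⟨k, -, hk⟩
    exact ⟨k, hk⟩

theorem power_z (N : ℕ) : (power V N).z =
    (derM N V.z).submatrix (finFunctionFinEquiv (m := v) (n := N)).symm
      (finFunctionFinEquiv (m := v) (n := N)).symm := rfl

/-- The level of a power. -/
theorem power_lev {ℓ : ℕ}
    (hlev : ∀ (n : ℤ) (y : Fin v → ℂ), y ≠ 0 → V.z *ᵥ y = (n : ℂ) • y → |n| ≤ ℓ) (N : ℕ)
    (n : ℤ) (y : Fin (v ^ N) → ℂ) (hy : y ≠ 0) (hn : (power V N).z *ᵥ y = (n : ℂ) • y) :
    |n| ≤ ((N * ℓ : ℕ) : ℤ) := by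
  refine lev_of_span (M := (power V N).z) (fun x => ?_) n y hy hn
  rw [power_z]
  refine span_submatrix _ (q := fun k => |k| ≤ ((N * ℓ : ℕ) : ℤ)) (span_pow
    (p := fun k => |k| ≤ (ℓ : ℤ)) (fun x => ?_) fun c hc => ?_) x
  · have h1 := V.decomp x
    induction h1 using Submodule.span_induction with
    | mem y hy =>
      obtain ⟨k, hk⟩ := hy
      by_cases hy0 : y = 0
      · rw [hy0]
        exact Submodule.zero_mem _
      · exact Submodule.subset_span ⟨k, hlev k y hy0 hk, hk⟩
    | zero => exact Submodule.zero_mem _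
    | add x y _ _ hx hy => exact Submodule.add_mem _ hx hy
    | smul r x _ hx => exact Submodule.smul_mem _ _ hx
  · refine (Finset.abs_sum_le_sum_abs _ _).trans ((Finset.sum_le_sum fun k _ => hc k).trans ?_)
    simp

/-- The factors which are related to a power. -/
theorem RR_power {ι : Type} [Fintype ι] [DecidableEq ι] {g : ι → ℕ}
    (Z : ∀ i, Matrix (Fin (g i)) (Fin (g i)) ℂ) (N : ℕ) {i : ι}
    (hi : i ∈ RR Z (power V N).z) : i ∈ RRI Z V.z := by
  rw [mem_RRI]
  rw [mem_RR] at hi
  intro X hX
  refine hi X ?_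
  rw [power_z]
  exact kk_reindex _ _ (mem_kkI.1 hX N)

end coh

end

end Pool.Agent.K4H35.ST
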