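import Mathlib
import Pool.Agent.K4H35.ST.Gen
import Pool.Agent.K4H35.ST.PowCoh
import Pool.Agent.K4H35.ST.PolCoh

/-!
# The Hodge tensors of a polarized Hodge structure are finitely generated
-/

set_option linter.unusedSectionVars false

namespace Pool.Agent.K4H35.ST

open Matrix Module Pool.Agent.W437.HC Pool.Agent.W437.HP

open scoped ComplexOrder

noncomputable section

section powM

variable {R : Type} [CommRing R] {C : Type} [Fintype C] [DecidableEq C]

/-- The tensor power of a matrix. -/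
def powM (n : ℕ) (M : Matrix C C R) : Matrix (Fin n → C) (Fin n → C) R :=
  Matrix.of fun I J => ∏ a, M (I a) (J a)

theorem powM_apply (n : ℕ) (M : Matrix C C R) (I J : Fin n → C) :
    powM n M I J = ∏ a, M (I a) (J a) := rfl

theorem powM_mul (n : ℕ) (M M' : Matrix C C R) : powM n (M * M') = powM n M * powM n M' := by
  ext I J
  rw [powM_apply, Matrix.mul_apply]
  simp only [Matrix.mul_apply, powM_apply]
  rw [Finset.prod_univ_sum]
  simp only [Fintype.piFinset_univ, Finset.prod_mul_distrib]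

theorem powM_diagonal (n : ℕ) (d : C → R) :
    powM n (diagonal d) = diagonal fun w => ∏ a, d (w a) := by
  ext I J
  rw [powM_apply]
  by_cases h : I = J
  · subst h
    rw [diagonal_apply_eq]
    exact Finset.prod_congr rfl fun a _ => diagonal_apply_eq _ _
  · rw [diagonal_apply_ne _ h]
    obtain ⟨a, ha⟩ := Function.ne_iff.1 h
    exact Finset.prod_eq_zero (Finset.mem_univ a) (diagonal_apply_ne _ ha)

theorem powM_one (n : ℕ) : powM n (1 : Matrix C C R) = 1 := by
  rw [← diagonal_one, powM_diagonal]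
  simp

theorem powM_conjTranspose (n : ℕ) (M : Matrix C C ℂ) : (powM n M)ᴴ = powM n Mᴴ := by
  ext I J
  rw [conjTranspose_apply, powM_apply, powM_apply, star_prod]
  rfl

theorem powM_cK (n : ℕ) (M : Matrix C C ℚ) : cK ℂ (powM n M) = powM n (cK ℂ M) := by
  ext I J
  change ((∏ a, M (I a) (J a) : ℚ) : ℂ) = ∏ a, ((M (I a) (J a) : ℚ) : ℂ)
  push_cast
  rfl

theorem powM_tp (n : ℕ) (M : Matrix C C ℂ) (x : Fin n → C → ℂ) :
    powM n M *ᵥ tp x = tp fun a => M *ᵥ x a := by
  funext I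
  change ∑ J : Fin n → C, (∏ a, M (I a) (J a)) * ∏ a, x a (J a) = ∏ a, ∑ j, M (I a) j * x a j
  rw [Finset.prod_univ_sum]
  simp only [Fintype.piFinset_univ, Finset.prod_mul_distrib]

theorem mat_ext_tp {n : ℕ} {A A' : Matrix (Fin n → C) (Fin n → C) ℂ}
    (h : ∀ x : Fin n → C → ℂ, A *ᵥ tp x = A' *ᵥ tp x) : A = A' := by
  ext I J
  have h1 : (Pi.single J 1 : (Fin n → C) → ℂ) = tp fun a => (Pi.single (J a) 1 : C → ℂ) := by
    funext L
    change _ = ∏ a, (Pi.single (J a) (1 : ℂ) : C → ℂ) (L a)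
    by_cases hL : L = J
    · subst hL
      rw [Pi.single_eq_same]
      refine (Finset.prod_eq_one fun a _ => ?_).symm
      rw [Pi.single_eq_same]
    · rw [Pi.single_eq_of_ne hL]
      obtain ⟨a, ha⟩ := Function.ne_iff.1 hL
      refine (Finset.prod_eq_zero (Finset.mem_univ a) ?_).symm
      rw [Pi.single_eq_of_ne ha]
  have h2 := congrFun (h fun a => (Pi.single (J a) 1 : C → ℂ)) I
  rw [← h1, mulVec_single_one, mulVec_single_one] at h2
  exact h2

theorem derM_powM {n : ℕ} {D P J : Matrix C C ℂ} (h : D * P = P * J) :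
    derM n D * powM n P = powM n P * derM n J := by
  refine mat_ext_tp fun x => ?_
  rw [← mulVec_mulVec, ← mulVec_mulVec, powM_tp, derM_tp, derM_tp, mulVec_sum]
  refine Finset.sum_congr rfl fun k _ => ?_
  rw [powM_tp]
  congr 1
  funext a
  rcases eq_or_ne a k with rfl | hak
  · rw [Function.update_self, Function.update_self, mulVec_mulVec, mulVec_mulVec, h]
  · rw [Function.update_of_ne hak, Function.update_of_ne hak]

theorem derM_transpose {n : ℕ} (D : Matrix C C ℂ) : (derM n D)ᵀ = derM n Dᵀ := by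
  ext I J
  rw [transpose_apply, derM_apply, derM_apply]
  refine Finset.sum_congr rfl fun k _ => ?_
  by_cases h : ∀ l, l ≠ k → J l = I l
  · rw [if_pos h, if_pos fun l hl => (h l hl).symm, transpose_apply]
  · rw [if_neg h, if_neg fun h2 => h fun l hl => (h2 l hl).symm]

theorem derM_skew {n : ℕ} {D Q : Matrix C C ℂ} (h : Dᵀ * Q + Q * D = 0) :
    (derM n D)ᵀ * powM n Q + powM n Q * derM n D = 0 := by
  refine mat_ext_tp fun x => ?_
  rw [add_mulVec, ← mulVec_mulVec, ← mulVec_mulVec, derM_transpose, powM_tp, derM_tp, derM_tp,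
    mulVec_sum, ← Finset.sum_add_distrib, zero_mulVec]
  refine Finset.sum_eq_zero fun k _ => ?_
  rw [powM_tp]
  have h1 : (fun a => Q *ᵥ (Function.update x k (D *ᵥ x k)) a) =
      Function.update (fun a => Q *ᵥ x a) k (Q *ᵥ (D *ᵥ x k)) := by
    funext a
    rcases eq_or_ne a k with rfl | hak
    · rw [Function.update_self, Function.update_self]
    · rw [Function.update_of_ne hak, Function.update_of_ne hak]
  rw [h1, ← tp_update_add, mulVec_mulVec, mulVec_mulVec, ← add_mulVec, h, zero_mulVec]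
  have h2 := tp_update_smul (fun a => Q *ᵥ x a) k 0 (0 : C → ℂ)
  rw [zero_smul, zero_smul] at h2
  exact h2

theorem derM_diagonal_mulVec {n : ℕ} (d : C → ℂ) (ξ : (Fin n → C) → ℂ) (w : Fin n → C) :
    (derM n (diagonal d) *ᵥ ξ) w = (∑ a, d (w a)) * ξ w := by
  rw [derM_mulVec]
  unfold act
  rw [Finset.sum_mul]
  refine Finset.sum_congr rfl fun k _ => ?_
  rw [Finset.sum_eq_single (w k)]
  · rw [diagonal_transpose, diagonal_apply_eq, Function.update_eq_self]
  · intro j _ hj
    rw [diagonal_transpose, diagonal_apply_ne _ hj, zero_mul]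
  · intro h
    exact absurd (Finset.mem_univ _) h

end powM

section aniso

variable {C : Type} [Fintype C] [DecidableEq C] {D : Matrix C C ℂ} {Q : Matrix C C ℚ}

theorem dot_cst {X : Type} [Fintype X] (x : X → ℚ) (M : Matrix X X ℚ) (y : X → ℚ) :
    ((x ⬝ᵥ (M *ᵥ y) : ℚ) : ℂ) =
      (fun i => ((x i : ℚ) : ℂ)) ⬝ᵥ (cK ℂ M *ᵥ fun i => ((y i : ℚ) : ℂ)) := by
  simp only [dotProduct, mulVec]
  push_cast
  rfl

theorem prod_zpow_sum {ι : Type} (s : Finset ι) (g : ι → ℤ) :
    ∏ a ∈ s, Complex.I ^ g a = Complex.I ^ ∑ a ∈ s, g a := by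
  classical
  induction s using Finset.induction with
  | empty => rw [Finset.prod_empty, Finset.sum_empty, zpow_zero]
  | insert a s ha ih => rw [Finset.prod_insert ha, Finset.sum_insert ha,
      zpow_add₀ Complex.I_ne_zero, ih]

/-- The form is anisotropic on the Hodge tensors. -/
theorem Fr.aniso (f : Fr D (cK ℂ Q)) {n : ℕ} {x : (Fin n → C) → ℚ}
    (hx : derM n D *ᵥ cst ℂ x = 0) (h : x ⬝ᵥ (powM n Q *ᵥ x) = 0) : x = 0 := by
  obtain ⟨ξ, hξ⟩ : ∃ ξ, ξ = powM n f.Pi *ᵥ cst ℂ x := ⟨_, rfl⟩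
  have h1 : cst ℂ x = powM n f.P *ᵥ ξ := by
    rw [hξ, mulVec_mulVec, ← powM_mul, f.PPi, powM_one, one_mulVec]
  have h2 : derM n (diagonal fun a => (f.j a : ℂ)) *ᵥ ξ = 0 := by
    have h3 : powM n f.P *ᵥ (derM n (diagonal fun a => (f.j a : ℂ)) *ᵥ ξ) = 0 := by
      rw [mulVec_mulVec, ← derM_powM f.eig, ← mulVec_mulVec, ← h1, hx]
    have h4 : powM n f.Pi *ᵥ (powM n f.P *ᵥ (derM n (diagonal fun a => (f.j a : ℂ)) *ᵥ ξ)) = 0 := by
      rw [h3, mulVec_zero]
    rwa [mulVec_mulVec, ← powM_mul, f.PiP, powM_one, one_mulVec] at h4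
  have h3 : ∀ w, ξ w ≠ 0 → ∑ a, f.j (w a) = 0 := by
    intro w hw
    have h4 := congrFun h2 w
    rw [derM_diagonal_mulVec] at h4
    have h5 := (mul_eq_zero.1 h4).resolve_right hw
    exact_mod_cast h5
  have h4 : star (cst ℂ x) = cst ℂ x := by
    funext w
    rw [Pi.star_apply, cst_apply]
    exact map_ratCast (starRingEnd ℂ) _
  have h5 : star (cst ℂ x) ⬝ᵥ (powM n (cK ℂ Q) *ᵥ cst ℂ x) = 0 := by
    rw [h4, ← powM_cK]
    have h6 := dot_cst x (powM n Q) x
    rw [h, Rat.cast_zero] at h6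
    exact h6.symm
  have h6 : star ξ ⬝ᵥ (powM n (f.Pᴴ * cK ℂ Q * f.P) *ᵥ ξ) = 0 := by
    rw [powM_mul, powM_mul, ← mulVec_mulVec, ← h1, ← mulVec_mulVec, dotProduct_mulVec,
      ← powM_conjTranspose, ← star_mulVec, ← h1]
    exact h5
  have h7 : star ξ ᵥ* diagonal (fun w => ∏ a, Complex.I ^ (-f.j (w a))) = star ξ := by
    funext w
    rw [vecMul_diagonal]
    by_cases hw : ξ w = 0
    · rw [Pi.star_apply, hw, star_zero, zero_mul]
    · rw [prod_zpow_sum, Finset.sum_neg_distrib, h3 w hw, neg_zero, zpow_zero,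
        mul_one]
  rw [f.gram, powM_mul, powM_mul, powM_diagonal, ← mulVec_mulVec, dotProduct_mulVec, h7,
    ← mulVec_mulVec, dotProduct_mulVec, ← powM_conjTranspose, ← star_mulVec,
    dotProduct_star_self_eq_zero] at h6
  have h8 : ξ = 0 := by
    have h9 : powM n f.Ri *ᵥ (powM n f.R *ᵥ ξ) = 0 := by rw [h6, mulVec_zero]
    rwa [mulVec_mulVec, ← powM_mul, f.RiR, powM_one, one_mulVec] at h9
  rw [h8, mulVec_zero] at h1
  exact cst_injective (h1.trans (cst_zero (K := ℂ)).symm)

end aniso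

section contr

variable {C : Type} [Fintype C] [DecidableEq C] {k l n : ℕ}

/-- Words on the union of two sets of places. -/
def glue (e : Fin k ⊕ Fin l ≃ Fin n) (u : Fin k → C) (v : Fin l → C) : Fin n → C :=
  fun i => Sum.elim u v (e.symm i)

theorem glue_inl (e : Fin k ⊕ Fin l ≃ Fin n) (u : Fin k → C) (v : Fin l → C) (a : Fin k) :
    glue e u v (e (Sum.inl a)) = u a := by
  unfold glue
  rw [Equiv.symm_apply_apply, Sum.elim_inl]

theorem glue_inr (e : Fin k ⊕ Fin l ≃ Fin n) (u : Fin k → C) (v : Fin l → C) (a : Fin l) :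
    glue e u v (e (Sum.inr a)) = v a := by
  unfold glue
  rw [Equiv.symm_apply_apply, Sum.elim_inr]

theorem glue_ext {X : Type} (e : Fin k ⊕ Fin l ≃ Fin n) {w w' : Fin n → X}
    (h1 : ∀ a, w (e (Sum.inl a)) = w' (e (Sum.inl a)))
    (h2 : ∀ a, w (e (Sum.inr a)) = w' (e (Sum.inr a))) : w = w' := by
  funext i
  obtain ⟨j, rfl⟩ := e.surjective i
  rcases j with a | a
  · exact h1 a
  · exact h2 a

/-- The words on the union of two sets of places. -/
def glueE (e : Fin k ⊕ Fin l ≃ Fin n) : (Fin k → C) × (Fin l → C) ≃ (Fin n → C) where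
  toFun p := glue e p.1 p.2
  invFun w := (fun a => w (e (Sum.inl a)), fun a => w (e (Sum.inr a)))
  left_inv p := Prod.ext (funext fun a => glue_inl e _ _ a) (funext fun a => glue_inr e _ _ a)
  right_inv w := glue_ext e (fun a => glue_inl e _ _ a) (fun a => glue_inr e _ _ a)

theorem sum_glue {M : Type} [AddCommMonoid M] (e : Fin k ⊕ Fin l ≃ Fin n)
    (F : (Fin n → C) → M) : ∑ w, F w = ∑ u, ∑ v, F (glue e u v) := by
  rw [← (glueE e).sum_comp, Fintype.sum_prod_type]
  rfl

theorem powM_glue {R : Type} [CommRing R] (e : Fin k ⊕ Fin l ≃ Fin n) (M : Matrix C C R)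
    (u u' : Fin k → C) (v v' : Fin l → C) :
    powM n M (glue e u v) (glue e u' v') = powM k M u u' * powM l M v v' := by
  rw [powM_apply, ← e.prod_comp, Fintype.prod_sum_type]
  simp only [glue_inl, glue_inr]
  rfl

theorem glue_update_inl (e : Fin k ⊕ Fin l ≃ Fin n) (u : Fin k → C) (v : Fin l → C) (a : Fin k)
    (j : C) : Function.update (glue e u v) (e (Sum.inl a)) j = glue e (Function.update u a j) v := by
  refine glue_ext e (fun a' => ?_) (fun a' => ?_)
  · rw [glue_inl]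
    rcases eq_or_ne a' a with rfl | h
    · rw [Function.update_self, Function.update_self]
    · rw [Function.update_of_ne h, Function.update_of_ne, glue_inl]
      intro h2
      exact h (Sum.inl_injective (e.injective h2))
  · rw [glue_inr, Function.update_of_ne, glue_inr]
    intro h2
    exact absurd (e.injective h2) (by simp)

theorem glue_update_inr (e : Fin k ⊕ Fin l ≃ Fin n) (u : Fin k → C) (v : Fin l → C) (a : Fin l)
    (j : C) : Function.update (glue e u v) (e (Sum.inr a)) j = glue e u (Function.update v a j) := by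
  refine glue_ext e (fun a' => ?_) (fun a' => ?_)
  · rw [glue_inl, Function.update_of_ne, glue_inl]
    intro h2
    exact absurd (e.injective h2) (by simp)
  · rw [glue_inr]
    rcases eq_or_ne a' a with rfl | h
    · rw [Function.update_self, Function.update_self]
    · rw [Function.update_of_ne h, Function.update_of_ne, glue_inr]
      intro h2
      exact h (Sum.inr_injective (e.injective h2))

theorem act_glue (X : Matrix C C ℂ) (e : Fin k ⊕ Fin l ≃ Fin n) (y : (Fin n → C) → ℂ)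
    (u : Fin k → C) (v : Fin l → C) :
    act X y (glue e u v) = act X (fun u => y (glue e u v)) u + act X (fun v => y (glue e u v)) v := by
  unfold act
  rw [← e.sum_comp, Fintype.sum_sum_type]
  simp only [glue_inl, glue_inr, glue_update_inl, glue_update_inr]

theorem pr_glue {K : Type} [Field K] (e : Fin k ⊕ Fin l ≃ Fin n) (b : (Fin k → C) → K)
    (r : (Fin l → C) → K) (u : Fin k → C) (v : Fin l → C) :
    pr e b r (glue e u v) = b u * r v := by
  rw [pr_apply]
  simp only [glue_inl, glue_inr]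

theorem ext_glue {K : Type} (e : Fin k ⊕ Fin l ≃ Fin n) {x y : (Fin n → C) → K}
    (h : ∀ u v, x (glue e u v) = y (glue e u v)) : x = y := by
  funext w
  have h1 : glue e (fun a => w (e (Sum.inl a))) (fun a => w (e (Sum.inr a))) = w :=
    (glueE e).right_inv w
  rw [← h1]
  exact h _ _

/-- The Hodge tensors of the operator `X`. -/
def HB (X : Matrix C C ℂ) (n : ℕ) : Submodule ℚ ((Fin n → C) → ℚ) where
  carrier := {x | act X (cst ℂ x) = 0}
  zero_mem' := by
    change act X (cst ℂ 0) = 0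
    rw [cst_zero, act_zero_right]
  add_mem' := by
    intro x y hx hy
    change act X (cst ℂ (x + y)) = 0
    have h := derM_mulVec n Xᵀ (cst ℂ (x + y))
    rw [transpose_transpose] at h
    rw [← h, cst_add, mulVec_add, derM_mulVec, derM_mulVec, transpose_transpose,
      show act X (cst ℂ x) = 0 from hx, show act X (cst ℂ y) = 0 from hy, add_zero]
  smul_mem' := by
    intro r x hx
    change act X (cst ℂ (r • x)) = 0
    have h1 : cst ℂ (r • x) = (r : ℂ) • cst ℂ x := by
      funext w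
      change ((r * x w : ℚ) : ℂ) = (r : ℂ) * (x w : ℂ)
      push_cast
      rfl
    have h := derM_mulVec n Xᵀ (cst ℂ (r • x))
    rw [transpose_transpose] at h
    rw [← h, h1, mulVec_smul, derM_mulVec, transpose_transpose,
      show act X (cst ℂ x) = 0 from hx, smul_zero]

theorem mem_HB {X : Matrix C C ℂ} {x : (Fin n → C) → ℚ} : x ∈ HB X n ↔ act X (cst ℂ x) = 0 :=
  Iff.rfl

theorem pr_HB {X : Matrix C C ℂ} (e : Fin k ⊕ Fin l ≃ Fin n) {b : (Fin k → C) → ℚ}
    (hb : b ∈ HB X k) {r : (Fin l → C) → ℚ} (hr : r ∈ HB X l) : pr e b r ∈ HB X n := by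
  rw [mem_HB] at *
  refine ext_glue e fun u v => ?_
  rw [act_glue]
  have h1 : (fun u => cst ℂ (pr e b r) (glue e u v)) = cst ℂ r v • cst ℂ b := by
    funext u
    rw [cst_apply, pr_glue, Pi.smul_apply, smul_eq_mul, cst_apply, cst_apply, Rat.cast_mul, mul_comm]
  have h2 : (fun v => cst ℂ (pr e b r) (glue e u v)) = cst ℂ b u • cst ℂ r := by
    funext v
    rw [cst_apply, pr_glue, Pi.smul_apply, smul_eq_mul, cst_apply, cst_apply, Rat.cast_mul]
  have h3 : ∀ {m : ℕ} (c : ℂ) (x : (Fin m → C) → ℂ), act X x = 0 → act X (c • x) = 0 := by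
    intro m c x hx
    have h := derM_mulVec m Xᵀ (c • x)
    rw [transpose_transpose] at h
    rw [← h, mulVec_smul, derM_mulVec, transpose_transpose, hx, smul_zero]
  rw [h1, h2, h3 _ _ hb, h3 _ _ hr]
  exact add_zero 0

/-- The contraction with a tensor, for the bilinear form `Q`. -/
def contr (Q : Matrix C C ℚ) (e : Fin k ⊕ Fin l ≃ Fin n) (b : (Fin k → C) → ℚ)
    (y : (Fin n → C) → ℚ) : (Fin l → C) → ℚ :=
  fun v => ∑ u, (b ᵥ* powM k Q) u * y (glue e u v)

theorem dot_pr (Q : Matrix C C ℚ) (e : Fin k ⊕ Fin l ≃ Fin n) (b : (Fin k → C) → ℚ)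
    (x : (Fin l → C) → ℚ) (y : (Fin n → C) → ℚ) :
    pr e b x ⬝ᵥ (powM n Q *ᵥ y) = x ⬝ᵥ (powM l Q *ᵥ contr Q e b y) := by
  have h1 : pr e b x ⬝ᵥ (powM n Q *ᵥ y) = ∑ v, x v * ∑ u, b u *
      ∑ u', powM k Q u u' * ∑ v', powM l Q v v' * y (glue e u' v') := by
    rw [dotProduct, sum_glue e, Finset.sum_comm]
    refine Finset.sum_congr rfl fun v _ => ?_
    rw [Finset.mul_sum]
    refine Finset.sum_congr rfl fun u _ => ?_
    rw [pr_glue, mul_comm (b u), mul_assoc]
    congr 2
    rw [mulVec, dotProduct, sum_glue e]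
    refine Finset.sum_congr rfl fun u' _ => ?_
    rw [Finset.mul_sum]
    refine Finset.sum_congr rfl fun v' _ => ?_
    rw [powM_glue, mul_assoc]
  rw [h1]
  refine Finset.sum_congr rfl fun v _ => ?_
  congr 1
  have h2 : ∑ u, b u * ∑ u', powM k Q u u' * ∑ v', powM l Q v v' * y (glue e u' v') =
      (b ᵥ* powM k Q) ⬝ᵥ fun u' => ∑ v', powM l Q v v' * y (glue e u' v') := by
    rw [← dotProduct_mulVec]
    rfl
  rw [h2]
  unfold contr
  simp only [dotProduct, mulVec, Finset.mul_sum]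
  rw [Finset.sum_comm]
  refine Finset.sum_congr rfl fun v' _ => Finset.sum_congr rfl fun u' _ => ?_
  ring

theorem contr_HB {X : Matrix C C ℂ} {Q : Matrix C C ℚ} (hQ : X * cK ℂ Q + cK ℂ Q * Xᵀ = 0)
    (e : Fin k ⊕ Fin l ≃ Fin n) {b : (Fin k → C) → ℚ} (hb : b ∈ HB X k)
    {y : (Fin n → C) → ℚ} (hy : y ∈ HB X n) : contr Q e b y ∈ HB X l := by
  rw [mem_HB] at *
  funext v
  have h1 : act X (cst ℂ (contr Q e b y)) v = ∑ u, ((b ᵥ* powM k Q) u : ℂ) *
      act X (fun v => cst ℂ y (glue e u v)) v := by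
    unfold act
    simp only [Finset.mul_sum]
    refine Eq.trans ?_ Finset.sum_comm
    refine Finset.sum_congr rfl fun a _ => ?_
    refine Eq.trans ?_ Finset.sum_comm
    refine Finset.sum_congr rfl fun j _ => ?_
    rw [cst_apply, contr]
    push_cast
    rw [Finset.mul_sum]
    refine Finset.sum_congr rfl fun u _ => ?_
    rw [cst_apply]
    ring
  have h2 : ∀ u, act X (fun v => cst ℂ y (glue e u v)) v =
      -act X (fun u => cst ℂ y (glue e u v)) u := by
    intro u
    have h3 := act_glue X e (cst ℂ y) u v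
    rw [hy, Pi.zero_apply] at h3
    exact eq_neg_of_add_eq_zero_right h3.symm
  have h3 : (fun u => ((b ᵥ* powM k Q) u : ℂ)) = cst ℂ b ᵥ* powM k (cK ℂ Q) := by
    funext u
    rw [← powM_cK]
    simp only [vecMul, dotProduct]
    push_cast
    rfl
  have h4 : ∀ z : (Fin k → C) → ℂ, act X z = derM k Xᵀ *ᵥ z := by
    intro z
    rw [derM_mulVec, transpose_transpose]
  have h5 : (derM k Xᵀ)ᵀ * powM k (cK ℂ Q) + powM k (cK ℂ Q) * derM k Xᵀ = 0 :=
    derM_skew (by rw [transpose_transpose]; exact hQ)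
  rw [h1]
  simp only [h2]
  change (fun u => ((b ᵥ* powM k Q) u : ℂ)) ⬝ᵥ (-act X fun u => cst ℂ y (glue e u v)) = 0
  rw [h3, dotProduct_neg, ← dotProduct_mulVec, h4, mulVec_mulVec,
    eq_neg_of_add_eq_zero_right h5, neg_mulVec, dotProduct_neg, neg_neg, ← mulVec_mulVec,
    dotProduct_mulVec, vecMul_transpose, ← h4, hb, zero_dotProduct]

theorem exists_split {V : Type} [AddCommGroup V] [Module ℚ V] [FiniteDimensional ℚ V]
    (Φ : V →ₗ[ℚ] V →ₗ[ℚ] ℚ) (B : Submodule ℚ V)
    (h : ∀ x ∈ B, (∀ y ∈ B, Φ x y = 0) → x = 0) (x : V) : ∃ b ∈ B, ∀ y ∈ B, Φ (x - b) y = 0 := by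
  let T : V →ₗ[ℚ] Dual ℚ B := (LinearMap.lcomp ℚ ℚ B.subtype).comp Φ
  have hT : ∀ (x : V) (y : B), T x y = Φ x y := fun _ _ => rfl
  have hinj : Function.Injective (T.comp B.subtype) := by
    rw [← LinearMap.ker_eq_bot, LinearMap.ker_eq_bot']
    intro b hb
    apply Subtype.ext
    refine h b.1 b.2 fun y hy => ?_
    have h1 := LinearMap.congr_fun hb ⟨y, hy⟩
    exact h1
  have hsurj : Function.Surjective (T.comp B.subtype) :=
    (LinearMap.injective_iff_surjective_of_finrank_eq_finrank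
      (Subspace.dual_finrank_eq (K := ℚ) (V := B)).symm).1 hinj
  obtain ⟨b, hb⟩ := hsurj (T x)
  refine ⟨b.1, b.2, fun y hy => ?_⟩
  have h1 := LinearMap.congr_fun hb ⟨y, hy⟩
  rw [map_sub, LinearMap.sub_apply, sub_eq_zero]
  exact h1.symm

/-- The bilinear form on the tensors. -/
def fm (Q : Matrix C C ℚ) (n : ℕ) :
    ((Fin n → C) → ℚ) →ₗ[ℚ] ((Fin n → C) → ℚ) →ₗ[ℚ] ℚ :=
  LinearMap.mk₂ ℚ (fun x y => x ⬝ᵥ (powM n Q *ᵥ y))
    (fun _ _ _ => add_dotProduct _ _ _) (fun _ _ _ => smul_dotProduct _ _ _)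
    (fun _ _ _ => by rw [mulVec_add, dotProduct_add])
    (fun _ _ _ => by rw [mulVec_smul, dotProduct_smul])

theorem fm_apply (Q : Matrix C C ℚ) (n : ℕ) (x y : (Fin n → C) → ℚ) :
    fm Q n x y = x ⬝ᵥ (powM n Q *ᵥ y) := rfl

/-- The orthogonal complement of the Hodge tensors. -/
def OC (X : Matrix C C ℂ) (Q : Matrix C C ℚ) (n : ℕ) : Submodule ℚ ((Fin n → C) → ℚ) where
  carrier := {x | ∀ y ∈ HB X n, fm Q n x y = 0}
  zero_mem' := fun y _ => by rw [map_zero, LinearMap.zero_apply]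
  add_mem' := fun {a b} ha hb y hy => by
    rw [map_add, LinearMap.add_apply, ha y hy, hb y hy, add_zero]
  smul_mem' := fun r x hx y hy => by rw [map_smul, LinearMap.smul_apply, hx y hy, smul_zero]

/-- **The Hodge tensors of a polarized Hodge structure are finitely generated.** -/
theorem exists_gen {X : Matrix C C ℂ} {Q : Matrix C C ℚ} (f : Fr Xᵀ (cK ℂ Q))
    (hQ : X * cK ℂ Q + cK ℂ Q * Xᵀ = 0) : ∃ K0 : ℕ, ∀ n, HB X n ≤ GB (HB X) K0 n := by
  have han : ∀ (n : ℕ) (x : (Fin n → C) → ℚ), x ∈ HB X n → fm Q n x x = 0 → x = 0 := by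
    intro n x hx h
    refine f.aniso ?_ h
    rw [derM_mulVec, transpose_transpose]
    exact hx
  refine exists_GB (N := OC X Q) (fun e b hb r hr => pr_HB e hb hr) ?_ ?_ ?_
  · intro k l n e b hb x hx y hy
    rw [fm_apply, dot_pr]
    exact hx _ (contr_HB hQ e hb hy)
  · exact fun n x hx h => han n x hx (h x hx)
  · intro n x
    obtain ⟨b, hb, h⟩ := exists_split (fm Q n) (HB X n)
      (fun x hx h => han n x hx (h x hx)) x
    exact ⟨b, hb, x - b, h, (add_sub_cancel _ _).symm⟩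

end contr

end

end Pool.Agent.K4H35.ST
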